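import Pool.Agent.Run7.h752.LF.Leaf

/-!
Sets which are unions of surfaces tangent to the kernel are invariant under the flows of the vector
fields tangent to the kernel.
-/

set_option autoImplicit false

open Set Filter Topology MeasureTheory
open scoped Manifold ContDiff

noncomputable section

namespace Run7.h752.LF

open Pool.Agent.Y501.SY Pool.Agent.R772 Run7.h752.SC

section lin

variable {V : Type} [NormedAddCommGroup V] [NormedSpace ℝ V] {m : ℕ}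

theorem ker_zero [FiniteDimensional ℝ V] (hn : Module.finrank ℝ V = 2 * (m + 1))
    (σ : V [⋀^Fin 2]→L[ℝ] ℝ) (e : Fin (m + 1) × Fin 2 → V) (a b : V →L[ℝ] ℝ)
    (hne : br σ e a b ≠ 0) (u : V) (hu : ∀ w, σ ![u, w] = 0) (ha : a u = 0) (hb : b u = 0) :
    u = 0 := by
  refine wedge_ker hn _ e hne _ fun i w => ?_
  refine Fin.cases ?_ (fun i => ?_) i
  · rw [Fin.cons_zero, wedge_apply]
    simp only [Matrix.cons_val_zero, Matrix.cons_val_one]
    rw [ha, hb]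
    ring
  · rw [Fin.cons_succ]
    exact hu w

theorem ker_sub (σ : V [⋀^Fin 2]→L[ℝ] ℝ) (u v : V) (hu : ∀ w, σ ![u, w] = 0)
    (hv : ∀ w, σ ![v, w] = 0) (w : V) : σ ![u - v, w] = 0 := by
  have hupd0 : ∀ (v w y : V), Function.update ![v, w] 0 y = ![y, w] := by
    intro v w y; funext i; fin_cases i <;> simp
  have h := σ.toAlternatingMap.map_update_sub ![u, w] 0 u v
  rw [hupd0, hupd0, hupd0] at h
  have h1 : σ ![u - v, w] = σ ![u, w] - σ ![v, w] := h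
  rw [h1, hu, hv, sub_self]

end lin

section

variable {d m : ℕ} {X : Type} [TopologicalSpace X] [ChartedSpace (E d) X]
  [IsManifold (𝓡 d) ∞ X] [T2Space X]

omit [IsManifold (𝓡 d) ∞ X] [T2Space X] in
theorem vec_eq (hd : d = 2 * (m + 1)) {vol : Top d m X} (hvol : IsVol vol) {σ : Form d X 2}
    {a b : X → ℝ} {x : X} (hne : bf vol σ a b x ≠ 0) {u v : TangentSpace (𝓡 d) x}
    (hu : ∀ w, σ x ![u, w] = 0) (hv : ∀ w, σ x ![v, w] = 0)
    (ha : dd (d := d) a x u = dd (d := d) a x v) (hb : dd (d := d) b x u = dd (d := d) b x v) :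
    u = v := by
  obtain ⟨e, he⟩ := hvol.frame x
  have hfd := fin_tangent (d := d) x
  have h1 : br (V := E d) (σ x) e (dd (d := d) a x) (dd (d := d) b x) ≠ 0 := by
    intro h0
    rw [bf_of hd hvol σ x e he, h0, zero_div] at hne
    exact hne rfl
  refine sub_eq_zero.1 (ker_zero (V := E d) (finrank_tangent hd x) (σ x) e _ _ h1 (u - v)
    (ker_sub (V := E d) (σ x) u v hu hv) ?_ ?_)
  · exact ((dd (d := d) a x).map_sub u v).trans (sub_eq_zero.2 ha)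
  · exact ((dd (d := d) b x).map_sub u v).trans (sub_eq_zero.2 hb)

/-- derivatives of smooth functions along smooth vector fields are smooth -/
theorem dd_smooth {Y : (x : X) → TangentSpace (𝓡 d) x}
    (hY : ContMDiff (𝓡 d) (𝓡 d).tangent ∞ (fun x => (⟨x, Y x⟩ : TangentBundle (𝓡 d) X)))
    {F : X → ℝ} (hF : SmoothFun (d := d) F) :
    SmoothFun (d := d) (fun x => dd (d := d) F x (Y x)) := by
  have h1 : ContMDiff (𝓡 d).tangent 𝓘(ℝ, ℝ).tangent ∞ (tangentMap (𝓡 d) 𝓘(ℝ, ℝ) F) :=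
    hF.contMDiff_tangentMap (by simp)
  have h3 := contMDiff_snd_tangentBundle_modelSpace ℝ 𝓘(ℝ, ℝ) (n := ∞)
  exact h3.comp (h1.comp hY)

/-- integral curves through points of discs -/
theorem local_inv (hd : d = 2 * (m + 1)) {vol : Top d m X} (hvol : IsVol vol) {σ : Form d X 2}
    {C : Set X} {Y : (x : X) → TangentSpace (𝓡 d) x}
    (hY : ContMDiff (𝓡 d) (𝓡 d).tangent ∞ (fun x => (⟨x, Y x⟩ : TangentBundle (𝓡 d) X)))
    (hYC : ∀ x ∈ C, ∀ w, σ x ![Y x, w] = 0) {γ : ℝ → X}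
    (hγ : IsMIntegralCurve (I := 𝓡 d) γ Y) {t₀ : ℝ} (hz : LeafC vol σ C (γ t₀)) :
    ∀ᶠ t in 𝓝 t₀, γ t ∈ C := by
  obtain ⟨g, ε, a, b, hε, hg, hg0, ha, hb, hp⟩ := hz
  let P : ℝ × ℝ → ℝ × ℝ := fun p => (dd (d := d) a (g p) (Y (g p)), dd (d := d) b (g p) (Y (g p)))
  have hP : ContDiff ℝ ∞ P := by
    have h1 : ContDiff ℝ ∞ (fun p => dd (d := d) a (g p) (Y (g p))) :=
      contMDiff_iff_contDiff.1 ((dd_smooth hY ha).comp hg)
    have h2 : ContDiff ℝ ∞ (fun p => dd (d := d) b (g p) (Y (g p))) :=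
      contMDiff_iff_contDiff.1 ((dd_smooth hY hb).comp hg)
    exact h1.prodMk h2
  have hP1 : ContDiffAt ℝ 1 P (0, 0) := hP.contDiffAt.of_le (by simp)
  obtain ⟨q, hq0, δ, hδ, hq⟩ :=
    hP1.exists_forall_mem_closedBall_exists_eq_forall_mem_Ioo_hasDerivAt₀ t₀
  have ht₀ : t₀ ∈ Ioo (t₀ - δ) (t₀ + δ) := ⟨by linarith, by linarith⟩
  have hqc : ContinuousAt q t₀ := (hq t₀ ht₀).continuousAt
  have hsq : ∀ᶠ t in 𝓝 t₀, |(q t).1| < ε ∧ |(q t).2| < ε := by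
    have h1 : ∀ᶠ p in 𝓝 ((0, 0) : ℝ × ℝ), |p.1| < ε ∧ |p.2| < ε := by
      have h2 := Metric.ball_mem_nhds ((0, 0) : ℝ × ℝ) hε
      filter_upwards [h2] with p hp
      rw [Metric.mem_ball, Prod.dist_eq] at hp
      exact ⟨by simpa using lt_of_le_of_lt (le_max_left _ _) hp,
        by simpa using lt_of_le_of_lt (le_max_right _ _) hp⟩
    rw [← hq0] at h1
    exact hqc.eventually h1
  obtain ⟨η, hη, hηs⟩ := Metric.eventually_nhds_iff.1 hsq
  obtain ⟨κ, hκ, hκδ, hκη⟩ : ∃ κ : ℝ, 0 < κ ∧ κ ≤ δ ∧ κ ≤ η :=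
    ⟨min δ η, lt_min hδ hη, min_le_left _ _, min_le_right _ _⟩
  have hint : IsMIntegralCurveOn (I := 𝓡 d) (fun t => g (q t)) Y (Ioo (t₀ - κ) (t₀ + κ)) := by
    intro t ht
    have htδ : t ∈ Ioo (t₀ - δ) (t₀ + δ) := ⟨by linarith [ht.1], by linarith [ht.2]⟩
    obtain ⟨h1, h2⟩ := hηs (y := t) (by
      rw [Real.dist_eq, abs_lt]
      exact ⟨by linarith [ht.1], by linarith [ht.2]⟩)
    obtain ⟨g1, g2, g3, g4⟩ := hp (q t) h1 h2
    have h3 : HasMFDerivAt 𝓘(ℝ, ℝ) 𝓘(ℝ, ℝ × ℝ) q t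
        ((1 : ℝ →L[ℝ] ℝ).smulRight (P (q t))) :=
      (hq t htδ).hasFDerivAt.hasMFDerivAt
    have h4 := HasMFDerivAt.comp t ((hg.mdifferentiable (by simp) (q t)).hasMFDerivAt) h3
    refine HasMFDerivAt.hasMFDerivWithinAt ?_
    have h5 : mfderiv 𝓘(ℝ, ℝ × ℝ) (𝓡 d) g (q t) (P (q t)) = Y (g (q t)) := by
      obtain ⟨e1, e2⟩ := g3 (P (q t))
      exact vec_eq hd hvol g2 (g4 _) (hYC _ g1) e1 e2
    have h6 : (mfderiv 𝓘(ℝ, ℝ × ℝ) (𝓡 d) g (q t)).comp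
        ((1 : ℝ →L[ℝ] ℝ).smulRight (P (q t))) = (1 : ℝ →L[ℝ] ℝ).smulRight (Y (g (q t))) := by
      refine ContinuousLinearMap.ext fun (r : ℝ) => ?_
      change mfderiv 𝓘(ℝ, ℝ × ℝ) (𝓡 d) g (q t) (r • P (q t)) = r • Y (g (q t))
      rw [← h5]
      exact (mfderiv 𝓘(ℝ, ℝ × ℝ) (𝓡 d) g (q t)).map_smul r (P (q t))
    rw [← h6]
    exact h4
  have hman : IsManifold (𝓡 d) 1 X := IsManifold.of_le (n := ∞) (by simp)
  have heq := isMIntegralCurveOn_Ioo_eqOn_of_contMDiff_boundaryless (I := 𝓡 d)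
    (show t₀ ∈ Ioo (t₀ - κ) (t₀ + κ) from ⟨by linarith, by linarith⟩) (hY.of_le (by simp))
    (hγ.isMIntegralCurveOn _) hint (by rw [hq0, hg0])
  filter_upwards [Ioo_mem_nhds (show t₀ - κ < t₀ by linarith) (show t₀ < t₀ + κ by linarith)]
    with t ht
  obtain ⟨h1, h2⟩ := hηs (y := t) (by
      rw [Real.dist_eq, abs_lt]
      exact ⟨by linarith [ht.1], by linarith [ht.2]⟩)
  rw [heq ht]
  exact (hp (q t) h1 h2).1

/-- **invariance** -/
theorem lam_inv (hd : d = 2 * (m + 1)) {vol : Top d m X} (hvol : IsVol vol) {σ : Form d X 2}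
    {C : Set X} (hC : IsClosed C) {Y : (x : X) → TangentSpace (𝓡 d) x}
    (hY : ContMDiff (𝓡 d) (𝓡 d).tangent ∞ (fun x => (⟨x, Y x⟩ : TangentBundle (𝓡 d) X)))
    (hYC : ∀ x ∈ C, ∀ w, σ x ![Y x, w] = 0)
    (hdisc : ∀ x ∈ C, Y x ≠ 0 → LeafC vol σ C x) {γ : ℝ → X}
    (hγ : IsMIntegralCurve (I := 𝓡 d) γ Y) (h0 : γ 0 ∈ C) (t : ℝ) : γ t ∈ C := by
  have hclopen : IsClopen {t | γ t ∈ C} := by
    refine ⟨hC.preimage hγ.continuous, isOpen_iff_mem_nhds.2 fun t₀ ht₀ => ?_⟩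
    by_cases hz : Y (γ t₀) = 0
    · have hman : IsManifold (𝓡 d) 1 X := IsManifold.of_le (n := ∞) (by simp)
      have hconst : IsMIntegralCurve (I := 𝓡 d) (fun _ : ℝ => γ t₀) Y := by
        intro t
        have h1 : HasMFDerivAt 𝓘(ℝ, ℝ) (𝓡 d) (fun _ : ℝ => γ t₀) t (0 : ℝ →L[ℝ] E d) :=
          hasMFDerivAt_const (γ t₀) t
        refine h1.congr_mfderiv ?_
        rw [hz]
        refine ContinuousLinearMap.ext fun (r : ℝ) => ?_
        change (0 : E d) = r • (0 : E d)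
        rw [smul_zero]
      have h2 := isMIntegralCurve_Ioo_eq_of_contMDiff_boundaryless (I := 𝓡 d) (t₀ := t₀)
        (hY.of_le (by simp)) hγ hconst rfl
      refine Filter.univ_mem' fun t => ?_
      change γ t ∈ C
      rw [h2]
      exact ht₀
    · exact local_inv hd hvol hY hYC hγ (hdisc _ ht₀ hz)
  have huniv := hclopen.eq_univ ⟨0, h0⟩
  have : t ∈ {t | γ t ∈ C} := by rw [huniv]; exact mem_univ t
  exact this

end

end Run7.h752.LF
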