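import Pool.Agent.Run7.h752.LF.Lam4

/-!
The current of a closed current is locally the integral of the currents of integration over discs
tangent to the kernel: the statement.
-/

set_option autoImplicit false

open Set Filter Topology MeasureTheory
open scoped Manifold ContDiff NNReal ENNReal

noncomputable section

namespace Run7.h752.LF

open Pool.Agent.Y501.SY Pool.Agent.R772 Run7.h752.SC

section

variable {d m : ℕ} {X : Type} [TopologicalSpace X] [ChartedSpace (E d) X]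

/-- near `z` the current of `μ` is an integral of discs tangent to the kernel of `σ` -/
def Lam (vol : Top d m X) (σ : Form d X 2) [MeasurableSpace X] (μ : Measure X) (z : X) : Prop :=
  ∃ (g : X → ℝ × ℝ → X) (ε : ℝ) (T : Set X) (κ : Measure X), 0 < ε ∧ IsCompact T ∧ z ∈ T ∧
    IsFiniteMeasure κ ∧ κ Tᶜ = 0 ∧ Continuous (fun q : X × (ℝ × ℝ) => g q.1 q.2) ∧
    (∀ y, ContMDiff 𝓘(ℝ, ℝ × ℝ) (𝓡 d) ∞ (g y)) ∧ (∀ y, g y (0, 0) = y) ∧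
    (∀ y ∈ T, ∀ p ∈ sq ε, g y p ∈ supp μ ∧
      (∀ v : TangentSpace 𝓘(ℝ, ℝ × ℝ) p, mfderiv 𝓘(ℝ, ℝ × ℝ) (𝓡 d) (g y) p v = 0 → v = 0) ∧
      ∀ (v : TangentSpace 𝓘(ℝ, ℝ × ℝ) p) (w : TangentSpace (𝓡 d) (g y p)),
        σ (g y p) ![mfderiv 𝓘(ℝ, ℝ × ℝ) (𝓡 d) (g y) p v, w] = 0) ∧
    (∀ y ∈ T, ∀ y' ∈ T, ∀ p ∈ sq ε, ∀ p' ∈ sq ε, g y p = g y' p' → y = y' ∧ p = p') ∧
    (∀ᶠ x in 𝓝 z, x ∈ supp μ → ∃ y ∈ T, ∃ p ∈ sq ε, g y p = x) ∧
    ∃ N ∈ 𝓝 z, ∀ η : Form d X 2, IsSmooth η → (∀ x, x ∉ N → η x = 0) →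
      ∫ x, md vol σ η x ∂μ = ∫ y, (∫ p in sq ε, η (g y p)
        ![mfderiv 𝓘(ℝ, ℝ × ℝ) (𝓡 d) (g y) p ((1, 0) : ℝ × ℝ),
          mfderiv 𝓘(ℝ, ℝ × ℝ) (𝓡 d) (g y) p ((0, 1) : ℝ × ℝ)]) ∂κ

variable [IsManifold (𝓡 d) ∞ X] [CompactSpace X] [T2Space X] [MeasurableSpace X] [BorelSpace X]

/-- **closed currents are laminated** -/
theorem lam_forms (hd : d = 2 * (m + 1)) {vol : Top d m X} (hvol : IsVol vol)
    {σ : Form d X 2} (hσ : IsSmooth σ) (hnn : ∀ x, NonnegTop vol σ x)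
    {μ : Measure X} (hμ : IsCurr vol σ μ) {z : X} (hz : z ∈ supp μ)
    (hr : ∃ (τ : (TangentSpace (𝓡 d) z) [⋀^Fin 2]→L[ℝ] ℝ)
      (e : Fin (m + 1) × Fin 2 → TangentSpace (𝓡 d) z),
      Pool.Agent.R772.wedge (Fin.cons τ (fun _ : Fin m => σ z)) e ≠ 0) :
    Lam vol σ μ z := by
  have hsub : supp μ ⊆ {x | ¬ PosTop vol σ x} := by
    intro x hx hcon
    exact hx _ (isOpen_posTop hd hvol hσ) hcon hμ.car
  obtain ⟨a, b, N, W₁, W₂, φ₁, φ₂, P, D⟩ := exists_packD hd hvol hσ hnn hr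
  obtain ⟨ε, T, κ, U, hε, hT, hκ, hκT, hU, hUN, hy, hx, hint⟩ := P.lam D hμ
  have c₁ : Continuous (fun p : ℝ × X => φ₁ p.1 p.2) := P.f₁.smooth.continuous
  have c₂ : Continuous (fun p : ℝ × X => φ₂ p.1 p.2) := P.f₂.smooth.continuous
  have hgc : Continuous (fun q : X × (ℝ × ℝ) => φ₂ q.2.2 (φ₁ q.2.1 q.1)) :=
    c₂.comp ((continuous_snd.comp continuous_snd).prodMk
      (c₁.comp ((continuous_fst.comp continuous_snd).prodMk continuous_fst)))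
  have hgs : ∀ y, ContMDiff 𝓘(ℝ, ℝ × ℝ) (𝓡 d) ∞ (fun p : ℝ × ℝ => φ₂ p.2 (φ₁ p.1 y)) := by
    intro y
    have hg1 : ContMDiff 𝓘(ℝ, ℝ × ℝ) (𝓡 d) ∞ (fun p : ℝ × ℝ => φ₁ p.1 y) :=
      P.f₁.cmp (contDiff_fst : ContDiff ℝ ∞ (fun p : ℝ × ℝ => p.1)) contMDiff_const
    exact P.f₂.cmp (contDiff_snd : ContDiff ℝ ∞ (fun p : ℝ × ℝ => p.2)) hg1
  have hmem : ∀ y ∈ T, ∀ p ∈ sq ε, φ₂ p.2 (φ₁ p.1 y) ∈ supp μ := by
    intro y hyT p hp
    obtain ⟨h1, h2, h3⟩ := hy y hyT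
    exact P.inv₂ μ hμ _ (h3 p hp).1 (P.inv₁ μ hμ y h1 h2 _) _
  have hzT : z ∈ T := by
    have h1 := (hx z (mem_of_mem_nhds hU) hz).1
    have h2 : rr a b φ₁ φ₂ z z = z := by
      show φ₁ (a z - a z) (φ₂ (b z - b z) z) = z
      rw [sub_self, sub_self, P.f₂.zero, P.f₁.zero]
    rwa [h2] at h1
  refine ⟨fun y p => φ₂ p.2 (φ₁ p.1 y), ε, T, κ, hε, hT, hzT, hκ, hκT, hgc, hgs, fun y => by
    show φ₂ 0 (φ₁ 0 y) = y
    rw [P.f₁.zero, P.f₂.zero], ?_, ?_, ?_, ?_⟩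
  · intro y hyT p hp
    obtain ⟨h1, h2, h3⟩ := hy y hyT
    exact ⟨hmem y hyT p hp, P.disc μ hμ y h1 h2 p (h3 p hp).1 (h3 p hp).2.1⟩
  · intro y hyT y' hyT' p hp p' hp' he
    obtain ⟨-, -, h3⟩ := hy y hyT
    obtain ⟨-, -, h3'⟩ := hy y' hyT'
    have ha := (h3 p hp).2.2.1
    have hb := (h3 p hp).2.2.2
    have ha' := (h3' p' hp').2.2.1
    have hb' := (h3' p' hp').2.2.2
    have he' : φ₂ p.2 (φ₁ p.1 y) = φ₂ p'.2 (φ₁ p'.1 y') := he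
    rw [he', ha'] at ha
    rw [he', hb'] at hb
    have e1 : p = p' := Prod.ext (by linarith) (by linarith)
    refine ⟨?_, e1⟩
    subst e1
    have e2 : φ₂ (-p.2) (φ₂ p.2 (φ₁ p.1 y)) = φ₂ (-p.2) (φ₂ p.2 (φ₁ p.1 y')) := by rw [he']
    rw [P.f₂.back, P.f₂.back] at e2
    have e3 : φ₁ (-p.1) (φ₁ p.1 y) = φ₁ (-p.1) (φ₁ p.1 y') := by rw [e2]
    rwa [P.f₁.back, P.f₁.back] at e3
  · filter_upwards [hU] with x hxU hxs
    obtain ⟨h1, h2⟩ := hx x hxU hxs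
    refine ⟨_, h1, _, h2, ?_⟩
    show φ₂ (b x - b z) (φ₁ (a x - a z) (φ₁ (a z - a x) (φ₂ (b z - b x) x))) = x
    rw [← P.f₁.add, show a x - a z + (a z - a x) = 0 by ring, P.f₁.zero, ← P.f₂.add,
      show b x - b z + (b z - b x) = 0 by ring, P.f₂.zero]
  · obtain ⟨χ, -, hχt⟩ := (SmoothBumpFunction.nhds_basis_tsupport (I := 𝓡 d) z).mem_iff.1 hU
    have hχ : SmoothFun (d := d) (fun x => χ x) := χ.contMDiff
    refine ⟨{x | χ x = 1}, χ.eventuallyEq_one, fun η hη h0 => ?_⟩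
    let F : X → ℝ := fun x => χ x * (md vol σ η x / bf vol σ a b x)
    have hF : SmoothFun (d := d) F := by
      intro x₀
      by_cases hx₀ : x₀ ∈ tsupport (fun x => χ x)
      · exact (hχ x₀).mul (ratio_smooth_form hd hvol hσ hη (dfdg_smooth P.sa P.sb)
          (P.wpos _ (hUN (hχt hx₀))).ne')
      · have h1 : F =ᶠ[𝓝 x₀] fun _ => 0 := by
          filter_upwards [(isClosed_tsupport (fun x => χ x)).isOpen_compl.mem_nhds hx₀] with y hy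
          show χ y * _ = 0
          rw [image_eq_zero_of_notMem_tsupport (f := fun x => χ x) hy, zero_mul]
        exact contMDiffAt_const.congr_of_eventuallyEq h1
    have hFt : tsupport F ⊆ U := (tsupport_mul_subset_left).trans hχt
    have hmd0 : ∀ x, χ x ≠ 1 → md vol σ η x = 0 := by
      intro x hx1
      rw [md_congr (θ := (0 : Form d X 2)) (h0 x hx1), md_zero hd hvol]
    have hwx : ∀ x, χ x = 1 → 0 < bf vol σ a b x := by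
      intro x hx1
      exact P.wpos x (hUN (hχt (subset_tsupport _ (by
        rw [Function.mem_support, hx1]; exact one_ne_zero))))
    have e1 : ∫ x, md vol σ η x ∂μ = ∫ x, F x * bf vol σ a b x ∂μ := by
      refine integral_congr_ae (Eventually.of_forall fun x => ?_)
      show md vol σ η x = χ x * (md vol σ η x / bf vol σ a b x) * bf vol σ a b x
      by_cases hx1 : χ x = 1
      · have := (hwx x hx1).ne'
        rw [hx1]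
        field_simp
      · rw [hmd0 x hx1]
        ring
    rw [e1, hint F hF hFt]
    have hκae : ∀ᵐ y ∂κ, y ∈ T := by
      rw [ae_iff]
      exact hκT
    refine integral_congr_ae ?_
    filter_upwards [hκae] with y hyT
    refine setIntegral_congr_fun (measurable_sq ε) fun p hp => ?_
    obtain ⟨h1, h2, h3⟩ := hy y hyT
    obtain ⟨h4, h5, -, -⟩ := h3 p hp
    have hgN : φ₂ p.2 (φ₁ p.1 y) ∈ N := h5 _ right_mem_uIcc
    have hgD := hsub (hmem y hyT p hp)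
    show χ (φ₂ p.2 (φ₁ p.1 y)) * (md vol σ η (φ₂ p.2 (φ₁ p.1 y)) /
      bf vol σ a b (φ₂ p.2 (φ₁ p.1 y))) = η (φ₂ p.2 (φ₁ p.1 y))
        ![mfderiv 𝓘(ℝ, ℝ × ℝ) (𝓡 d) (fun p : ℝ × ℝ => φ₂ p.2 (φ₁ p.1 y)) p ((1, 0) : ℝ × ℝ),
          mfderiv 𝓘(ℝ, ℝ × ℝ) (𝓡 d) (fun p : ℝ × ℝ => φ₂ p.2 (φ₁ p.1 y)) p ((0, 1) : ℝ × ℝ)]
    by_cases hx1 : χ (φ₂ p.2 (φ₁ p.1 y)) = 1
    · have hw := (hwx _ hx1).ne'
      rw [md_tan hd hvol (hnn _) hgD hw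
        (u₁ := mfderiv 𝓘(ℝ, ℝ × ℝ) (𝓡 d) (fun p : ℝ × ℝ => φ₂ p.2 (φ₁ p.1 y)) p
          ((1, 0) : ℝ × ℝ))
        (u₂ := mfderiv 𝓘(ℝ, ℝ × ℝ) (𝓡 d) (fun p : ℝ × ℝ => φ₂ p.2 (φ₁ p.1 y)) p
          ((0, 1) : ℝ × ℝ)) (fun G hG => by
            have h6 := D.tan μ hμ y h1 h2 p h4 h5 G hG ((1, 0) : ℝ × ℝ)
            rw [h6]
            show ((1 : ℝ) * W₁ G (φ₂ p.2 (φ₁ p.1 y)) + 0 * W₂ G (φ₂ p.2 (φ₁ p.1 y))) *
              bf vol σ a b (φ₂ p.2 (φ₁ p.1 y)) = _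
            rw [← D.spec₁ _ hgN G]
            ring) (fun G hG => by
            have h6 := D.tan μ hμ y h1 h2 p h4 h5 G hG ((0, 1) : ℝ × ℝ)
            rw [h6]
            show ((0 : ℝ) * W₁ G (φ₂ p.2 (φ₁ p.1 y)) + 1 * W₂ G (φ₂ p.2 (φ₁ p.1 y))) *
              bf vol σ a b (φ₂ p.2 (φ₁ p.1 y)) = _
            rw [← D.spec₂ _ hgN G]
            ring) η, hx1, one_mul, mul_div_cancel_right₀ _ hw]
    · rw [hmd0 _ hx1, zero_div, mul_zero, h0 _ hx1]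
      rfl

end

end Run7.h752.LF
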