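import Pool.Agent.Run7.h752.LF.Surf

/-!
Closed currents whose support has locally finite area: the support is a surface.
-/

set_option autoImplicit false

open Set Filter Topology MeasureTheory
open scoped Manifold ContDiff NNReal ENNReal

noncomputable section

namespace Run7.h752.LF

open Pool.Agent.Y501.SY Pool.Agent.R772 Run7.h752.SC

section

variable {d m : ℕ} {X : Type} [TopologicalSpace X] [ChartedSpace (E d) X]

theorem abs_le_of_uIcc {r t : ℝ} (hr : r ∈ uIcc 0 t) : |r| ≤ |t| := by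
  rcases le_total 0 t with h0 | h0
  · rw [uIcc_of_le h0] at hr
    rw [abs_of_nonneg hr.1, abs_of_nonneg h0]
    exact hr.2
  · rw [uIcc_of_ge h0] at hr
    rw [abs_of_nonpos hr.2, abs_of_nonpos h0]
    exact neg_le_neg hr.1

/-- flow boxes: for small times the flows stay in a neighbourhood -/
theorem exists_box {W₁ W₂ : (X → ℝ) → X → ℝ} {φ₁ φ₂ : ℝ → X → X}
    (h₁ : FlowOp (d := d) W₁ φ₁) (h₂ : FlowOp (d := d) W₂ φ₂) {z : X} {N : Set X}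
    (hN : N ∈ 𝓝 z) : ∃ (ε : ℝ) (U : Set X), 0 < ε ∧ U ∈ 𝓝 z ∧ ∀ x ∈ U, ∀ s t : ℝ, |s| < ε →
      |t| < ε → φ₁ s x ∈ N ∧ φ₂ t x ∈ N ∧ φ₂ t (φ₁ s x) ∈ N ∧ φ₁ s (φ₂ t x) ∈ N := by
  have c₁ : Continuous (fun p : ℝ × X => φ₁ p.1 p.2) := h₁.smooth.continuous
  have c₂ : Continuous (fun p : ℝ × X => φ₂ p.1 p.2) := h₂.smooth.continuous
  have e1 : Continuous (fun q : (ℝ × ℝ) × X => φ₁ q.1.1 q.2) :=
    c₁.comp ((continuous_fst.comp continuous_fst).prodMk continuous_snd)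
  have e2 : Continuous (fun q : (ℝ × ℝ) × X => φ₂ q.1.2 q.2) :=
    c₂.comp ((continuous_snd.comp continuous_fst).prodMk continuous_snd)
  have e3 : Continuous (fun q : (ℝ × ℝ) × X => φ₂ q.1.2 (φ₁ q.1.1 q.2)) :=
    c₂.comp ((continuous_snd.comp continuous_fst).prodMk e1)
  have e4 : Continuous (fun q : (ℝ × ℝ) × X => φ₁ q.1.1 (φ₂ q.1.2 q.2)) :=
    c₁.comp ((continuous_fst.comp continuous_fst).prodMk e2)
  have hz : ∀ f : (ℝ × ℝ) × X → X, Continuous f → f ((0, 0), z) = z →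
      ∀ᶠ q in 𝓝 (((0, 0), z) : (ℝ × ℝ) × X), f q ∈ N := fun f hf hfz =>
    hf.continuousAt.eventually (by rw [hfz]; exact hN)
  have h := (hz _ e1 (h₁.zero z)).and ((hz _ e2 (h₂.zero z)).and ((hz _ e3 (by
    show φ₂ 0 (φ₁ 0 z) = z
    rw [h₁.zero, h₂.zero])).and (hz _ e4 (by
    show φ₁ 0 (φ₂ 0 z) = z
    rw [h₂.zero, h₁.zero]))))
  rw [nhds_prod_eq, eventually_prod_iff] at h
  obtain ⟨pa, hpa, pb, hpb, h⟩ := h
  obtain ⟨ε, hε, hball⟩ := Metric.eventually_nhds_iff.1 hpa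
  refine ⟨ε, {x | pb x}, hε, hpb, fun x hx s t hs ht => ?_⟩
  exact h (hball (y := (s, t)) (by
    rw [Prod.dist_eq]
    exact max_lt (by simpa using hs) (by simpa using ht))) hx

/-- coordinates along the flows, for small times, starting in `U` -/
structure Box (a b : X → ℝ) (φ₁ φ₂ : ℝ → X → X) (N : Set X) (ε : ℝ) (U : Set X) : Prop where
  sub : U ⊆ N
  in₁ : ∀ x ∈ U, ∀ s : ℝ, |s| < ε → φ₁ s x ∈ N
  in₂ : ∀ x ∈ U, ∀ t : ℝ, |t| < ε → φ₂ t x ∈ N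
  in₂₁ : ∀ x ∈ U, ∀ s t : ℝ, |s| < ε → |t| < ε → φ₂ t (φ₁ s x) ∈ N
  in₁₂ : ∀ x ∈ U, ∀ s t : ℝ, |s| < ε → |t| < ε → φ₁ s (φ₂ t x) ∈ N
  a₂₁ : ∀ x ∈ U, ∀ s t : ℝ, |s| < ε → |t| < ε → a (φ₂ t (φ₁ s x)) = a x + s
  b₂₁ : ∀ x ∈ U, ∀ s t : ℝ, |s| < ε → |t| < ε → b (φ₂ t (φ₁ s x)) = b x + t
  a₁₂ : ∀ x ∈ U, ∀ s t : ℝ, |s| < ε → |t| < ε → a (φ₁ s (φ₂ t x)) = a x + s
  b₁₂ : ∀ x ∈ U, ∀ s t : ℝ, |s| < ε → |t| < ε → b (φ₁ s (φ₂ t x)) = b x + t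

/-- `C` has locally finite area near `z` -/
def FinAt (d : ℕ) {X : Type} [TopologicalSpace X] [ChartedSpace (E d) X] (C : Set X) (z : X) :
    Prop :=
  ∃ N ∈ 𝓝 z, μH[2] (chartAt (E d) z '' (C ∩ N ∩ (chartAt (E d) z).source)) ≠ ⊤

variable [MeasurableSpace X]

theorem Pack.box {vol : Top d m X} {σ : Form d X 2} {z : X} {a b : X → ℝ}
    {N : Set X} {W₁ W₂ : (X → ℝ) → X → ℝ} {φ₁ φ₂ : ℝ → X → X}
    (P : Pack vol σ z a b N W₁ W₂ φ₁ φ₂) {N' : Set X} (hN' : N' ∈ 𝓝 z) (hsub : N' ⊆ N) :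
    ∃ (ε : ℝ) (U : Set X), 0 < ε ∧ U ∈ 𝓝 z ∧ Box a b φ₁ φ₂ N' ε U := by
  obtain ⟨ε, U, hε, hU, hbox⟩ := exists_box P.f₁ P.f₂ hN'
  refine ⟨ε, U, hε, hU, fun x hx => ?_, fun x hx s hs => (hbox x hx s 0 hs (by simpa using hε)).1,
    fun x hx t ht => (hbox x hx 0 t (by simpa using hε) ht).2.1,
    fun x hx s t hs ht => (hbox x hx s t hs ht).2.2.1,
    fun x hx s t hs ht => (hbox x hx s t hs ht).2.2.2, ?_, ?_, ?_, ?_⟩
  · have := (hbox x hx 0 0 (by simpa using hε) (by simpa using hε)).1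
    rwa [P.f₁.zero] at this
  · intro x hx s t hs ht
    rw [flow_affine P.f₂ P.sa (c := 0) (fun r hr => P.w₂a _
        (hsub (hbox x hx s r hs ((abs_le_of_uIcc hr).trans_lt ht)).2.2.1)),
      flow_affine P.f₁ P.sa (c := 1) (fun r hr => P.w₁a _
        (hsub (hbox x hx r 0 ((abs_le_of_uIcc hr).trans_lt hs) (by simpa using hε)).1))]
    ring
  · intro x hx s t hs ht
    rw [flow_affine P.f₂ P.sb (c := 1) (fun r hr => P.w₂b _
        (hsub (hbox x hx s r hs ((abs_le_of_uIcc hr).trans_lt ht)).2.2.1)),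
      flow_affine P.f₁ P.sb (c := 0) (fun r hr => P.w₁b _
        (hsub (hbox x hx r 0 ((abs_le_of_uIcc hr).trans_lt hs) (by simpa using hε)).1))]
    ring
  · intro x hx s t hs ht
    rw [flow_affine P.f₁ P.sa (c := 1) (fun r hr => P.w₁a _
        (hsub (hbox x hx r t ((abs_le_of_uIcc hr).trans_lt hs) ht).2.2.2)),
      flow_affine P.f₂ P.sa (c := 0) (fun r hr => P.w₂a _
        (hsub (hbox x hx 0 r (by simpa using hε) ((abs_le_of_uIcc hr).trans_lt ht)).2.1))]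
    ring
  · intro x hx s t hs ht
    rw [flow_affine P.f₁ P.sb (c := 0) (fun r hr => P.w₁b _
        (hsub (hbox x hx r t ((abs_le_of_uIcc hr).trans_lt hs) ht).2.2.2)),
      flow_affine P.f₂ P.sb (c := 1) (fun r hr => P.w₂b _
        (hsub (hbox x hx 0 r (by simpa using hε) ((abs_le_of_uIcc hr).trans_lt ht)).2.1))]
    ring

/-- sets which are invariant under the flows, inside the flow box -/
structure Sat (φ₁ φ₂ : ℝ → X → X) (N : Set X) (C : Set X) : Prop where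
  inv₁ : ∀ x ∈ N, x ∈ C → ∀ t, φ₁ t x ∈ C
  inv₂ : ∀ x ∈ N, x ∈ C → ∀ t, φ₂ t x ∈ C

variable [IsManifold (𝓡 d) ∞ X] [T2Space X]

/-- **the fibres are finite where the set has finite area** -/
theorem Pack.fib {vol : Top d m X} {σ : Form d X 2} {z : X} {a b : X → ℝ}
    {N : Set X} {W₁ W₂ : (X → ℝ) → X → ℝ} {φ₁ φ₂ : ℝ → X → X}
    (P : Pack vol σ z a b N W₁ W₂ φ₁ φ₂) {C : Set X} (hC : Sat φ₁ φ₂ N C)
    (hfin : FinAt d C z) : ∃ (ε : ℝ) (U : Set X), 0 < ε ∧ U ∈ 𝓝 z ∧ Box a b φ₁ φ₂ N ε U ∧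
      {y | y ∈ U ∧ y ∈ C ∧ a y = a z ∧ b y = b z}.Finite := by
  classical
  obtain ⟨N₀, hN₀, hfin⟩ := hfin
  set c := chartAt (E d) z with hc
  -- the Lipschitz map
  have hsrc : c.source ∈ 𝓝 z := c.open_source.mem_nhds (mem_chart_source (E d) z)
  let f : E d → ℝ × ℝ := fun y => (a (c.symm y), b (c.symm y))
  have hfs : ContMDiffOn 𝓘(ℝ, E d) 𝓘(ℝ, ℝ × ℝ) ∞ f c.target := by
    have h1 : ContMDiffOn 𝓘(ℝ, E d) (𝓡 d) ∞ c.symm c.target := contMDiffOn_chart_symm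
    have h2 : ContMDiffOn 𝓘(ℝ, E d) 𝓘(ℝ, ℝ) ∞ (fun y => a (c.symm y)) c.target :=
      P.sa.comp_contMDiffOn h1
    have h3 : ContMDiffOn 𝓘(ℝ, E d) 𝓘(ℝ, ℝ) ∞ (fun y => b (c.symm y)) c.target :=
      P.sb.comp_contMDiffOn h1
    exact h2.prodMk_space h3
  have hf1 : ContDiffAt ℝ 1 f (c z) :=
    ((contMDiffOn_iff_contDiffOn.1 hfs).contDiffAt (c.open_target.mem_nhds
      (c.map_source (mem_chart_source (E d) z)))).of_le (by simp)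
  obtain ⟨K, W, hW, hLip⟩ := hf1.exists_lipschitzOnWith
  -- the neighbourhood
  have hN' : N ∩ N₀ ∩ (c.source ∩ c ⁻¹' W) ∈ 𝓝 z := by
    refine inter_mem (inter_mem (P.isOpen.mem_nhds P.mem) hN₀) (inter_mem hsrc ?_)
    exact (c.continuousAt (mem_chart_source (E d) z)).preimage_mem_nhds hW
  obtain ⟨ε, U, hε, hU, B⟩ := P.box hN' (fun x hx => hx.1.1)
  refine ⟨ε, U, hε, hU, ⟨fun x hx => (B.sub hx).1.1, fun x hx s hs => (B.in₁ x hx s hs).1.1,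
    fun x hx t ht => (B.in₂ x hx t ht).1.1, fun x hx s t hs ht => (B.in₂₁ x hx s t hs ht).1.1,
    fun x hx s t hs ht => (B.in₁₂ x hx s t hs ht).1.1, B.a₂₁, B.b₂₁, B.a₁₂, B.b₁₂⟩, ?_⟩
  -- the fibre
  let R : Set X := {y | y ∈ U ∧ y ∈ C ∧ a y = a z ∧ b y = b z}
  have hδ : 0 < ε / 2 := by positivity
  let Q : Set (ℝ × ℝ) := Icc (-(ε / 2)) (ε / 2) ×ˢ Icc (-(ε / 2)) (ε / 2)
  have hQs : ∀ p ∈ Q, |p.1| < ε ∧ |p.2| < ε := fun p hp =>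
    ⟨abs_lt.2 ⟨by linarith [hp.1.1], by linarith [hp.1.2]⟩,
      abs_lt.2 ⟨by linarith [hp.2.1], by linarith [hp.2.2]⟩⟩
  have hQc : IsCompact Q := isCompact_Icc.prod isCompact_Icc
  let G : X → ℝ × ℝ → X := fun y p => φ₂ p.2 (φ₁ p.1 y)
  have hGc : ∀ y, Continuous (G y) := fun y => by
    have c₁ : Continuous (fun p : ℝ × X => φ₁ p.1 p.2) := P.f₁.smooth.continuous
    have c₂ : Continuous (fun p : ℝ × X => φ₂ p.1 p.2) := P.f₂.smooth.continuous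
    exact c₂.comp (continuous_snd.prodMk (c₁.comp (continuous_fst.prodMk continuous_const)))
  have hGN : ∀ y ∈ R, ∀ p ∈ Q, G y p ∈ N ∩ N₀ ∩ (c.source ∩ c ⁻¹' W) := fun y hy p hp =>
    B.in₂₁ y hy.1 p.1 p.2 (hQs p hp).1 (hQs p hp).2
  have hGs : ∀ y ∈ R, ∀ p ∈ Q, G y p ∈ C := fun y hy p hp =>
    hC.inv₂ _ (B.in₁ y hy.1 p.1 (hQs p hp).1).1.1
      (hC.inv₁ y (B.sub hy.1).1.1 hy.2.1 _) _
  let A : R → Set (E d) := fun y => c '' (G y.1 '' Q)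
  have hAc : ∀ y, IsCompact (A y) := fun y => by
    refine (hQc.image (hGc y.1)).image_of_continuousOn (c.continuousOn.mono ?_)
    rintro _ ⟨p, hp, rfl⟩
    exact (hGN y.1 y.2 p hp).2.1
  have hAW : ∀ y, A y ⊆ W := by
    rintro y _ ⟨_, ⟨p, hp, rfl⟩, rfl⟩
    exact (hGN y.1 y.2 p hp).2.2
  have hfA : ∀ y, (fun q : ℝ × ℝ => q - (a z, b z)) '' (f '' A y) = Q := by
    intro y
    have key : ∀ p ∈ Q, f (c (G y.1 p)) - (a z, b z) = p := by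
      intro p hp
      have h1 : c.symm (c (G y.1 p)) = G y.1 p := c.left_inv (hGN y.1 y.2 p hp).2.1
      show (a (c.symm (c (G y.1 p))), b (c.symm (c (G y.1 p)))) - (a z, b z) = p
      rw [h1]
      show (a (φ₂ p.2 (φ₁ p.1 y.1)), b (φ₂ p.2 (φ₁ p.1 y.1))) - (a z, b z) = p
      rw [B.a₂₁ _ y.2.1 _ _ (hQs p hp).1 (hQs p hp).2, B.b₂₁ _ y.2.1 _ _ (hQs p hp).1 (hQs p hp).2,
        y.2.2.2.1, y.2.2.2.2]
      ext <;> simp
    ext p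
    constructor
    · rintro ⟨_, ⟨_, ⟨_, ⟨p', hp', rfl⟩, rfl⟩, rfl⟩, rfl⟩
      show f (c (G y.1 p')) - (a z, b z) ∈ Q
      rw [key p' hp']
      exact hp'
    · intro hp
      exact ⟨_, ⟨_, ⟨_, ⟨p, hp, rfl⟩, rfl⟩, rfl⟩, key p hp⟩
  have hQpos : μH[2] Q ≠ 0 := by
    rw [hausdorffMeasure_prod_real, Measure.volume_eq_prod, Measure.prod_prod, Real.volume_Icc]
    refine mul_ne_zero ?_ ?_ <;> exact (ENNReal.ofReal_pos.2 (by linarith)).ne'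
  have hmeas : ∀ y, μH[2] Q / (K : ℝ≥0∞) ^ (2 : ℝ) ≤ μH[2] (A y) := by
    intro y
    refine ENNReal.div_le_of_le_mul' ?_
    have h1 := (hLip.mono (hAW y)).hausdorffMeasure_image_le (d := 2) (by norm_num)
    have h2 : μH[2] Q ≤ μH[2] (f '' A y) := by
      rw [← hfA y]
      have h3 : LipschitzWith 1 (fun q : ℝ × ℝ => q - (a z, b z)) :=
        LipschitzWith.of_dist_le_mul fun q q' => by
          rw [NNReal.coe_one, one_mul, dist_sub_right]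
      simpa using h3.hausdorffMeasure_image_le (d := 2) (by norm_num) (f '' A y)
    exact h2.trans h1
  have hpos : 0 < μH[2] Q / (K : ℝ≥0∞) ^ (2 : ℝ) :=
    ENNReal.div_pos hQpos (ENNReal.rpow_ne_top_of_nonneg (by norm_num) ENNReal.coe_ne_top)
  have hdisj : Pairwise (Function.onFun Disjoint A) := by
    intro y y' hne
    rw [Function.onFun, Set.disjoint_left]
    rintro _ ⟨_, ⟨p, hp, rfl⟩, rfl⟩ ⟨_, ⟨p', hp', rfl⟩, h1⟩
    have h2 : G y'.1 p' = G y.1 p := c.injOn (hGN y'.1 y'.2 p' hp').2.1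
      (hGN y.1 y.2 p hp).2.1 h1
    have h3 : p' = p := by
      have ha := congrArg a h2
      have hb := congrArg b h2
      have ha' : a y'.1 + p'.1 = a y.1 + p.1 := by
        rw [← B.a₂₁ _ y'.2.1 _ _ (hQs p' hp').1 (hQs p' hp').2,
          ← B.a₂₁ _ y.2.1 _ _ (hQs p hp).1 (hQs p hp).2]
        exact ha
      have hb' : b y'.1 + p'.2 = b y.1 + p.2 := by
        rw [← B.b₂₁ _ y'.2.1 _ _ (hQs p' hp').1 (hQs p' hp').2,
          ← B.b₂₁ _ y.2.1 _ _ (hQs p hp).1 (hQs p hp).2]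
        exact hb
      rw [y'.2.2.2.1, y.2.2.2.1] at ha'
      rw [y'.2.2.2.2, y.2.2.2.2] at hb'
      exact Prod.ext (by linarith) (by linarith)
    refine hne (Subtype.ext ?_)
    have h4 : φ₂ p.2 (φ₁ p.1 y'.1) = φ₂ p.2 (φ₁ p.1 y.1) := by
      rw [← h3]
      rw [← h3] at h2
      exact h2
    have h5 := congrArg (φ₂ (-p.2)) h4
    rw [P.f₂.back, P.f₂.back] at h5
    have h6 := congrArg (φ₁ (-p.1)) h5
    rw [P.f₁.back, P.f₁.back] at h6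
    exact h6.symm
  have hUn : μH[2] (⋃ y, A y) ≠ ⊤ := by
    refine ne_top_of_le_ne_top hfin (measure_mono ?_)
    refine iUnion_subset fun y => ?_
    rintro _ ⟨_, ⟨p, hp, rfl⟩, rfl⟩
    exact ⟨_, ⟨⟨hGs y.1 y.2 p hp, (hGN y.1 y.2 p hp).1.2⟩, (hGN y.1 y.2 p hp).2.1⟩, rfl⟩
  have h1 := Measure.finite_const_le_meas_of_disjoint_iUnion (μH[2] : Measure (E d)) hpos
    (fun y => (hAc y).measurableSet) hdisj hUn
  have h2 : {y : R | μH[2] Q / (K : ℝ≥0∞) ^ (2 : ℝ) ≤ μH[2] (A y)} = univ :=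
    eq_univ_of_forall hmeas
  rw [h2] at h1
  have h3 : Finite R := Set.finite_univ_iff.1 h1
  exact Set.toFinite R

omit [IsManifold (𝓡 d) ∞ X] [T2Space X] in
/-- the projection to the fibre -/
theorem Pack.proj {vol : Top d m X} {σ : Form d X 2} {z : X} {a b : X → ℝ}
    {N : Set X} {W₁ W₂ : (X → ℝ) → X → ℝ} {φ₁ φ₂ : ℝ → X → X}
    (P : Pack vol σ z a b N W₁ W₂ φ₁ φ₂) {ε : ℝ} {U : Set X} (hε : 0 < ε) (hU : U ∈ 𝓝 z)
    (B : Box a b φ₁ φ₂ N ε U) {V : Set X} (hV : V ∈ 𝓝 z) :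
    ∀ᶠ x in 𝓝 z, x ∈ U ∧ |a x - a z| < ε ∧ |b x - b z| < ε ∧
      φ₁ (a z - a x) (φ₂ (b z - b x) x) ∈ V ∧ φ₁ (a z - a x) (φ₂ (b z - b x) x) ∈ U ∧
      a (φ₁ (a z - a x) (φ₂ (b z - b x) x)) = a z ∧
      b (φ₁ (a z - a x) (φ₂ (b z - b x) x)) = b z ∧
      ∀ C : Set X, Sat φ₁ φ₂ N C → x ∈ C → φ₁ (a z - a x) (φ₂ (b z - b x) x) ∈ C := by
  have hrc : Continuous (fun x => φ₁ (a z - a x) (φ₂ (b z - b x) x)) := by
    have c₁ : Continuous (fun p : ℝ × X => φ₁ p.1 p.2) := P.f₁.smooth.continuous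
    have c₂ : Continuous (fun p : ℝ × X => φ₂ p.1 p.2) := P.f₂.smooth.continuous
    exact c₁.comp ((continuous_const.sub P.sa.continuous).prodMk
      (c₂.comp ((continuous_const.sub P.sb.continuous).prodMk continuous_id)))
  have hrz : φ₁ (a z - a z) (φ₂ (b z - b z) z) = z := by
    rw [sub_self, sub_self, P.f₂.zero, P.f₁.zero]
  have n2 : ∀ᶠ x in 𝓝 z, φ₁ (a z - a x) (φ₂ (b z - b x) x) ∈ V ∩ U :=
    hrc.continuousAt.eventually (by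
      show V ∩ U ∈ 𝓝 (φ₁ (a z - a z) (φ₂ (b z - b z) z))
      rw [hrz]
      exact inter_mem hV hU)
  have n3 : ∀ᶠ x in 𝓝 z, |a x - a z| < ε := by
    have h1 : Continuous (fun x => |a x - a z|) := (P.sa.continuous.sub continuous_const).abs
    exact h1.continuousAt.eventually (gt_mem_nhds (by simpa using hε))
  have n4 : ∀ᶠ x in 𝓝 z, |b x - b z| < ε := by
    have h1 : Continuous (fun x => |b x - b z|) := (P.sb.continuous.sub continuous_const).abs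
    exact h1.continuousAt.eventually (gt_mem_nhds (by simpa using hε))
  filter_upwards [hU, n2, n3, n4] with x hxU hx2 hx3 hx4
  have hx3' : |a z - a x| < ε := by rwa [abs_sub_comm]
  have hx4' : |b z - b x| < ε := by rwa [abs_sub_comm]
  refine ⟨hxU, hx3, hx4, hx2.1, hx2.2, ?_, ?_, fun C hC hx => ?_⟩
  · rw [B.a₁₂ x hxU _ _ hx3' hx4']
    ring
  · rw [B.b₁₂ x hxU _ _ hx3' hx4']
    ring
  · exact hC.inv₁ _ (B.in₂ x hxU _ hx4') (hC.inv₂ x (B.sub hxU) hx _) _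

/-- a set with finite area, invariant under the flows, is near `z` the orbit of `z` -/
theorem Pack.orbit {vol : Top d m X} {σ : Form d X 2} {z : X} {a b : X → ℝ}
    {N : Set X} {W₁ W₂ : (X → ℝ) → X → ℝ} {φ₁ φ₂ : ℝ → X → X}
    (P : Pack vol σ z a b N W₁ W₂ φ₁ φ₂) {C : Set X} (hC : Sat φ₁ φ₂ N C)
    (hfin : FinAt d C z) :
    ∀ᶠ x in 𝓝 z, x ∈ C → φ₂ (b x - b z) (φ₁ (a x - a z) z) = x := by
  obtain ⟨ε, U, hε, hU, B, hRfin⟩ := P.fib hC hfin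
  set R : Set X := {y | y ∈ U ∧ y ∈ C ∧ a y = a z ∧ b y = b z} with hR
  have n1 : (R \ {z})ᶜ ∈ 𝓝 z := (hRfin.subset sdiff_subset).isClosed.isOpen_compl.mem_nhds
    (by simp)
  filter_upwards [P.proj hε hU B n1] with x hx hxC
  obtain ⟨hxU, hx3, hx4, h5, h6, h7, h8, h9⟩ := hx
  have hrx : φ₁ (a z - a x) (φ₂ (b z - b x) x) = z := by
    by_contra hne
    exact h5 ⟨⟨h6, h9 C hC hxC, h7, h8⟩, hne⟩
  have h2 := congrArg (φ₁ (-(a z - a x))) hrx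
  rw [P.f₁.back, neg_sub] at h2
  rw [← h2]
  have h3 := P.f₂.back (b z - b x) x
  rwa [neg_sub] at h3

omit [IsManifold (𝓡 d) ∞ X] [T2Space X] in
theorem Pack.sat {vol : Top d m X} {σ : Form d X 2} {z : X} {a b : X → ℝ}
    {N : Set X} {W₁ W₂ : (X → ℝ) → X → ℝ} {φ₁ φ₂ : ℝ → X → X}
    (P : Pack vol σ z a b N W₁ W₂ φ₁ φ₂) {μ : Measure X} (hμ : IsCurr vol σ μ) :
    Sat φ₁ φ₂ N (supp μ) := ⟨P.inv₁ μ hμ, P.inv₂ μ hμ⟩

/-- **the support is a surface where it has locally finite area** -/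
theorem surf_of_pack {vol : Top d m X} {σ : Form d X 2} {z : X} {a b : X → ℝ}
    {N : Set X} {W₁ W₂ : (X → ℝ) → X → ℝ} {φ₁ φ₂ : ℝ → X → X}
    (P : Pack vol σ z a b N W₁ W₂ φ₁ φ₂) {μ : Measure X} (hμ : IsCurr vol σ μ)
    (hz : z ∈ supp μ) (hfin : FinAt d (supp μ) z) : ∃ ε : ℝ, 0 < ε ∧
      (∀ p : ℝ × ℝ, |p.1| < ε → |p.2| < ε → φ₂ p.2 (φ₁ p.1 z) ∈ supp μ ∧
        (∀ v : TangentSpace 𝓘(ℝ, ℝ × ℝ) p, mfderiv 𝓘(ℝ, ℝ × ℝ) (𝓡 d)
          (fun p : ℝ × ℝ => φ₂ p.2 (φ₁ p.1 z)) p v = 0 → v = 0) ∧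
        ∀ (v : TangentSpace 𝓘(ℝ, ℝ × ℝ) p) (w : TangentSpace (𝓡 d) (φ₂ p.2 (φ₁ p.1 z))),
          σ (φ₂ p.2 (φ₁ p.1 z)) ![mfderiv 𝓘(ℝ, ℝ × ℝ) (𝓡 d)
            (fun p : ℝ × ℝ => φ₂ p.2 (φ₁ p.1 z)) p v, w] = 0) ∧
      (∀ p q : ℝ × ℝ, |p.1| < ε → |p.2| < ε → |q.1| < ε → |q.2| < ε →
        φ₂ p.2 (φ₁ p.1 z) = φ₂ q.2 (φ₁ q.1 z) → p = q) ∧
      ∀ᶠ x in 𝓝 z, x ∈ supp μ → ∃ p : ℝ × ℝ, |p.1| < ε ∧ |p.2| < ε ∧
        φ₂ p.2 (φ₁ p.1 z) = x := by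
  obtain ⟨ε, U, hε, hU, B⟩ := P.box (P.isOpen.mem_nhds P.mem) subset_rfl
  have hzU := mem_of_mem_nhds hU
  refine ⟨ε, hε, fun p hp1 hp2 => ⟨?_, ?_⟩, fun p q hp1 hp2 hq1 hq2 hpq => ?_, ?_⟩
  · exact P.inv₂ μ hμ _ (B.in₁ z hzU p.1 hp1) (P.inv₁ μ hμ z P.mem hz _) _
  · exact P.disc μ hμ z P.mem hz p (B.in₁ z hzU p.1 hp1) fun r hr =>
      B.in₂₁ z hzU p.1 r hp1 ((abs_le_of_uIcc hr).trans_lt hp2)
  · have h1 := congrArg a hpq
    have h2 := congrArg b hpq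
    rw [B.a₂₁ z hzU _ _ hp1 hp2, B.a₂₁ z hzU _ _ hq1 hq2] at h1
    rw [B.b₂₁ z hzU _ _ hp1 hp2, B.b₂₁ z hzU _ _ hq1 hq2] at h2
    exact Prod.ext (by linarith) (by linarith)
  · filter_upwards [P.orbit (P.sat hμ) hfin, P.proj hε hU B univ_mem] with x hx hx' hxs
    exact ⟨(a x - a z, b x - b z), hx'.2.1, hx'.2.2.1, hx hxs⟩

end

end Run7.h752.LF
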