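import Pool.Agent.Run7.h752.LF.Fin

/-!
Closed currents with the same support, a surface tangent to the kernel, are locally proportional.
-/

set_option autoImplicit false

open Set Filter Topology MeasureTheory
open scoped Manifold ContDiff NNReal ENNReal

noncomputable section

namespace Run7.h752.LF

open Pool.Agent.Y501.SY Pool.Agent.R772 Run7.h752.SC

section plane

/-- closed squares -/
def sq (δ : ℝ) : Set (ℝ × ℝ) := Icc (-δ) δ ×ˢ Icc (-δ) δ

theorem mem_sq {δ : ℝ} {p : ℝ × ℝ} : p ∈ sq δ ↔ |p.1| ≤ δ ∧ |p.2| ≤ δ := by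
  unfold sq
  rw [mem_prod, mem_Icc, mem_Icc, abs_le, abs_le]

theorem isCompact_sq (δ : ℝ) : IsCompact (sq δ) := isCompact_Icc.prod isCompact_Icc

theorem measurable_sq (δ : ℝ) : MeasurableSet (sq δ) := (isCompact_sq δ).measurableSet

theorem ind_shift {g h : ℝ × ℝ → ℝ} {δ : ℝ} {y : ℝ × ℝ} (hδ : 0 < δ)
    (hy : |y.1| < δ / 2 ∧ |y.2| < δ / 2)
    (hg : ∀ p ∈ sq (2 * δ), g p ≠ 0 → |p.1| < δ / 2 ∧ |p.2| < δ / 2) {s : ℝ} (hs : |s| = 1)
    (hh : ∀ v ∈ sq δ, h v = g (y + s • v)) (v : ℝ × ℝ) :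
    (sq δ).indicator h v = (sq (2 * δ)).indicator g (y + s • v) := by
  have e1 : (y + s • v).1 = y.1 + s * v.1 := rfl
  have e2 : (y + s • v).2 = y.2 + s * v.2 := rfl
  have e3 : |s * v.1| = |v.1| := by rw [abs_mul, hs, one_mul]
  have e4 : |s * v.2| = |v.2| := by rw [abs_mul, hs, one_mul]
  by_cases hv : v ∈ sq δ
  · rw [indicator_of_mem hv, hh v hv, indicator_of_mem]
    rw [mem_sq] at hv ⊢
    rw [e1, e2]
    exact ⟨by linarith [abs_add_le y.1 (s * v.1)], by linarith [abs_add_le y.2 (s * v.2)]⟩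
  · rw [indicator_of_notMem hv]
    by_cases hv2 : y + s • v ∈ sq (2 * δ)
    · rw [indicator_of_mem hv2]
      by_contra hne
      obtain ⟨h1, h2⟩ := hg _ hv2 (Ne.symm hne)
      rw [e1] at h1
      rw [e2] at h2
      refine hv (mem_sq.2 ⟨?_, ?_⟩)
      · have := abs_sub (y.1 + s * v.1) y.1
        rw [add_sub_cancel_left, e3] at this
        linarith
      · have := abs_sub (y.2 + s * v.2) y.2
        rw [add_sub_cancel_left, e4] at this
        linarith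
    · rw [indicator_of_notMem hv2]

theorem plane_add {g h : ℝ × ℝ → ℝ} {δ : ℝ} {y : ℝ × ℝ} (hδ : 0 < δ)
    (hy : |y.1| < δ / 2 ∧ |y.2| < δ / 2)
    (hg : ∀ p ∈ sq (2 * δ), g p ≠ 0 → |p.1| < δ / 2 ∧ |p.2| < δ / 2)
    (hh : ∀ v ∈ sq δ, h v = g (y + v)) :
    ∫ v in sq δ, h v = ∫ p, (sq (2 * δ)).indicator g p := by
  rw [← integral_indicator (measurable_sq δ),
    ← integral_add_left_eq_self (μ := volume) (fun p => (sq (2 * δ)).indicator g p) y]
  refine integral_congr_ae (Eventually.of_forall fun v => ?_)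
  have := ind_shift (h := h) hδ hy hg (s := 1) (by simp)
    (fun v hv => by rw [one_smul]; exact hh v hv) v
  rwa [one_smul] at this

theorem plane_sub {g h : ℝ × ℝ → ℝ} {δ : ℝ} {y : ℝ × ℝ} (hδ : 0 < δ)
    (hy : |y.1| < δ / 2 ∧ |y.2| < δ / 2)
    (hg : ∀ p ∈ sq (2 * δ), g p ≠ 0 → |p.1| < δ / 2 ∧ |p.2| < δ / 2)
    (hh : ∀ v ∈ sq δ, h v = g (y - v)) :
    ∫ v in sq δ, h v = ∫ p, (sq (2 * δ)).indicator g p := by
  rw [← integral_indicator (measurable_sq δ),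
    ← integral_sub_left_eq_self (fun p => (sq (2 * δ)).indicator g p) volume y]
  refine integral_congr_ae (Eventually.of_forall fun v => ?_)
  have := ind_shift (h := h) hδ hy hg (s := -1) (by simp) (fun v hv => by
    rw [neg_one_smul, ← sub_eq_add_neg]; exact hh v hv) v
  rwa [neg_one_smul, ← sub_eq_add_neg] at this

end plane

section

variable {d m : ℕ} {X : Type} [TopologicalSpace X] [ChartedSpace (E d) X]

theorem tsupport_comp_sub {F : X → ℝ} {φ : X → X} (hφ : Continuous φ) :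
    tsupport (fun x => F (φ x)) ⊆ φ ⁻¹' tsupport F := by
  refine closure_minimal ?_ ((isClosed_tsupport F).preimage hφ)
  intro x hx
  exact subset_tsupport _ hx

variable [IsManifold (𝓡 d) ∞ X] [CompactSpace X] [T2Space X] [MeasurableSpace X] [BorelSpace X]

omit [IsManifold (𝓡 d) ∞ X] in
theorem flow_const {W : (X → ℝ) → X → ℝ} {φ : ℝ → X → X} (h : FlowOp (d := d) W φ)
    (μ : Measure X) [IsFiniteMeasure μ] {w : X → ℝ} (hw : Continuous w)
    {F : X → ℝ} (hF : SmoothFun (d := d) F) {t : ℝ}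
    (h0 : ∀ r ∈ uIcc 0 t, ∫ x, W (fun y => F (φ r y)) x * w x ∂μ = 0) :
    ∫ x, F (φ t x) * w x ∂μ = ∫ x, F x * w x ∂μ := by
  have : TopologicalSpace.MetrizableSpace X := Manifold.metrizableSpace (𝓡 d) X
  have hcont : Continuous (fun p : ℝ × X => φ p.1 p.2) := h.smooth.continuous
  have hct : ∀ s, Continuous (φ s) := fun s => hcont.comp (Continuous.prodMk_right s)
  have hWF := h.op F hF
  obtain ⟨A, hA⟩ := (isCompact_univ (X := X)).exists_bound_of_continuousOn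
    hWF.continuous.continuousOn
  obtain ⟨B, hB⟩ := (isCompact_univ (X := X)).exists_bound_of_continuousOn hw.continuousOn
  let u : ℝ → ℝ := fun s => ∫ x, F (φ s x) * w x ∂μ
  let u' : ℝ → ℝ := fun s => ∫ x, W F (φ s x) * w x ∂μ
  have hu : ∀ s, HasDerivAt u (u' s) s := by
    intro s
    refine (hasDerivAt_integral_of_dominated_loc_of_deriv_le (μ := μ) (s := univ)
      (F := fun s x => F (φ s x) * w x) (F' := fun s x => W F (φ s x) * w x)
      (bound := fun _ => A * B) univ_mem ?_ ?_ ?_ ?_ (integrable_const _) ?_).2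
    · exact Eventually.of_forall fun r =>
        ((hF.continuous.comp (hct r)).mul hw).aestronglyMeasurable
    · exact integ ((hF.continuous.comp (hct s)).mul hw)
    · exact ((hWF.continuous.comp (hct s)).mul hw).aestronglyMeasurable
    · refine Eventually.of_forall fun x r _ => ?_
      rw [norm_mul]
      exact mul_le_mul (hA _ (mem_univ _)) (hB _ (mem_univ _)) (norm_nonneg _)
        ((norm_nonneg _).trans (hA x (mem_univ _)))
    · exact Eventually.of_forall fun x r _ => (h.deriv F hF x r).mul_const _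
  have hu' : ∀ s ∈ uIcc 0 t, u' s = 0 := by
    intro s hs
    rw [← h0 s hs]
    refine integral_congr_ae (Eventually.of_forall fun x => ?_)
    change W F (φ s x) * w x = W (fun x => F (φ s x)) x * w x
    rw [h.comm s hF]
  have h1 := intervalIntegral.integral_eq_sub_of_hasDerivAt (a := 0) (b := t)
    (f := u) (f' := fun _ => 0) (fun r hr => by
      have h2 := hu r
      rwa [hu' r hr] at h2) intervalIntegrable_const
  rw [intervalIntegral.integral_zero] at h1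
  have h2 : u t = u 0 := (sub_eq_zero.1 h1.symm)
  have h3 : u 0 = ∫ x, F x * w x ∂μ := by
    change ∫ x, F (φ 0 x) * w x ∂μ = _
    simp only [h.zero]
  rw [← h3]
  exact h2

omit [IsManifold (𝓡 d) ∞ X] in
theorem Pack.shift₁ {vol : Top d m X} {σ : Form d X 2} {z : X} {a b : X → ℝ}
    {N : Set X} {W₁ W₂ : (X → ℝ) → X → ℝ} {φ₁ φ₂ : ℝ → X → X}
    (P : Pack vol σ z a b N W₁ W₂ φ₁ φ₂) {ε : ℝ} {U : Set X} (B : Box a b φ₁ φ₂ N ε U)
    {μ : Measure X} (hμ : IsCurr vol σ μ) {F : X → ℝ} (hF : SmoothFun (d := d) F)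
    (hFU : tsupport F ⊆ U) {s : ℝ} (hs : |s| < ε) :
    ∫ x, F (φ₁ s x) * bf vol σ a b x ∂μ = ∫ x, F x * bf vol σ a b x ∂μ := by
  have hfin := hμ.fin
  have hcont : Continuous (fun p : ℝ × X => φ₁ p.1 p.2) := P.f₁.smooth.continuous
  have hct : ∀ s, Continuous (φ₁ s) := fun s => hcont.comp (Continuous.prodMk_right s)
  refine flow_const P.f₁ μ P.wcont hF fun r hr => P.div₁ μ hμ _ (P.f₁.smooth_t r hF) ?_
  intro x hx
  have h1 := tsupport_comp_sub (hct r) hx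
  have h2 := B.in₁ _ (hFU h1) (-r) (by rw [abs_neg]; exact (abs_le_of_uIcc hr).trans_lt hs)
  rwa [P.f₁.back] at h2

omit [IsManifold (𝓡 d) ∞ X] in
theorem Pack.shift₂ {vol : Top d m X} {σ : Form d X 2} {z : X} {a b : X → ℝ}
    {N : Set X} {W₁ W₂ : (X → ℝ) → X → ℝ} {φ₁ φ₂ : ℝ → X → X}
    (P : Pack vol σ z a b N W₁ W₂ φ₁ φ₂) {ε : ℝ} {U : Set X} (B : Box a b φ₁ φ₂ N ε U)
    {μ : Measure X} (hμ : IsCurr vol σ μ) {F : X → ℝ} (hF : SmoothFun (d := d) F)
    (hFU : tsupport F ⊆ U) {s : ℝ} (hs : |s| < ε) :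
    ∫ x, F (φ₂ s x) * bf vol σ a b x ∂μ = ∫ x, F x * bf vol σ a b x ∂μ := by
  have hfin := hμ.fin
  have hcont : Continuous (fun p : ℝ × X => φ₂ p.1 p.2) := P.f₂.smooth.continuous
  have hct : ∀ s, Continuous (φ₂ s) := fun s => hcont.comp (Continuous.prodMk_right s)
  refine flow_const P.f₂ μ P.wcont hF fun r hr => P.div₂ μ hμ _ (P.f₂.smooth_t r hF) ?_
  intro x hx
  have h1 := tsupport_comp_sub (hct r) hx
  have h2 := B.in₂ _ (hFU h1) (-r) (by rw [abs_neg]; exact (abs_le_of_uIcc hr).trans_lt hs)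
  rwa [P.f₂.back] at h2

omit [IsManifold (𝓡 d) ∞ X] in
/-- invariance under the local translations -/
theorem Pack.shift {vol : Top d m X} {σ : Form d X 2} {z : X} {a b : X → ℝ}
    {N : Set X} {W₁ W₂ : (X → ℝ) → X → ℝ} {φ₁ φ₂ : ℝ → X → X}
    (P : Pack vol σ z a b N W₁ W₂ φ₁ φ₂) {ε₁ ε₂ : ℝ} {U₁ U₂ : Set X}
    (B₁ : Box a b φ₁ φ₂ N ε₁ U₁) (B₂ : Box a b φ₁ φ₂ U₁ ε₂ U₂)
    {μ : Measure X} (hμ : IsCurr vol σ μ) {F : X → ℝ} (hF : SmoothFun (d := d) F)
    (hFU : tsupport F ⊆ U₂) {s t : ℝ} (hs₁ : |s| < ε₁) (hs₂ : |s| < ε₂) (ht : |t| < ε₁) :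
    ∫ x, F (φ₁ s (φ₂ t x)) * bf vol σ a b x ∂μ = ∫ x, F x * bf vol σ a b x ∂μ := by
  have hcont : Continuous (fun p : ℝ × X => φ₁ p.1 p.2) := P.f₁.smooth.continuous
  have hct : ∀ s, Continuous (φ₁ s) := fun s => hcont.comp (Continuous.prodMk_right s)
  rw [P.shift₂ B₁ hμ (F := fun x => F (φ₁ s x)) (P.f₁.smooth_t s hF) ?_ ht,
    P.shift₁ B₁ hμ hF (hFU.trans B₂.sub) hs₁]
  intro x hx
  have h1 := tsupport_comp_sub (hct s) hx
  have h2 := B₂.in₁ _ (hFU h1) (-s) (by rwa [abs_neg])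
  rwa [P.f₁.back] at h2

/-- the integral of `F` over the disc through `z` -/
def dsk (φ₁ φ₂ : ℝ → X → X) (z : X) (δ : ℝ) (F : X → ℝ) : ℝ :=
  ∫ p, (sq (2 * δ)).indicator (fun p : ℝ × ℝ => F (φ₂ p.2 (φ₁ p.1 z))) p

omit [IsManifold (𝓡 d) ∞ X] in
/-- **closed currents on a disc tangent to the kernel are multiples of each other** -/
theorem Pack.ratio {vol : Top d m X} {σ : Form d X 2} {z : X} {a b : X → ℝ}
    {N : Set X} {W₁ W₂ : (X → ℝ) → X → ℝ} {φ₁ φ₂ : ℝ → X → X}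
    (P : Pack vol σ z a b N W₁ W₂ φ₁ φ₂) {C : Set X} (hC : Sat φ₁ φ₂ N C)
    (horb : ∀ᶠ x in 𝓝 z, x ∈ C → φ₂ (b x - b z) (φ₁ (a x - a z) z) = x) :
    ∃ (δ : ℝ) (U : Set X), 0 < δ ∧ U ∈ 𝓝 z ∧ U ⊆ N ∧ ∀ μ : Measure X, IsCurr vol σ μ →
      supp μ ⊆ C → ∀ F ψ : X → ℝ, SmoothFun (d := d) F → SmoothFun (d := d) ψ →
        tsupport F ⊆ U → tsupport ψ ⊆ U →
        dsk φ₁ φ₂ z δ ψ * ∫ x, F x * bf vol σ a b x ∂μ =
          dsk φ₁ φ₂ z δ F * ∫ x, ψ x * bf vol σ a b x ∂μ := by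
  have hmetr : TopologicalSpace.MetrizableSpace X := Manifold.metrizableSpace (𝓡 d) X
  obtain ⟨ε₁, U₁, hε₁, hU₁, B₁⟩ := P.box (P.isOpen.mem_nhds P.mem) subset_rfl
  obtain ⟨ε₂, U₂, hε₂, hU₂, B₂⟩ := P.box hU₁ B₁.sub
  obtain ⟨ε₃, U₃, hε₃, hU₃, B₃⟩ := P.box (inter_mem horb hU₂)
    (fun x hx => B₁.sub (B₂.sub hx.2))
  have hzU₃ := mem_of_mem_nhds hU₃
  obtain ⟨δ, hδ, h1, h2, h3⟩ : ∃ δ : ℝ, 0 < δ ∧ 2 * δ < ε₁ ∧ 2 * δ < ε₂ ∧ 2 * δ < ε₃ := by
    refine ⟨min ε₁ (min ε₂ ε₃) / 4, by positivity, ?_, ?_, ?_⟩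
    · have := min_le_left ε₁ (min ε₂ ε₃)
      linarith
    · have := (min_le_right ε₁ (min ε₂ ε₃)).trans (min_le_left _ _)
      linarith
    · have := (min_le_right ε₁ (min ε₂ ε₃)).trans (min_le_right _ _)
      linarith
  let U : Set X := U₃ ∩ ({x | |a x - a z| < δ / 2} ∩ {x | |b x - b z| < δ / 2})
  have hU : U ∈ 𝓝 z := by
    have ca : Continuous (fun x => |a x - a z|) := (P.sa.continuous.sub continuous_const).abs
    have cb : Continuous (fun x => |b x - b z|) := (P.sb.continuous.sub continuous_const).abs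
    refine inter_mem hU₃ (inter_mem ?_ ?_)
    · exact ca.continuousAt.eventually (gt_mem_nhds (by simpa using hδ))
    · exact cb.continuousAt.eventually (gt_mem_nhds (by simpa using hδ))
  have hUN : U ⊆ N := fun x hx => B₁.sub (B₂.sub (B₃.sub hx.1).2)
  refine ⟨δ, U, hδ, hU, hUN, ?_⟩
  intro μ hμ hμC F ψ hF hψ hFU hψU
  have hfin := hμ.fin
  have c₁ : Continuous (fun p : ℝ × X => φ₁ p.1 p.2) := P.f₁.smooth.continuous
  have c₂ : Continuous (fun p : ℝ × X => φ₂ p.1 p.2) := P.f₂.smooth.continuous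
  let w : X → ℝ := bf vol σ a b
  have hw : Continuous w := P.wcont
  let G : ℝ × ℝ → X := fun p => φ₂ p.2 (φ₁ p.1 z)
  let T : ℝ × ℝ → X → X := fun v x => φ₁ v.1 (φ₂ v.2 x)
  let S : ℝ × ℝ → X → X := fun v x => φ₂ (-v.2) (φ₁ (-v.1) x)
  let q : X → ℝ × ℝ := fun x => (a x - a z, b x - b z)
  have hTc : Continuous (fun p : (ℝ × ℝ) × X => T p.1 p.2) :=
    c₁.comp ((continuous_fst.comp continuous_fst).prodMk
      (c₂.comp ((continuous_snd.comp continuous_fst).prodMk continuous_snd)))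
  have hSc : Continuous (fun p : (ℝ × ℝ) × X => S p.1 p.2) :=
    c₂.comp ((continuous_snd.comp continuous_fst).neg.prodMk
      (c₁.comp ((continuous_fst.comp continuous_fst).neg.prodMk continuous_snd)))
  have hv : ∀ v ∈ sq δ, |v.1| < ε₃ ∧ |v.2| < ε₃ := fun v hv =>
    ⟨by linarith [(mem_sq.1 hv).1], by linarith [(mem_sq.1 hv).2]⟩
  -- the disc
  have hsmall : ∀ F : X → ℝ, tsupport F ⊆ U → ∀ p ∈ sq (2 * δ), F (G p) ≠ 0 →
      |p.1| < δ / 2 ∧ |p.2| < δ / 2 := by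
    intro F hFU p hp hne
    have hU' := hFU (subset_tsupport _ (show G p ∈ Function.support F from hne))
    have hp' := mem_sq.1 hp
    have e1 : a (G p) = a z + p.1 := B₃.a₂₁ z hzU₃ p.1 p.2 (by linarith) (by linarith)
    have e2 : b (G p) = b z + p.2 := B₃.b₂₁ z hzU₃ p.1 p.2 (by linarith) (by linarith)
    obtain ⟨-, h4, h5⟩ := hU'
    rw [mem_setOf_eq, e1, add_sub_cancel_left] at h4
    rw [mem_setOf_eq, e2, add_sub_cancel_left] at h5
    exact ⟨h4, h5⟩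
  have hq : ∀ x ∈ U, |(q x).1| < δ / 2 ∧ |(q x).2| < δ / 2 := fun x hx => ⟨hx.2.1, hx.2.2⟩
  have hT : ∀ x ∈ U, x ∈ C → ∀ v ∈ sq δ, T v x = G (q x + v) := by
    intro x hx hxC v hvv
    obtain ⟨v1, v2⟩ := hv v hvv
    have i1 := B₃.in₂ x hx.1 v.2 v2
    have i2 := B₃.in₁₂ x hx.1 v.1 v.2 v1 v2
    have i3 : T v x ∈ C := hC.inv₁ _ (B₁.sub (B₂.sub i1.2)) (hC.inv₂ x (hUN hx) hxC _) _
    have i4 : φ₂ (b (T v x) - b z) (φ₁ (a (T v x) - a z) z) = T v x := i2.1 i3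
    rw [← i4]
    have e1 : a (T v x) = a x + v.1 := B₃.a₁₂ x hx.1 v.1 v.2 v1 v2
    have e2 : b (T v x) = b x + v.2 := B₃.b₁₂ x hx.1 v.1 v.2 v1 v2
    rw [e1, e2]
    show φ₂ (b x + v.2 - b z) (φ₁ (a x + v.1 - a z) z) = φ₂ (b x - b z + v.2) (φ₁ (a x - a z + v.1) z)
    congr 1
    · ring
    · congr 1
      ring
  have hS : ∀ x ∈ U, x ∈ C → ∀ v ∈ sq δ, S v x = G (q x - v) := by
    intro x hx hxC v hvv
    obtain ⟨v1, v2⟩ := hv v hvv
    have v1' : |-v.1| < ε₃ := by rwa [abs_neg]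
    have v2' : |-v.2| < ε₃ := by rwa [abs_neg]
    have i1 := B₃.in₁ x hx.1 (-v.1) v1'
    have i2 := B₃.in₂₁ x hx.1 (-v.1) (-v.2) v1' v2'
    have i3 : S v x ∈ C := hC.inv₂ _ (B₁.sub (B₂.sub i1.2)) (hC.inv₁ x (hUN hx) hxC _) _
    have i4 : φ₂ (b (S v x) - b z) (φ₁ (a (S v x) - a z) z) = S v x := i2.1 i3
    rw [← i4]
    have e1 : a (S v x) = a x + -v.1 := B₃.a₂₁ x hx.1 (-v.1) (-v.2) v1' v2'
    have e2 : b (S v x) = b x + -v.2 := B₃.b₂₁ x hx.1 (-v.1) (-v.2) v1' v2'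
    rw [e1, e2]
    show φ₂ (b x + -v.2 - b z) (φ₁ (a x + -v.1 - a z) z) = φ₂ (b x - b z - v.2) (φ₁ (a x - a z - v.1) z)
    congr 1
    · ring
    · congr 1
      ring
  have hA : ∀ x ∈ U, x ∈ C → ∫ v in sq δ, ψ (T v x) = dsk φ₁ φ₂ z δ ψ := fun x hx hxC =>
    plane_add hδ (hq x hx) (hsmall ψ hψU) fun v hvv => by rw [hT x hx hxC v hvv]
  have hB : ∀ x ∈ U, x ∈ C → ∫ v in sq δ, F (S v x) = dsk φ₁ φ₂ z δ F := fun x hx hxC =>
    plane_sub hδ (hq x hx) (hsmall F hFU) fun v hvv => by rw [hS x hx hxC v hvv]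
  -- bounds
  obtain ⟨MF, hMF⟩ := (isCompact_univ (X := X)).exists_bound_of_continuousOn
    hF.continuous.continuousOn
  obtain ⟨Mψ, hMψ⟩ := (isCompact_univ (X := X)).exists_bound_of_continuousOn
    hψ.continuous.continuousOn
  obtain ⟨Mw, hMw⟩ := (isCompact_univ (X := X)).exists_bound_of_continuousOn hw.continuousOn
  have hQfin : IsFiniteMeasure (volume.restrict (sq δ)) :=
    ⟨by rw [Measure.restrict_apply_univ]; exact (isCompact_sq δ).measure_lt_top⟩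
  have hint : ∀ (H : (ℝ × ℝ) → X → ℝ), Continuous (fun p : (ℝ × ℝ) × X => H p.1 p.2) →
      (∀ v x, ‖H v x‖ ≤ MF * Mψ * Mw) →
      ∫ v in sq δ, (∫ x, H v x ∂μ) = ∫ x, (∫ v in sq δ, H v x) ∂μ := by
    intro H hH hb
    refine integral_integral_swap ?_
    exact Integrable.of_bound hH.aestronglyMeasurable (MF * Mψ * Mw)
      (Eventually.of_forall fun p => hb p.1 p.2)
  have hMF0 : 0 ≤ MF := (norm_nonneg _).trans (hMF z (mem_univ z))
  have hMψ0 : 0 ≤ Mψ := (norm_nonneg _).trans (hMψ z (mem_univ z))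
  have f1 := hint (fun v x => F x * ψ (T v x) * w x)
    (((hF.continuous.comp continuous_snd).mul (hψ.continuous.comp hTc)).mul
      (hw.comp continuous_snd)) (fun v x => by
        rw [norm_mul, norm_mul]
        exact mul_le_mul (mul_le_mul (hMF _ (mem_univ _)) (hMψ _ (mem_univ _)) (norm_nonneg _)
          hMF0) (hMw _ (mem_univ _)) (norm_nonneg _) (mul_nonneg hMF0 hMψ0))
  have f2 := hint (fun v x => F (S v x) * ψ x * w x)
    (((hF.continuous.comp hSc).mul (hψ.continuous.comp continuous_snd)).mul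
      (hw.comp continuous_snd)) (fun v x => by
        rw [norm_mul, norm_mul]
        exact mul_le_mul (mul_le_mul (hMF _ (mem_univ _)) (hMψ _ (mem_univ _)) (norm_nonneg _)
          hMF0) (hMw _ (mem_univ _)) (norm_nonneg _) (mul_nonneg hMF0 hMψ0))
  -- invariance
  have f3 : ∀ v ∈ sq δ, ∫ x, F x * ψ (T v x) * w x ∂μ = ∫ x, F (S v x) * ψ x * w x ∂μ := by
    intro v hvv
    have hv' := mem_sq.1 hvv
    have hK : SmoothFun (d := d) (fun x => F (S v x) * ψ x) :=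
      (P.f₁.smooth_t (-v.1) (P.f₂.smooth_t (-v.2) hF)).mul hψ
    have hKU : tsupport (fun x => F (S v x) * ψ x) ⊆ U₂ :=
      (tsupport_mul_subset_right).trans (hψU.trans fun x hx => (B₃.sub hx.1).2)
    have := P.shift B₁ B₂ hμ hK hKU (s := v.1) (t := v.2) (by linarith) (by linarith)
      (by linarith)
    rw [← this]
    refine integral_congr_ae (Eventually.of_forall fun x => ?_)
    show F x * ψ (T v x) * w x = F (S v (T v x)) * ψ (T v x) * w x
    have e1 : S v (T v x) = x := by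
      show φ₂ (-v.2) (φ₁ (-v.1) (φ₁ v.1 (φ₂ v.2 x))) = x
      rw [P.f₁.back, P.f₂.back]
    rw [e1]
  have f4 : ∫ v in sq δ, (∫ x, F x * ψ (T v x) * w x ∂μ) =
      ∫ v in sq δ, (∫ x, F (S v x) * ψ x * w x ∂μ) :=
    setIntegral_congr_fun (measurable_sq δ) f3
  -- conclusion
  have g1 : ∫ x, (∫ v in sq δ, F x * ψ (T v x) * w x) ∂μ =
      dsk φ₁ φ₂ z δ ψ * ∫ x, F x * w x ∂μ := by
    rw [← integral_const_mul]
    refine integral_congr_ae ?_
    filter_upwards [supp_ae μ] with x hx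
    have e1 : (fun v => F x * ψ (T v x) * w x) = fun v => (F x * w x) * ψ (T v x) := by
      funext v; ring
    rw [e1, integral_const_mul]
    by_cases hxF : x ∈ tsupport F
    · rw [hA x (hFU hxF) (hμC hx)]
      ring
    · rw [image_eq_zero_of_notMem_tsupport hxF]
      ring
  have g2 : ∫ x, (∫ v in sq δ, F (S v x) * ψ x * w x) ∂μ =
      dsk φ₁ φ₂ z δ F * ∫ x, ψ x * w x ∂μ := by
    rw [← integral_const_mul]
    refine integral_congr_ae ?_
    filter_upwards [supp_ae μ] with x hx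
    have e1 : (fun v => F (S v x) * ψ x * w x) = fun v => (ψ x * w x) * F (S v x) := by
      funext v; ring
    rw [e1, integral_const_mul]
    by_cases hxF : x ∈ tsupport ψ
    · rw [hB x (hψU hxF) (hμC hx)]
      ring
    · rw [image_eq_zero_of_notMem_tsupport hxF]
      ring
  rw [← g1, ← g2, ← f1, ← f2, f4]

end

end Run7.h752.LF
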