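import Pool.Agent.Run7.h752.LF.Const

/-!
Closed currents whose support is contained in a surface tangent to the kernel, the support of another
closed current: comparison of the two.
-/

set_option autoImplicit false

open Set Filter Topology MeasureTheory
open scoped Manifold ContDiff NNReal ENNReal

noncomputable section

namespace Run7.h752.LF

open Pool.Agent.Y501.SY Pool.Agent.R772 Run7.h752.SC

section

variable {d m : ℕ} {X : Type} [TopologicalSpace X] [ChartedSpace (E d) X]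

theorem dsk_pos {W₁ W₂ : (X → ℝ) → X → ℝ} {φ₁ φ₂ : ℝ → X → X} (h₁ : FlowOp (d := d) W₁ φ₁)
    (h₂ : FlowOp (d := d) W₂ φ₂) {z : X} {δ : ℝ} (hδ : 0 < δ) {ψ : X → ℝ} (hψ : Continuous ψ)
    (h0 : ∀ x, 0 ≤ ψ x) (hz : ψ z ≠ 0) : 0 < dsk φ₁ φ₂ z δ ψ := by
  unfold dsk
  rw [integral_indicator (measurable_sq _)]
  have c₁ : Continuous (fun p : ℝ × X => φ₁ p.1 p.2) := h₁.smooth.continuous
  have c₂ : Continuous (fun p : ℝ × X => φ₂ p.1 p.2) := h₂.smooth.continuous
  have hG : Continuous (fun p : ℝ × ℝ => ψ (φ₂ p.2 (φ₁ p.1 z))) :=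
    hψ.comp (c₂.comp (continuous_snd.prodMk (c₁.comp (continuous_fst.prodMk continuous_const))))
  rw [setIntegral_pos_iff_support_of_nonneg_ae (Eventually.of_forall fun p => h0 _)
    (hG.continuousOn.integrableOn_compact (isCompact_sq _))]
  have hopen : IsOpen (Function.support (fun p : ℝ × ℝ => ψ (φ₂ p.2 (φ₁ p.1 z))) ∩
      (Ioo (-(2 * δ)) (2 * δ) ×ˢ Ioo (-(2 * δ)) (2 * δ))) :=
    hG.isOpen_support.inter (isOpen_Ioo.prod isOpen_Ioo)
  have hne : (Function.support (fun p : ℝ × ℝ => ψ (φ₂ p.2 (φ₁ p.1 z))) ∩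
      (Ioo (-(2 * δ)) (2 * δ) ×ˢ Ioo (-(2 * δ)) (2 * δ))).Nonempty := by
    refine ⟨(0, 0), ?_, ⟨by constructor <;> simp [hδ], by constructor <;> simp [hδ]⟩⟩
    rw [Function.mem_support, h₁.zero, h₂.zero]
    exact hz
  refine (hopen.measure_pos volume hne).trans_le (measure_mono ?_)
  refine inter_subset_inter_right _ ?_
  rintro p ⟨hp1, hp2⟩
  exact ⟨Ioo_subset_Icc_self hp1, Ioo_subset_Icc_self hp2⟩

variable [IsManifold (𝓡 d) ∞ X] [CompactSpace X] [T2Space X] [MeasurableSpace X] [BorelSpace X]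

/-- continuous functions near `z` -/
theorem ratio_cont {w : X → ℝ} (hw : Continuous w) {μ ν : Measure X}
    [IsFiniteMeasure μ] [IsFiniteMeasure ν] {U : Set X} {r : ℝ}
    (h : ∀ F : X → ℝ, SmoothFun (d := d) F → tsupport F ⊆ U →
      ∫ x, F x * w x ∂ν = r * ∫ x, F x * w x ∂μ) {F : X → ℝ} (hF : Continuous F)
    (hFU : tsupport F ⊆ U) : ∫ x, F x * w x ∂ν = r * ∫ x, F x * w x ∂μ := by
  have hmetr : TopologicalSpace.MetrizableSpace X := Manifold.metrizableSpace (𝓡 d) X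
  have hfd : FiniteDimensional ℝ (E d) :=
    (inferInstance : FiniteDimensional ℝ (EuclideanSpace ℝ (Fin d)))
  obtain ⟨Mw, hMw⟩ := (isCompact_univ (X := X)).exists_bound_of_continuousOn hw.continuousOn
  -- approximation
  have key : ∀ κ : Measure X, IsFiniteMeasure κ → ∀ (η : ℝ) (g : X → ℝ), Continuous g →
      (∀ x, |g x - F x| ≤ η) → |∫ x, g x * w x ∂κ - ∫ x, F x * w x ∂κ| ≤
        η * Mw * κ.real univ := by
    intro κ hκ η g hg hgF
    have i1 : Integrable (fun x => g x * w x) κ := integ (hg.mul hw)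
    have i2 : Integrable (fun x => F x * w x) κ := integ (hF.mul hw)
    rw [← integral_sub i1 i2]
    have h1 := norm_integral_le_of_norm_le_const (μ := κ) (f := fun x => g x * w x - F x * w x)
      (C := η * Mw) (Eventually.of_forall fun x => by
        rw [← sub_mul, norm_mul]
        have h0 : 0 ≤ η := (abs_nonneg _).trans (hgF x)
        exact mul_le_mul (hgF x) (hMw x (mem_univ x)) (norm_nonneg _) h0)
    exact h1
  by_contra hne
  have hpos : 0 < |∫ x, F x * w x ∂ν - r * ∫ x, F x * w x ∂μ| :=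
    abs_pos.2 (sub_ne_zero.2 hne)
  set K : ℝ := |Mw| * ν.real univ + |r| * (|Mw| * μ.real univ) + 1 with hK
  have hK0 : 0 < K := by
    have h1 : 0 ≤ ν.real univ := measureReal_nonneg
    have h2 : 0 ≤ μ.real univ := measureReal_nonneg
    positivity
  set η : ℝ := |∫ x, F x * w x ∂ν - r * ∫ x, F x * w x ∂μ| / (2 * K) with hη
  have hη0 : 0 < η := by positivity
  obtain ⟨g, hg1, hg2⟩ := hF.exists_contMDiff_approx (𝓡 d) (⊤ : ℕ∞)
    (ε := fun _ => η) continuous_const (fun _ => hη0)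
  have hgs : SmoothFun (d := d) (fun x => g x) := g.contMDiff
  have hgU : tsupport (fun x => g x) ⊆ U := (closure_mono hg2).trans hFU
  have hg3 : ∀ x, |g x - F x| ≤ η := fun x => (hg1 x).le
  have e1 := key ν inferInstance η (fun x => g x) hgs.continuous hg3
  have e2 := key μ inferInstance η (fun x => g x) hgs.continuous hg3
  rw [h _ hgs hgU] at e1
  have e3 : |∫ x, F x * w x ∂ν - r * ∫ x, F x * w x ∂μ| ≤ η * Mw * ν.real univ +
      |r| * (η * Mw * μ.real univ) := by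
    have h4 : ∫ x, F x * w x ∂ν - r * ∫ x, F x * w x ∂μ =
        -(r * ∫ x, g x * w x ∂μ - ∫ x, F x * w x ∂ν) +
          r * (∫ x, g x * w x ∂μ - ∫ x, F x * w x ∂μ) := by ring
    rw [h4]
    refine (abs_add_le _ _).trans (add_le_add ?_ ?_)
    · rw [abs_neg]
      exact e1
    · rw [abs_mul]
      exact mul_le_mul_of_nonneg_left e2 (abs_nonneg _)
  have e4 : η * Mw * ν.real univ + |r| * (η * Mw * μ.real univ) ≤ η * K := by
    have h1 : 0 ≤ ν.real univ := measureReal_nonneg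
    have h2 : 0 ≤ μ.real univ := measureReal_nonneg
    have h5 : η * Mw * ν.real univ ≤ η * (|Mw| * ν.real univ) := by
      rw [mul_assoc]
      exact mul_le_mul_of_nonneg_left (mul_le_mul_of_nonneg_right (le_abs_self _) h1) hη0.le
    have h6 : |r| * (η * Mw * μ.real univ) ≤ η * (|r| * (|Mw| * μ.real univ)) := by
      have : |r| * (η * Mw * μ.real univ) = η * (|r| * (Mw * μ.real univ)) := by ring
      rw [this]
      exact mul_le_mul_of_nonneg_left (mul_le_mul_of_nonneg_left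
        (mul_le_mul_of_nonneg_right (le_abs_self _) h2) (abs_nonneg _)) hη0.le
    rw [hK]
    nlinarith [h5, h6, hη0]
  have e5 : η * K = |∫ x, F x * w x ∂ν - r * ∫ x, F x * w x ∂μ| / 2 := by
    rw [hη]
    field_simp
  linarith [e3, e4, e5, hpos]

/-- **local comparison** -/
theorem Pack.compare {vol : Top d m X} {σ : Form d X 2} {z : X} {a b : X → ℝ}
    {N : Set X} {W₁ W₂ : (X → ℝ) → X → ℝ} {φ₁ φ₂ : ℝ → X → X}
    (P : Pack vol σ z a b N W₁ W₂ φ₁ φ₂) {μ ν : Measure X} (hμ : IsCurr vol σ μ)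
    (hν : IsCurr vol σ ν) (hsub : supp ν ⊆ supp μ) (hz : z ∈ supp μ)
    (hfin : FinAt d (supp μ) z) : ∃ (O : Set X) (r : ℝ≥0), IsOpen O ∧ z ∈ O ∧
      ∀ A : Set X, MeasurableSet A → A ⊆ O → ν A = r * μ A := by
  have hmetr : TopologicalSpace.MetrizableSpace X := Manifold.metrizableSpace (𝓡 d) X
  have hfμ := hμ.fin
  have hfν := hν.fin
  obtain ⟨δ, U, hδ, hU, hUN, hrat⟩ := P.ratio (P.sat hμ) (P.orbit (P.sat hμ) hfin)
  obtain ⟨θ, -, hθ⟩ := (SmoothBumpFunction.nhds_basis_tsupport (I := 𝓡 d) z).mem_iff.1 hU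
  have hθs : SmoothFun (d := d) (fun x => θ x) := θ.contMDiff
  have hθ0 : ∀ x, 0 ≤ θ x := fun x => θ.nonneg
  have hθw : ∀ x, 0 ≤ θ x * bf vol σ a b x := by
    intro x
    by_cases hx : x ∈ tsupport θ
    · exact mul_nonneg (hθ0 x) (P.wpos x (hUN (hθ hx))).le
    · rw [image_eq_zero_of_notMem_tsupport hx, zero_mul]
  have hpos : 0 < ∫ x, θ x * bf vol σ a b x ∂μ := by
    have h1 : 0 ≤ ∫ x, θ x * bf vol σ a b x ∂μ := integral_nonneg hθw
    refine lt_of_le_of_ne h1 fun h0 => ?_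
    have h2 := zero_on_supp (μ := μ) (f := fun x => θ x * bf vol σ a b x)
      (hθs.continuous.mul P.wcont) hθw h0.symm hz
    rw [θ.eq_one, one_mul] at h2
    exact (P.wpos z (hUN (mem_of_mem_nhds hU))).ne' h2
  have hνn : 0 ≤ ∫ x, θ x * bf vol σ a b x ∂ν := integral_nonneg hθw
  set r : ℝ := (∫ x, θ x * bf vol σ a b x ∂ν) / ∫ x, θ x * bf vol σ a b x ∂μ with hr
  have hr0 : 0 ≤ r := div_nonneg hνn hpos.le
  have hdsk : 0 < dsk φ₁ φ₂ z δ (fun x => θ x) :=
    dsk_pos P.f₁ P.f₂ hδ hθs.continuous hθ0 (by rw [θ.eq_one]; exact one_ne_zero)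
  have h1 : ∀ F : X → ℝ, SmoothFun (d := d) F → tsupport F ⊆ U →
      ∫ x, F x * bf vol σ a b x ∂ν = r * ∫ x, F x * bf vol σ a b x ∂μ := by
    intro F hF hFU
    have e1 := hrat μ hμ subset_rfl F (fun x => θ x) hF hθs hFU hθ
    have e2 := hrat ν hν hsub F (fun x => θ x) hF hθs hFU hθ
    have e3 : dsk φ₁ φ₂ z δ (fun x => θ x) * ∫ x, F x * bf vol σ a b x ∂ν =
        dsk φ₁ φ₂ z δ (fun x => θ x) * (r * ∫ x, F x * bf vol σ a b x ∂μ) := by
      rw [e2, mul_left_comm, e1, hr]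
      field_simp
    exact mul_left_cancel₀ hdsk.ne' e3
  have h2 : ∀ F : X → ℝ, Continuous F → tsupport F ⊆ U →
      ∫ x, F x * bf vol σ a b x ∂ν = r * ∫ x, F x * bf vol σ a b x ∂μ := fun F hF hFU =>
    ratio_cont P.wcont h1 hF hFU
  -- the measures with density
  have h3 : ∀ g : C(X, ℝ), ∫ x, θ x * g x ∂ν = r * ∫ x, θ x * g x ∂μ := by
    intro g
    have hc : Continuous (fun x => θ x * g x / bf vol σ a b x) := by
      rw [continuous_iff_continuousAt]
      intro x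
      by_cases hx : x ∈ tsupport θ
      · exact ((hθs.continuous.mul g.continuous).continuousAt).div P.wcont.continuousAt
          (P.wpos x (hUN (hθ hx))).ne'
      · have e1 : (fun x => θ x * g x / bf vol σ a b x) =ᶠ[𝓝 x] fun _ => 0 := by
          filter_upwards [(isClosed_tsupport θ).isOpen_compl.mem_nhds hx] with y hy
          rw [image_eq_zero_of_notMem_tsupport hy, zero_mul, zero_div]
        exact continuousAt_const.congr e1.symm
    have hs : tsupport (fun x => θ x * g x / bf vol σ a b x) ⊆ tsupport θ := by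
      refine closure_mono fun x hx => ?_
      rw [Function.mem_support] at hx ⊢
      intro h0
      exact hx (by rw [h0, zero_mul, zero_div])
    have e1 := h2 _ hc (hs.trans hθ)
    have e2 : ∀ x, θ x * g x / bf vol σ a b x * bf vol σ a b x = θ x * g x := by
      intro x
      by_cases hx : x ∈ tsupport θ
      · exact div_mul_cancel₀ _ (P.wpos x (hUN (hθ hx))).ne'
      · rw [image_eq_zero_of_notMem_tsupport hx, zero_mul, zero_div, zero_mul]
    simp only [e2] at e1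
    exact e1
  let θ' : X → ℝ≥0 := fun x => ⟨θ x, hθ0 x⟩
  have hθ'm : Measurable θ' := (hθs.continuous.subtype_mk _).measurable
  have hdens : ∀ κ : Measure X, IsFiniteMeasure κ → IsFiniteMeasure
      (κ.withDensity fun x => (θ' x : ℝ≥0∞)) := by
    intro κ hκ
    refine isFiniteMeasure_withDensity ?_
    refine ne_top_of_le_ne_top (measure_ne_top κ univ) ?_
    calc ∫⁻ x, (θ' x : ℝ≥0∞) ∂κ ≤ ∫⁻ _, 1 ∂κ := lintegral_mono fun x => by
          have h5 : θ' x ≤ 1 := θ.le_one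
          rw [← ENNReal.coe_one]
          exact ENNReal.coe_le_coe.2 h5
      _ = κ univ := lintegral_one
  have hi1 := hdens μ inferInstance
  have hi2 := hdens ν inferInstance
  obtain ⟨r', hr'⟩ : ∃ r' : ℝ≥0, (r' : ℝ) = r := ⟨⟨r, hr0⟩, rfl⟩
  rw [← hr'] at h3
  have hmeq : (ν.withDensity fun x => (θ' x : ℝ≥0∞)) =
      r' • (μ.withDensity fun x => (θ' x : ℝ≥0∞)) := by
    refine fnl_inj fun g => ?_
    rw [integral_smul_nnreal_measure, integral_withDensity_eq_integral_smul hθ'm,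
      integral_withDensity_eq_integral_smul hθ'm]
    exact h3 g
  obtain ⟨O, hO1, hO2, hO3⟩ := mem_nhds_iff.1 θ.eventuallyEq_one
  refine ⟨O, r', hO2, hO3, fun A hA hAO => ?_⟩
  have hone : ∀ κ : Measure X, (κ.withDensity fun x => (θ' x : ℝ≥0∞)) A = κ A := by
    intro κ
    rw [withDensity_apply _ hA]
    have e1 : ∫⁻ x in A, (θ' x : ℝ≥0∞) ∂κ = ∫⁻ _ in A, 1 ∂κ := by
      refine setLIntegral_congr_fun hA fun x hx => ?_
      have e2 : θ x = 1 := hO1 (hAO hx)
      have e3 : θ' x = 1 := Subtype.ext e2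
      show ((θ' x : ℝ≥0) : ℝ≥0∞) = 1
      rw [e3]
      rfl
    rw [e1, setLIntegral_one]
  rw [← hone ν, hmeq, Measure.smul_apply, hone μ]
  rfl

/-- **comparison** -/
theorem curr_le (hd : d = 2 * (m + 1)) {vol : Top d m X} (hvol : IsVol vol)
    {σ : Form d X 2} (hσ : IsSmooth σ) (hnn : ∀ x, NonnegTop vol σ x) {μ ν : Measure X}
    (hμ : IsCurr vol σ μ) (hν : IsCurr vol σ ν) (hsub : supp ν ⊆ supp μ)
    (hr : ∀ z ∈ supp μ, ∃ (τ : (TangentSpace (𝓡 d) z) [⋀^Fin 2]→L[ℝ] ℝ)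
      (e : Fin (m + 1) × Fin 2 → TangentSpace (𝓡 d) z),
      Pool.Agent.R772.wedge (Fin.cons τ (fun _ : Fin m => σ z)) e ≠ 0)
    (hfin : ∀ z ∈ supp μ, FinAt d (supp μ) z) :
    ∃ K : ℝ≥0, ν ≤ K • μ := by
  have hmetr : TopologicalSpace.MetrizableSpace X := Manifold.metrizableSpace (𝓡 d) X
  have hsec : SecondCountableTopology X := by
    let _ := TopologicalSpace.metrizableSpaceMetric X
    infer_instance
  have hC : IsCompact (supp μ) := (isClosed_supp μ).isCompact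
  obtain ⟨O, K, hO, hCO, hK⟩ : ∃ (O : Set X) (K : ℝ≥0), IsOpen O ∧ supp μ ⊆ O ∧
      ∀ A : Set X, MeasurableSet A → A ⊆ O → ν A ≤ K * μ A := by
    refine hC.induction_on (p := fun s => ∃ (O : Set X) (K : ℝ≥0), IsOpen O ∧ s ⊆ O ∧
      ∀ A : Set X, MeasurableSet A → A ⊆ O → ν A ≤ K * μ A) ?_ ?_ ?_ ?_
    · exact ⟨∅, 0, isOpen_empty, subset_rfl, fun A _ hA => by
        rw [subset_empty_iff.1 hA, measure_empty]
        exact bot_le⟩
    · rintro s t hst ⟨O, K, h1, h2, h3⟩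
      exact ⟨O, K, h1, hst.trans h2, h3⟩
    · rintro s t ⟨O, K, h1, h2, h3⟩ ⟨O', K', h1', h2', h3'⟩
      refine ⟨O ∪ O', K + K', h1.union h1', union_subset_union h2 h2', fun A hA hAO => ?_⟩
      have e1 : A ⊆ (A ∩ O) ∪ (A ∩ O') := fun x hx => (hAO hx).elim (fun h => Or.inl ⟨hx, h⟩)
        fun h => Or.inr ⟨hx, h⟩
      calc ν A ≤ ν (A ∩ O) + ν (A ∩ O') := (measure_mono e1).trans (measure_union_le _ _)
        _ ≤ K * μ (A ∩ O) + K' * μ (A ∩ O') := add_le_add
            (h3 _ (hA.inter h1.measurableSet) inter_subset_right)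
            (h3' _ (hA.inter h1'.measurableSet) inter_subset_right)
        _ ≤ K * μ A + K' * μ A := add_le_add
            (mul_le_mul_right (measure_mono inter_subset_left) _)
            (mul_le_mul_right (measure_mono inter_subset_left) _)
        _ = ((K + K' : ℝ≥0) : ℝ≥0∞) * μ A := by rw [ENNReal.coe_add, add_mul]
    · intro z hz
      obtain ⟨a, b, N, W₁, W₂, φ₁, φ₂, P⟩ := exists_pack hd hvol hσ hnn (hr z hz)
      obtain ⟨O, r, h1, h2, h3⟩ := P.compare hμ hν hsub hz (hfin z hz)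
      exact ⟨O, mem_nhdsWithin_of_mem_nhds (h1.mem_nhds h2), O, r, h1, subset_rfl,
        fun A hA hAO => (h3 A hA hAO).le⟩
  refine ⟨K, Measure.le_iff.2 fun A hA => ?_⟩
  have e1 : ν (A ∩ (supp μ)ᶜ) = 0 := measure_mono_null (fun x hx hx' => hx.2 (hsub hx'))
    (supp_compl ν)
  have e2 : A ⊆ (A ∩ O) ∪ (A ∩ (supp μ)ᶜ) := fun x hx => by
    by_cases hxs : x ∈ supp μ
    · exact Or.inl ⟨hx, hCO hxs⟩
    · exact Or.inr ⟨hx, hxs⟩
  calc ν A ≤ ν (A ∩ O) + ν (A ∩ (supp μ)ᶜ) := (measure_mono e2).trans (measure_union_le _ _)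
    _ = ν (A ∩ O) := by rw [e1, add_zero]
    _ ≤ K * μ (A ∩ O) := hK _ (hA.inter hO.measurableSet) inter_subset_right
    _ ≤ K * μ A := mul_le_mul_right (measure_mono inter_subset_left) _
    _ = (K • μ) A := rfl

end

end Run7.h752.LF
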