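import Pool.Agent.Run7.h752.LF.Area

/-!
Supports of closed currents in a set of locally finite area: they are equal or disjoint if they are
connected, and there are finitely many of them.
-/

set_option autoImplicit false

open Set Filter Topology MeasureTheory
open scoped Manifold ContDiff NNReal ENNReal

noncomputable section

namespace Run7.h752.LF

open Pool.Agent.Y501.SY Pool.Agent.R772 Run7.h752.SC

section

variable {d m : ℕ} {X : Type} [TopologicalSpace X] [ChartedSpace (E d) X]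
  [MeasurableSpace X] [IsManifold (𝓡 d) ∞ X] [T2Space X]

theorem FinAt.mono {C C' : Set X} {z : X} (h : FinAt d C z) (hsub : C' ⊆ C) :
    FinAt d C' z := by
  obtain ⟨N, hN, h1⟩ := h
  exact ⟨N, hN, ne_top_of_le_ne_top h1 (measure_mono (image_mono
    (inter_subset_inter_left _ (inter_subset_inter_left _ hsub))))⟩

theorem Pack.local_sub {vol : Top d m X} {σ : Form d X 2} {z : X} {a b : X → ℝ}
    {N : Set X} {W₁ W₂ : (X → ℝ) → X → ℝ} {φ₁ φ₂ : ℝ → X → X}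
    (P : Pack vol σ z a b N W₁ W₂ φ₁ φ₂) {C C' : Set X} (hC : Sat φ₁ φ₂ N C)
    (hC' : Sat φ₁ φ₂ N C') (hz' : z ∈ C') (hfin : FinAt d C z) :
    ∀ᶠ x in 𝓝 z, x ∈ C → x ∈ C' := by
  obtain ⟨ε, U, hε, hU, B⟩ := P.box (P.isOpen.mem_nhds P.mem) subset_rfl
  have hzU := mem_of_mem_nhds hU
  filter_upwards [P.orbit hC hfin, P.proj hε hU B univ_mem] with x hx hx' hxs
  rw [← hx hxs]
  exact hC'.inv₂ _ (B.in₁ z hzU _ hx'.2.1) (hC'.inv₁ z P.mem hz' _) _

variable [CompactSpace X] [BorelSpace X]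

/-- connected supports are equal or disjoint -/
theorem sub_of_meet (hd : d = 2 * (m + 1)) {vol : Top d m X} (hvol : IsVol vol)
    {σ : Form d X 2} (hσ : IsSmooth σ) (hnn : ∀ x, NonnegTop vol σ x) {μ ν : Measure X}
    (hμ : IsCurr vol σ μ) (hν : IsCurr vol σ ν) (hconn : IsPreconnected (supp μ))
    (hr : ∀ z ∈ supp μ, ∃ (τ : (TangentSpace (𝓡 d) z) [⋀^Fin 2]→L[ℝ] ℝ)
      (e : Fin (m + 1) × Fin 2 → TangentSpace (𝓡 d) z),
      Pool.Agent.R772.wedge (Fin.cons τ (fun _ : Fin m => σ z)) e ≠ 0)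
    (hfin : ∀ z ∈ supp μ, FinAt d (supp μ) z) (hne : (supp μ ∩ supp ν).Nonempty) :
    supp μ ⊆ supp ν := by
  have hps : PreconnectedSpace (supp μ) := isPreconnected_iff_preconnectedSpace.1 hconn
  have hcl : IsClopen {x : supp μ | (x : X) ∈ supp ν} := by
    refine ⟨(isClosed_supp ν).preimage continuous_subtype_val,
      isOpen_iff_mem_nhds.2 fun x hx => ?_⟩
    obtain ⟨a, b, N, W₁, W₂, φ₁, φ₂, P⟩ := exists_pack hd hvol hσ hnn (hr x x.2)
    have h1 := P.local_sub (P.sat hμ) (P.sat hν) hx (hfin x x.2)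
    have h2 : ∀ᶠ y : supp μ in 𝓝 x, (y : X) ∈ supp μ → (y : X) ∈ supp ν :=
      continuous_subtype_val.continuousAt.eventually h1
    filter_upwards [h2] with y hy
    exact hy y.2
  obtain ⟨x, hx1, hx2⟩ := hne
  have h := hcl.eq_univ ⟨⟨x, hx1⟩, hx2⟩
  intro y hy
  have : (⟨y, hy⟩ : supp μ) ∈ {x : supp μ | (x : X) ∈ supp ν} := by
    rw [h]
    exact mem_univ _
  exact this

/-- **finiteness** -/
theorem finite_supp (hd : d = 2 * (m + 1)) {vol : Top d m X} (hvol : IsVol vol)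
    {σ : Form d X 2} (hσ : IsSmooth σ) (hnn : ∀ x, NonnegTop vol σ x) {D : Set X}
    (hD : IsCompact D)
    (hr : ∀ z ∈ D, ∃ (τ : (TangentSpace (𝓡 d) z) [⋀^Fin 2]→L[ℝ] ℝ)
      (e : Fin (m + 1) × Fin 2 → TangentSpace (𝓡 d) z),
      Pool.Agent.R772.wedge (Fin.cons τ (fun _ : Fin m => σ z)) e ≠ 0)
    (hfin : ∀ z ∈ D, FinAt d D z) {S : Set (Set X)} (hS : ∀ C ∈ S, C.Nonempty ∧ C ⊆ D ∧
      IsPreconnected C ∧ ∃ μ : Measure X, IsCurr vol σ μ ∧ supp μ = C) : S.Finite := by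
  -- two members with a common point are equal
  have hsing : ∀ y : X, {C | C ∈ S ∧ y ∈ C}.Subsingleton := by
    rintro y C ⟨hC, hyC⟩ C' ⟨hC', hyC'⟩
    obtain ⟨-, h1, h2, μ, h3, rfl⟩ := hS C hC
    obtain ⟨-, h1', h2', ν, h3', rfl⟩ := hS C' hC'
    refine Subset.antisymm ?_ ?_
    · exact sub_of_meet hd hvol hσ hnn h3 h3' h2 (fun z hz => hr z (h1 hz))
        (fun z hz => (hfin z (h1 hz)).mono h1) ⟨y, hyC, hyC'⟩
    · exact sub_of_meet hd hvol hσ hnn h3' h3 h2' (fun z hz => hr z (h1' hz))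
        (fun z hz => (hfin z (h1' hz)).mono h1') ⟨y, hyC', hyC⟩
  have key : {C | C ∈ S ∧ (C ∩ D).Nonempty}.Finite := by
    refine hD.induction_on (p := fun s => {C | C ∈ S ∧ (C ∩ s).Nonempty}.Finite) ?_ ?_ ?_ ?_
    · simp
    · intro s t hst ht
      exact ht.subset fun C hC => ⟨hC.1, hC.2.mono (inter_subset_inter_right _ hst)⟩
    · intro s t hs ht
      refine (hs.union ht).subset ?_
      rintro C ⟨hC, x, hx, hx' | hx'⟩
      · exact Or.inl ⟨hC, x, hx, hx'⟩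
      · exact Or.inr ⟨hC, x, hx, hx'⟩
    · intro z hz
      obtain ⟨a, b, N, W₁, W₂, φ₁, φ₂, P⟩ := exists_pack hd hvol hσ hnn (hr z hz)
      have hsat : ∀ C ∈ S, Sat φ₁ φ₂ N C := by
        intro C hC
        obtain ⟨-, -, -, μ, h3, rfl⟩ := hS C hC
        exact P.sat h3
      have hsatU : Sat φ₁ φ₂ N (⋃₀ S) := by
        refine ⟨fun x hx hxS t => ?_, fun x hx hxS t => ?_⟩
        · obtain ⟨C, hC, hxC⟩ := hxS
          exact ⟨C, hC, (hsat C hC).inv₁ x hx hxC t⟩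
        · obtain ⟨C, hC, hxC⟩ := hxS
          exact ⟨C, hC, (hsat C hC).inv₂ x hx hxC t⟩
      have hUD : ⋃₀ S ⊆ D := sUnion_subset fun C hC => (hS C hC).2.1
      obtain ⟨ε, U, hε, hU, B, hR⟩ := P.fib hsatU ((hfin z hz).mono hUD)
      have hev := P.proj hε hU B univ_mem
      refine ⟨_, mem_nhdsWithin_of_mem_nhds hev, ?_⟩
      refine (Set.Finite.biUnion hR fun y _ => (hsing y).finite).subset ?_
      rintro C ⟨hC, x, hxC, hx⟩
      obtain ⟨-, -, -, -, h6, h7, h8, h9⟩ := hx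
      have hrC := h9 C (hsat C hC) hxC
      exact mem_iUnion₂.2 ⟨_, ⟨h6, ⟨C, hC, hrC⟩, h7, h8⟩, hC, hrC⟩
  refine key.subset fun C hC => ⟨hC, ?_⟩
  obtain ⟨⟨x, hx⟩, h2, -⟩ := hS C hC
  exact ⟨x, hx, h2 hx⟩

end

end Run7.h752.LF
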