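import Mathlib

/-!
Calculus in the plane: exchange of partial derivatives, derivatives along anti-diagonals, and the
inequality of Gronwall.
-/

set_option autoImplicit false

open Set Filter Topology MeasureTheory
open scoped Manifold ContDiff

noncomputable section

namespace Run7.h752.LF

/-- exchange of partial derivatives -/
theorem swap {H : ℝ × ℝ → ℝ} (hH : ContDiff ℝ ∞ H) {D Q : ℝ → ℝ} {P : ℝ → ℝ → ℝ} (a : ℝ)
    (hD : ∀ a, HasDerivAt (fun b => H (a, b)) (D a) 0)
    (hP : ∀ a b, HasDerivAt (fun a => H (a, b)) (P a b) a)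
    (hQ : ∀ a, HasDerivAt (fun b => P a b) (Q a) 0) : HasDerivAt D (Q a) a := by
  have hdiff : Differentiable ℝ H := hH.differentiable (by simp)
  have hfd : ContDiff ℝ ∞ (fderiv ℝ H) := hH.fderiv_right (by simp)
  have hfdd : Differentiable ℝ (fderiv ℝ H) := hfd.differentiable (by simp)
  have h1 : ∀ a b, HasDerivAt (fun a : ℝ => ((a, b) : ℝ × ℝ)) (1, 0) a := fun a b =>
    (hasDerivAt_id a).prodMk (hasDerivAt_const a b)
  have h2 : ∀ a b, HasDerivAt (fun b : ℝ => ((a, b) : ℝ × ℝ)) (0, 1) b := fun a b =>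
    (hasDerivAt_const b a).prodMk (hasDerivAt_id b)
  have eD : ∀ a, D a = fderiv ℝ H (a, 0) (0, 1) := fun a =>
    (hD a).unique ((hdiff (a, 0)).hasFDerivAt.comp_hasDerivAt (0 : ℝ) (h2 a 0))
  have eP : ∀ a b, P a b = fderiv ℝ H (a, b) (1, 0) := fun a b =>
    (hP a b).unique ((hdiff (a, b)).hasFDerivAt.comp_hasDerivAt a (h1 a b))
  have eQ : Q a = fderiv ℝ (fderiv ℝ H) (a, 0) (0, 1) (1, 0) := by
    have h3 : HasDerivAt (fun b : ℝ => fderiv ℝ H (a, b)) (fderiv ℝ (fderiv ℝ H) (a, 0) (0, 1))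
        0 := (hfdd (a, 0)).hasFDerivAt.comp_hasDerivAt (0 : ℝ) (h2 a 0)
    have h4 := h3.clm_apply (hasDerivAt_const (0 : ℝ) ((1, 0) : ℝ × ℝ))
    have h5 : HasDerivAt (fun b : ℝ => P a b) (fderiv ℝ (fderiv ℝ H) (a, 0) (0, 1) (1, 0)) 0 := by
      have h6 : (fun b : ℝ => P a b) = fun b : ℝ => fderiv ℝ H (a, b) ((1, 0) : ℝ × ℝ) := by
        funext b; exact eP a b
      rw [h6]
      refine h4.congr_deriv ?_
      simp
    exact (hQ a).unique h5
  have hsymm : IsSymmSndFDerivAt ℝ H (a, 0) :=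
    (hH.contDiffAt).isSymmSndFDerivAt (by
      rw [minSmoothness_of_isRCLikeNormedField]
      exact WithTop.coe_le_coe.2 (le_top : (2 : ℕ∞) ≤ ⊤))
  have h3 : HasDerivAt (fun a : ℝ => fderiv ℝ H (a, 0)) (fderiv ℝ (fderiv ℝ H) (a, 0) (1, 0)) a :=
    (hfdd (a, 0)).hasFDerivAt.comp_hasDerivAt a (h1 a 0)
  have h4 := h3.clm_apply (hasDerivAt_const a ((0, 1) : ℝ × ℝ))
  have h6 : D = fun a : ℝ => fderiv ℝ H (a, 0) ((0, 1) : ℝ × ℝ) := by
    funext b; exact eD b
  rw [h6, eQ]
  refine h4.congr_deriv ?_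
  rw [map_zero, add_zero]
  exact hsymm.eq (1, 0) (0, 1)

/-- constancy along an anti-diagonal -/
theorem antidiag {D : ℝ × ℝ → ℝ} (hD : Differentiable ℝ D) {A : ℝ → ℝ} (t : ℝ)
    (h1 : ∀ r ∈ uIcc 0 t, HasDerivAt (fun a => D (a, r)) (A r) (t - r))
    (h2 : ∀ r ∈ uIcc 0 t, HasDerivAt (fun c => D (t - r, c)) (A r) r) :
    D (t, 0) = D (0, t) := by
  have hder : ∀ r ∈ uIcc 0 t, HasDerivAt (fun r => D (t - r, r)) 0 r := by
    intro r hr
    have e1 : fderiv ℝ D (t - r, r) (1, 0) = A r :=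
      (((hD (t - r, r)).hasFDerivAt.comp_hasDerivAt (t - r)
        ((hasDerivAt_id (t - r)).prodMk (hasDerivAt_const (t - r) r)))).unique (h1 r hr)
    have e2 : fderiv ℝ D (t - r, r) (0, 1) = A r :=
      (((hD (t - r, r)).hasFDerivAt.comp_hasDerivAt r
        ((hasDerivAt_const r (t - r)).prodMk (hasDerivAt_id r)))).unique (h2 r hr)
    have h3 : HasDerivAt (fun r : ℝ => ((t - r, r) : ℝ × ℝ)) (-1, 1) r := by
      have := ((hasDerivAt_id r).const_sub t).prodMk (hasDerivAt_id r)
      exact this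
    have h4 : HasDerivAt (fun r => D (t - r, r)) (fderiv ℝ D (t - r, r) (-1, 1)) r :=
      HasFDerivAt.comp_hasDerivAt (f := fun r : ℝ => ((t - r, r) : ℝ × ℝ)) r
        (hD (t - r, r)).hasFDerivAt h3
    refine h4.congr_deriv ?_
    have h5 : ((-1, 1) : ℝ × ℝ) = (-1 : ℝ) • ((1, 0) : ℝ × ℝ) + ((0, 1) : ℝ × ℝ) := by
      ext <;> simp
    rw [h5, map_add, map_smul, e1, e2]
    simp
  have hc : ∀ r ∈ uIcc 0 t, (fun r => D (t - r, r)) r = (fun r => D (t - r, r)) 0 := by
    intro r hr
    have hconv : Convex ℝ (uIcc 0 t) := convex_uIcc 0 t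
    have h6 := hconv.norm_image_sub_le_of_norm_hasDerivWithin_le (f := fun r => D (t - r, r))
      (f' := fun _ => (0 : ℝ)) (C := 0) (fun y hy => (hder y hy).hasDerivWithinAt)
      (fun y _ => by simp) (left_mem_uIcc) hr
    rw [zero_mul] at h6
    exact sub_eq_zero.1 (norm_le_zero_iff.1 h6)
  have h7 := hc t right_mem_uIcc
  simp only [sub_self, sub_zero] at h7
  exact h7.symm

/-- the inequality of Gronwall for nonnegative functions vanishing at zero -/
theorem gron {u u' : ℝ → ℝ} {K : ℝ} (hu : ∀ t, HasDerivAt u (u' t) t) (h0 : u 0 = 0)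
    (hnn : ∀ t, 0 ≤ u t) (hK : ∀ t, |u' t| ≤ K * u t) (t : ℝ) : u t = 0 := by
  refine le_antisymm ?_ (hnn t)
  rcases le_total 0 t with ht | ht
  · have h1 : ∀ t, HasDerivAt (fun t => u t * Real.exp (-(K * t)))
        (u' t * Real.exp (-(K * t)) + u t * (Real.exp (-(K * t)) * (-K))) t := by
      intro t
      have h2 : HasDerivAt (fun t : ℝ => -(K * t)) (-K) t := by
        have h8 : (fun t : ℝ => -(K * t)) = fun t => (-K) * t := by
          funext s
          ring
        rw [h8]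
        simpa using (hasDerivAt_id t).const_mul (-K)
      exact (hu t).mul h2.exp
    have h3 : Antitone (fun t => u t * Real.exp (-(K * t))) := by
      refine antitone_of_deriv_nonpos (fun t => (h1 t).differentiableAt) fun t => ?_
      rw [(h1 t).deriv]
      have h4 := (abs_le.1 (hK t)).2
      have h5 := Real.exp_pos (-(K * t))
      have h6 : u' t * Real.exp (-(K * t)) + u t * (Real.exp (-(K * t)) * (-K)) =
        (u' t - K * u t) * Real.exp (-(K * t)) := by ring
      rw [h6]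
      exact mul_nonpos_of_nonpos_of_nonneg (by linarith) h5.le
    have h7 := h3 ht
    simp only [h0, zero_mul] at h7
    exact nonpos_of_mul_nonpos_left h7 (Real.exp_pos _)
  · have h1 : ∀ t, HasDerivAt (fun t => u t * Real.exp (K * t))
        (u' t * Real.exp (K * t) + u t * (Real.exp (K * t) * K)) t := by
      intro t
      have h2 : HasDerivAt (fun t : ℝ => K * t) K t := by
        have := (hasDerivAt_id t).const_mul K
        simpa using this
      exact (hu t).mul h2.exp
    have h3 : Monotone (fun t => u t * Real.exp (K * t)) := by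
      refine monotone_of_deriv_nonneg (fun t => (h1 t).differentiableAt) fun t => ?_
      rw [(h1 t).deriv]
      have h4 := (abs_le.1 (hK t)).1
      have h5 := Real.exp_pos (K * t)
      have h6 : u' t * Real.exp (K * t) + u t * (Real.exp (K * t) * K) =
        (u' t + K * u t) * Real.exp (K * t) := by ring
      rw [h6]
      exact mul_nonneg (by linarith) h5.le
    have h7 := h3 ht
    simp only [h0, zero_mul] at h7
    exact nonpos_of_mul_nonpos_left h7 (Real.exp_pos _)

end Run7.h752.LF
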