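import Pool.Agent.Run7.h752.LF.Lin
import Pool.Agent.Run7.h752.LF.Swap
import Pool.Agent.Run7.h752.SC.Cur

/-!
Smooth flows in terms of their action on functions: transport of a vector field, and invariance of
supports of measures.
-/

set_option autoImplicit false

open Set Filter Topology MeasureTheory
open scoped Manifold ContDiff

noncomputable section

namespace Run7.h752.LF

open Pool.Agent.Y501.SY Pool.Agent.R772 Run7.h752.SC

section

variable {d : ℕ} {X : Type} [TopologicalSpace X] [ChartedSpace (E d) X]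

/-- a smooth flow with generator `W` -/
structure FlowOp (W : (X → ℝ) → X → ℝ) (φ : ℝ → X → X) : Prop where
  smooth : ContMDiff (𝓘(ℝ, ℝ).prod (𝓡 d)) (𝓡 d) ∞ (fun p : ℝ × X => φ p.1 p.2)
  zero : ∀ x, φ 0 x = x
  add : ∀ s t x, φ (s + t) x = φ s (φ t x)
  op : ∀ F : X → ℝ, SmoothFun (d := d) F → SmoothFun (d := d) (W F)
  deriv : ∀ F : X → ℝ, SmoothFun (d := d) F → ∀ x t,
    HasDerivAt (fun t => F (φ t x)) (W F (φ t x)) t

variable {W : (X → ℝ) → X → ℝ} {φ : ℝ → X → X}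

theorem FlowOp.smooth_t (h : FlowOp (d := d) W φ) (t : ℝ) {F : X → ℝ}
    (hF : SmoothFun (d := d) F) : SmoothFun (d := d) (fun x => F (φ t x)) := by
  have h1 : ContMDiff (𝓡 d) (𝓘(ℝ, ℝ).prod (𝓡 d)) ∞ (fun x : X => (t, x)) :=
    contMDiff_const.prodMk contMDiff_id
  exact hF.comp (h.smooth.comp h1)

theorem FlowOp.comm (h : FlowOp (d := d) W φ) (t : ℝ) {F : X → ℝ}
    (hF : SmoothFun (d := d) F) (x : X) : W (fun x => F (φ t x)) x = W F (φ t x) := by
  have h1 := h.deriv _ (h.smooth_t t hF) x 0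
  rw [h.zero] at h1
  have h2 : HasDerivAt (fun s : ℝ => t + s) 1 0 := by
    simpa using (hasDerivAt_id (0 : ℝ)).const_add t
  have h3 : HasDerivAt (fun s : ℝ => F (φ (t + s) x)) (W F (φ (t + 0) x) * 1) 0 :=
    HasDerivAt.comp (h₂ := fun s => F (φ s x)) (0 : ℝ) (h.deriv F hF x (t + 0)) h2
  have h4 : (fun s : ℝ => F (φ (t + s) x)) = fun s => F (φ t (φ s x)) := by
    funext s
    rw [h.add]
  rw [h4, mul_one, add_zero] at h3
  exact h1.unique h3

theorem FlowOp.cmp (h : FlowOp (d := d) W φ) {N : Type} [NormedAddCommGroup N] [NormedSpace ℝ N]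
    {f : N → ℝ} {g : N → X} (hf : ContDiff ℝ ∞ f) (hg : ContMDiff 𝓘(ℝ, N) (𝓡 d) ∞ g) :
    ContMDiff 𝓘(ℝ, N) (𝓡 d) ∞ (fun p => φ (f p) (g p)) :=
  h.smooth.comp (hf.contMDiff.prodMk hg)

/-- transport of a vector field by a flow commuting with it along a flow line -/
theorem transport {W₁ W₂ : (X → ℝ) → X → ℝ} {φ₁ φ₂ : ℝ → X → X} (h₁ : FlowOp (d := d) W₁ φ₁)
    (h₂ : FlowOp (d := d) W₂ φ₂) {q : X} {t : ℝ}
    (hc : ∀ r ∈ uIcc 0 t, ∀ G : X → ℝ, SmoothFun (d := d) G →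
      W₁ (W₂ G) (φ₂ r q) = W₂ (W₁ G) (φ₂ r q))
    {G : X → ℝ} (hG : SmoothFun (d := d) G) :
    W₁ (fun x => G (φ₂ t x)) q = W₁ G (φ₂ t q) := by
  let D : ℝ × ℝ → ℝ := fun p => W₁ (fun x => G (φ₂ p.1 x)) (φ₂ p.2 q)
  let T : ℝ × ℝ × ℝ → ℝ := fun p => G (φ₂ p.1 (φ₁ p.2.1 (φ₂ p.2.2 q)))
  have hT : ContDiff ℝ ∞ T := by
    have h1 : ContMDiff 𝓘(ℝ, ℝ × ℝ × ℝ) (𝓡 d) ∞ (fun _ : ℝ × ℝ × ℝ => q) := contMDiff_const
    have h2 := h₂.cmp (contDiff_snd.comp contDiff_snd : ContDiff ℝ ∞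
      (fun p : ℝ × ℝ × ℝ => p.2.2)) h1
    have h3 := h₁.cmp (contDiff_fst.comp contDiff_snd : ContDiff ℝ ∞
      (fun p : ℝ × ℝ × ℝ => p.2.1)) h2
    have h4 := h₂.cmp (contDiff_fst : ContDiff ℝ ∞ (fun p : ℝ × ℝ × ℝ => p.1)) h3
    exact contMDiff_iff_contDiff.1 (hG.comp h4)
  have hTd : Differentiable ℝ T := hT.differentiable (by simp)
  have hTf : Differentiable ℝ (fderiv ℝ T) :=
    (hT.fderiv_right (m := ∞) (by simp)).differentiable (by simp)
  have hDe : D = fun p : ℝ × ℝ => fderiv ℝ T (p.1, 0, p.2) (0, 1, 0) := by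
    funext p
    have h1 : HasDerivAt (fun b : ℝ => ((p.1, b, p.2) : ℝ × ℝ × ℝ)) (0, 1, 0) 0 :=
      (hasDerivAt_const (0 : ℝ) p.1).prodMk ((hasDerivAt_id (0 : ℝ)).prodMk
        (hasDerivAt_const (0 : ℝ) p.2))
    have h2 : HasDerivAt (fun b : ℝ => T (p.1, b, p.2)) (fderiv ℝ T (p.1, 0, p.2) (0, 1, 0)) 0 :=
      HasFDerivAt.comp_hasDerivAt (f := fun b : ℝ => ((p.1, b, p.2) : ℝ × ℝ × ℝ)) (0 : ℝ)
        (hTd (p.1, 0, p.2)).hasFDerivAt h1
    have h3 := h₁.deriv _ (h₂.smooth_t p.1 hG) (φ₂ p.2 q) 0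
    rw [h₁.zero] at h3
    exact h3.unique h2
  have hD : Differentiable ℝ D := by
    rw [hDe]
    have h1 : Differentiable ℝ (fun p : ℝ × ℝ => ((p.1, 0, p.2) : ℝ × ℝ × ℝ)) :=
      differentiable_fst.prodMk ((differentiable_const _).prodMk differentiable_snd)
    exact (hTf.comp h1).clm_apply (differentiable_const _)
  have key := antidiag hD (A := fun r => W₂ (W₁ (fun x => G (φ₂ (t - r) x))) (φ₂ r q)) t
    (by
      intro r hr
      have hH : ContDiff ℝ ∞ (fun p : ℝ × ℝ => G (φ₂ p.1 (φ₁ p.2 (φ₂ r q)))) := by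
        have h1 : ContMDiff 𝓘(ℝ, ℝ × ℝ) (𝓡 d) ∞ (fun _ : ℝ × ℝ => φ₂ r q) := contMDiff_const
        have h2 := h₁.cmp (contDiff_snd : ContDiff ℝ ∞ (fun p : ℝ × ℝ => p.2)) h1
        have h3 := h₂.cmp (contDiff_fst : ContDiff ℝ ∞ (fun p : ℝ × ℝ => p.1)) h2
        exact contMDiff_iff_contDiff.1 (hG.comp h3)
      have h1 := swap hH (D := fun a => W₁ (fun x => G (φ₂ a x)) (φ₂ r q))
        (P := fun a b => W₂ (fun x => G (φ₂ a x)) (φ₁ b (φ₂ r q)))
        (Q := fun a => W₁ (W₂ (fun x => G (φ₂ a x))) (φ₂ r q)) (t - r)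
        (fun a => by
          have h3 := h₁.deriv _ (h₂.smooth_t a hG) (φ₂ r q) 0
          rw [h₁.zero] at h3
          exact h3)
        (fun a b => by
          have h3 := h₂.deriv G hG (φ₁ b (φ₂ r q)) a
          rw [← h₂.comm a hG] at h3
          exact h3)
        (fun a => by
          have h3 := h₁.deriv _ (h₂.op _ (h₂.smooth_t a hG)) (φ₂ r q) 0
          rw [h₁.zero] at h3
          exact h3)
      have h2 := hc r hr _ (h₂.smooth_t (t - r) hG)
      rw [h2] at h1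
      exact h1)
    (by
      intro r _
      exact h₂.deriv _ (h₁.op _ (h₂.smooth_t (t - r) hG)) q r)
  have h5 : D (t, 0) = W₁ (fun x => G (φ₂ t x)) q := by
    change W₁ (fun x => G (φ₂ t x)) (φ₂ 0 q) = _
    rw [h₂.zero]
  have h6 : D (0, t) = W₁ G (φ₂ t q) := by
    change W₁ (fun x => G (φ₂ 0 x)) (φ₂ t q) = _
    have : (fun x => G (φ₂ 0 x)) = G := by
      funext x
      rw [h₂.zero]
    rw [this]
  rw [← h5, ← h6]
  exact key

variable [IsManifold (𝓡 d) ∞ X] [CompactSpace X] [T2Space X] [MeasurableSpace X] [BorelSpace X]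

omit [MeasurableSpace X] [BorelSpace X] [CompactSpace X] in
theorem exists_bump {C : Set X} (hC : IsClosed C) {y : X} (hy : y ∉ C) :
    ∃ F : X → ℝ, SmoothFun (d := d) F ∧ (∀ x, 0 ≤ F x) ∧ F y = 1 ∧ (∀ x ∈ C, F x = 0) ∧
      ∀ᶠ x in 𝓝 y, F x = 1 := by
  have h1 : Cᶜ ∈ 𝓝 y := hC.isOpen_compl.mem_nhds hy
  obtain ⟨b, -, hb⟩ := (SmoothBumpFunction.nhds_basis_tsupport (I := 𝓡 d) y).mem_iff.1 h1
  refine ⟨b, b.contMDiff, fun x => b.nonneg, b.eq_one, fun x hx => ?_, b.eventuallyEq_one⟩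
  by_contra hne
  exact hb (subset_tsupport _ hne) hx

theorem inv (h : FlowOp (d := d) W φ) (μ : Measure X) [IsFiniteMeasure μ] {w c : X → ℝ}
    (hw : Continuous w) (hc : Continuous c) (hw0 : ∀ x, 0 ≤ w x) {K : ℝ}
    (hK : ∀ x, |c x| ≤ K * w x)
    (hint : ∀ F : X → ℝ, SmoothFun (d := d) F → ∫ x, W F x * w x ∂μ = - ∫ x, F x * c x ∂μ)
    {z : X} (hz : z ∈ supp μ) (hwz : 0 < w z) (t : ℝ) : φ t z ∈ supp μ := by
  have : TopologicalSpace.MetrizableSpace X := Manifold.metrizableSpace (𝓡 d) X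
  by_contra hcon
  obtain ⟨F, hF, hF0, hF1, hFC, -⟩ := exists_bump (d := d) (isClosed_supp μ) hcon
  have hcont : Continuous (fun p : ℝ × X => φ p.1 p.2) := h.smooth.continuous
  have hct : ∀ s, Continuous (φ s) := fun s => hcont.comp (Continuous.prodMk_right s)
  have hWF := h.op F hF
  obtain ⟨A, hA⟩ := (isCompact_univ (X := X)).exists_bound_of_continuousOn
    hWF.continuous.continuousOn
  obtain ⟨B, hB⟩ := (isCompact_univ (X := X)).exists_bound_of_continuousOn hw.continuousOn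
  let u : ℝ → ℝ := fun s => ∫ x, F (φ s x) * w x ∂μ
  let u' : ℝ → ℝ := fun s => ∫ x, W F (φ s x) * w x ∂μ
  have hu : ∀ s, HasDerivAt u (u' s) s := by
    intro s
    refine (hasDerivAt_integral_of_dominated_loc_of_deriv_le (μ := μ) (s := univ)
      (F := fun s x => F (φ s x) * w x) (F' := fun s x => W F (φ s x) * w x)
      (bound := fun _ => A * B) univ_mem ?_ ?_ ?_ ?_ (integrable_const _) ?_).2
    · exact Eventually.of_forall fun r =>
        ((hF.continuous.comp (hct r)).mul hw).aestronglyMeasurable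
    · exact integ ((hF.continuous.comp (hct s)).mul hw)
    · exact ((hWF.continuous.comp (hct s)).mul hw).aestronglyMeasurable
    · refine Eventually.of_forall fun x r _ => ?_
      rw [norm_mul]
      exact mul_le_mul (hA _ (mem_univ _)) (hB _ (mem_univ _)) (norm_nonneg _)
        ((norm_nonneg _).trans (hA x (mem_univ _)))
    · exact Eventually.of_forall fun x r _ => (h.deriv F hF x r).mul_const _
  have hu' : ∀ s, u' s = - ∫ x, F (φ s x) * c x ∂μ := by
    intro s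
    rw [← hint _ (h.smooth_t s hF)]
    refine integral_congr_ae (Eventually.of_forall fun x => ?_)
    change W F (φ s x) * w x = W (fun x => F (φ s x)) x * w x
    rw [h.comm s hF]
  have hnn : ∀ s, 0 ≤ u s := fun s => integral_nonneg fun x => mul_nonneg (hF0 _) (hw0 x)
  have hbd : ∀ s, |u' s| ≤ K * u s := by
    intro s
    rw [hu' s, abs_neg, ← Real.norm_eq_abs]
    refine (norm_integral_le_integral_norm _).trans ?_
    have e1 : K * u s = ∫ x, K * (F (φ s x) * w x) ∂μ := (integral_const_mul _ _).symm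
    rw [e1]
    refine integral_mono (integ ?_) (integ ?_) fun x => ?_
    · exact ((hF.continuous.comp (hct s)).mul hc).norm
    · exact continuous_const.mul ((hF.continuous.comp (hct s)).mul hw)
    · change ‖F (φ s x) * c x‖ ≤ K * (F (φ s x) * w x)
      rw [norm_mul, Real.norm_eq_abs, Real.norm_eq_abs, abs_of_nonneg (hF0 _)]
      have := mul_le_mul_of_nonneg_left (hK x) (hF0 (φ s x))
      linarith
  have hu0 : u 0 = 0 := by
    refine integral_eq_zero_of_ae ?_
    filter_upwards [measure_eq_zero_iff_ae_notMem.1 (supp_compl μ)] with x hx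
    rw [mem_compl_iff, not_not] at hx
    change F (φ 0 x) * w x = 0
    rw [h.zero, hFC x hx, zero_mul]
  have hut := gron hu hu0 hnn hbd t
  have hq : Continuous fun x => F (φ t x) * w x := (hF.continuous.comp (hct t)).mul hw
  have hae := (integral_eq_zero_iff_of_nonneg (fun x => mul_nonneg (hF0 _) (hw0 x))
    (integ hq)).1 hut
  refine hz (Function.support fun x => F (φ t x) * w x) hq.isOpen_support ?_ ?_
  · rw [Function.mem_support, hF1, one_mul]
    exact hwz.ne'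
  · refine measure_eq_zero_iff_ae_notMem.2 ?_
    filter_upwards [hae] with y hy
    rw [Function.mem_support, not_not]
    exact hy

end

end Run7.h752.LF
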