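import Pool.Agent.Run7.h752.LF.Const

/-!
Closed currents are locally integrals of discs tangent to the kernel: the flows commute on the
support, and the local product structure.
-/

set_option autoImplicit false

open Set Filter Topology MeasureTheory
open scoped Manifold ContDiff

noncomputable section

namespace Run7.h752.LF

open Pool.Agent.Y501.SY Pool.Agent.R772 Run7.h752.SC

section

variable {d m : ℕ} {X : Type} [TopologicalSpace X] [ChartedSpace (E d) X]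

/-- further properties of the two flows -/
structure Der [MeasurableSpace X] (vol : Top d m X) (σ : Form d X 2) (a b : X → ℝ)
    (N : Set X) (W₁ W₂ : (X → ℝ) → X → ℝ) (φ₁ φ₂ : ℝ → X → X) : Prop where
  der : ∀ μ : Measure X, IsCurr vol σ μ → ∀ x ∈ N, x ∈ supp μ → ∀ p : ℝ × ℝ,
    φ₁ p.1 x ∈ N → (∀ r ∈ uIcc 0 p.2, φ₂ r (φ₁ p.1 x) ∈ N) →
    ∀ G : X → ℝ, SmoothFun (d := d) G →
      HasDerivAt (fun s => G (φ₂ p.2 (φ₁ s x))) (W₁ G (φ₂ p.2 (φ₁ p.1 x))) p.1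
  tan : ∀ μ : Measure X, IsCurr vol σ μ → ∀ x ∈ N, x ∈ supp μ → ∀ p : ℝ × ℝ,
    φ₁ p.1 x ∈ N → (∀ r ∈ uIcc 0 p.2, φ₂ r (φ₁ p.1 x) ∈ N) →
    ∀ G : X → ℝ, SmoothFun (d := d) G → ∀ v : TangentSpace 𝓘(ℝ, ℝ × ℝ) p,
      dd (d := d) G (φ₂ p.2 (φ₁ p.1 x)) (mfderiv 𝓘(ℝ, ℝ × ℝ) (𝓡 d)
        (fun p : ℝ × ℝ => φ₂ p.2 (φ₁ p.1 x)) p v) =
      (show ℝ × ℝ from v).1 * W₁ G (φ₂ p.2 (φ₁ p.1 x)) +
        (show ℝ × ℝ from v).2 * W₂ G (φ₂ p.2 (φ₁ p.1 x))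
  spec₁ : ∀ x ∈ N, ∀ G : X → ℝ, W₁ G x * bf vol σ a b x = bf vol σ G b x
  spec₂ : ∀ x ∈ N, ∀ G : X → ℝ, W₂ G x * bf vol σ a b x = - bf vol σ G a x

variable [IsManifold (𝓡 d) ∞ X] [CompactSpace X] [T2Space X] [MeasurableSpace X] [BorelSpace X]

theorem exists_packD (hd : d = 2 * (m + 1)) {vol : Top d m X} (hvol : IsVol vol)
    {σ : Form d X 2} (hσ : IsSmooth σ) (hnn : ∀ x, NonnegTop vol σ x) {z : X}
    (hr : ∃ (τ : (TangentSpace (𝓡 d) z) [⋀^Fin 2]→L[ℝ] ℝ)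
      (e : Fin (m + 1) × Fin 2 → TangentSpace (𝓡 d) z),
      Pool.Agent.R772.wedge (Fin.cons τ (fun _ : Fin m => σ z)) e ≠ 0) :
    ∃ (a b : X → ℝ) (N : Set X) (W₁ W₂ : (X → ℝ) → X → ℝ) (φ₁ φ₂ : ℝ → X → X),
      Pack vol σ z a b N W₁ W₂ φ₁ φ₂ ∧ Der vol σ a b N W₁ W₂ φ₁ φ₂ := by
  have hsub : ∀ μ : Measure X, IsCurr vol σ μ → supp μ ⊆ {x | ¬ PosTop vol σ x} := by
    intro μ hμ x hx hcon
    exact hx _ (isOpen_posTop hd hvol hσ) hcon hμ.car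
  obtain ⟨a, b, ha, hb, hab⟩ := exists_ab hd hvol z hr
  have hcab := bf_cont hd hvol hσ ha hb
  have hU : IsOpen {x | 0 < bf vol σ a b x} := isOpen_lt continuous_const hcab
  obtain ⟨χ, -, hχt⟩ := (SmoothBumpFunction.nhds_basis_tsupport (I := 𝓡 d) z).mem_iff.1
    (hU.mem_nhds hab)
  have hχ : SmoothFun (d := d) (fun x => χ x) := χ.contMDiff
  obtain ⟨N, hNχ, hN, hzN⟩ := mem_nhds_iff.1 χ.eventuallyEq_one
  have hχN : ∀ x ∈ N, χ x = 1 := fun x hx => hNχ hx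
  have hNt : ∀ x ∈ N, x ∈ tsupport χ := fun x hx => subset_tsupport _ (by
    rw [Function.mem_support, hχN x hx]; exact one_ne_zero)
  have hne : ∀ x ∈ tsupport (fun x => χ x), bf vol σ a b x ≠ 0 := fun x hx =>
    (show 0 < bf vol σ a b x from hχt hx).ne'
  have hne' : ∀ x ∈ tsupport (fun x => χ x), bf vol σ b a x ≠ 0 := fun x hx h0 => by
    rw [bf_swap hd hvol] at h0
    exact hne x hx (neg_eq_zero.1 h0)
  have hs1 : ∀ x ∈ tsupport (fun x => χ x), |bf vol σ a b x| = 1 * bf vol σ a b x :=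
    fun x hx => by
      rw [one_mul]
      exact abs_of_pos (hχt hx)
  have hs2 : ∀ x ∈ tsupport (fun x => χ x), |bf vol σ b a x| = (-1) * bf vol σ b a x :=
    fun x hx => by
      have h1 : 0 < bf vol σ a b x := hχt hx
      rw [bf_swap hd hvol σ b a, abs_neg, abs_of_pos h1]
      ring
  obtain ⟨φ₁, h₁⟩ := op_flow hd hvol hσ hχ ha hb hne
  obtain ⟨φ₂, h₂⟩ := op_flow hd hvol hσ hχ hb ha hne'
  have f1 : ∀ x ∈ N, op vol σ χ a b a x = 1 := fun x hx => by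
    unfold op
    rw [hχN _ hx, div_self (hne _ (hNt x hx)), one_mul]
  have f2 : ∀ x ∈ N, op vol σ χ b a a x = 0 := fun x hx => by
    unfold op
    rw [bf_self hd hvol, zero_div, mul_zero]
  have f3 : ∀ x ∈ N, op vol σ χ a b b x = 0 := fun x hx => by
    unfold op
    rw [bf_self hd hvol, zero_div, mul_zero]
  have f4 : ∀ x ∈ N, op vol σ χ b a b x = 1 := fun x hx => by
    unfold op
    rw [hχN _ hx, div_self (hne' _ (hNt x hx)), one_mul]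
  have i1 : ∀ μ : Measure X, IsCurr vol σ μ → ∀ x ∈ N, x ∈ supp μ → ∀ t, φ₁ t x ∈ supp μ :=
    fun μ hμ x hxN hx t => inv_op hd hvol hσ hμ hχ ha hb hne (by simp) hs1 h₁ hx
      (hne _ (hNt x hxN)) t
  have i2 : ∀ μ : Measure X, IsCurr vol σ μ → ∀ x ∈ N, x ∈ supp μ → ∀ t, φ₂ t x ∈ supp μ :=
    fun μ hμ x hxN hx t => inv_op hd hvol hσ hμ hχ hb ha hne' (by simp) hs2 h₂ hx
      (hne' _ (hNt x hxN)) t
  have hdd : ∀ F : X → ℝ, ∀ x, x ∉ tsupport F → dd (d := d) F x = 0 := fun F x hx =>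
    dd_zero_of_nhds (by
      filter_upwards [(isClosed_tsupport F).isOpen_compl.mem_nhds hx] with y hy
      exact image_eq_zero_of_notMem_tsupport hy)
  have d1 : ∀ μ : Measure X, IsCurr vol σ μ → ∀ F : X → ℝ, SmoothFun (d := d) F →
      tsupport F ⊆ N → ∫ x, op vol σ χ a b F x * bf vol σ a b x ∂μ = 0 := by
    intro μ hμ F hF hFN
    rw [← bf_int hμ hF hb]
    refine integral_congr_ae (Eventually.of_forall fun x => ?_)
    change χ x * (bf vol σ F b x / bf vol σ a b x) * bf vol σ a b x = bf vol σ F b x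
    by_cases hx : x ∈ tsupport F
    · have := hne x (hNt x (hFN hx))
      rw [hχN x (hFN hx)]
      field_simp
    · rw [bf_zero hd hvol σ F b x (hdd F x hx)]
      ring
  have d2 : ∀ μ : Measure X, IsCurr vol σ μ → ∀ F : X → ℝ, SmoothFun (d := d) F →
      tsupport F ⊆ N → ∫ x, op vol σ χ b a F x * bf vol σ a b x ∂μ = 0 := by
    intro μ hμ F hF hFN
    rw [← neg_zero, ← bf_int hμ hF ha, ← integral_neg]
    refine integral_congr_ae (Eventually.of_forall fun x => ?_)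
    change χ x * (bf vol σ F a x / bf vol σ b a x) * bf vol σ a b x = - bf vol σ F a x
    by_cases hx : x ∈ tsupport F
    · have := hne x (hNt x (hFN hx))
      rw [hχN x (hFN hx), bf_swap hd hvol σ b a]
      field_simp
    · rw [bf_zero hd hvol σ F a x (hdd F x hx)]
      ring
  have s1 : ∀ x ∈ N, ∀ G : X → ℝ, op vol σ χ a b G x * bf vol σ a b x = bf vol σ G b x := by
    intro x hx G
    change χ x * (bf vol σ G b x / bf vol σ a b x) * bf vol σ a b x = bf vol σ G b x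
    have := hne x (hNt x hx)
    rw [hχN x hx]
    field_simp
  have s2 : ∀ x ∈ N, ∀ G : X → ℝ, op vol σ χ b a G x * bf vol σ a b x = - bf vol σ G a x := by
    intro x hx G
    change χ x * (bf vol σ G a x / bf vol σ b a x) * bf vol σ a b x = - bf vol σ G a x
    have := hne x (hNt x hx)
    rw [hχN x hx, bf_swap hd hvol σ b a]
    field_simp
  have hD1 : ∀ μ : Measure X, IsCurr vol σ μ → ∀ x ∈ N, x ∈ supp μ → ∀ p : ℝ × ℝ,
      φ₁ p.1 x ∈ N → (∀ r ∈ uIcc 0 p.2, φ₂ r (φ₁ p.1 x) ∈ N) →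
      ∀ G : X → ℝ, SmoothFun (d := d) G →
      HasDerivAt (fun s => G (φ₂ p.2 (φ₁ s x))) (op vol σ χ a b G (φ₂ p.2 (φ₁ p.1 x))) p.1 := by
    intro μ hμ x hxN hx p hp1 hp2 G hG
    have hqr : ∀ r, φ₂ r (φ₁ p.1 x) ∈ supp μ := i2 μ hμ _ hp1 (i1 μ hμ x hxN hx p.1)
    have e1 := h₁.deriv _ (h₂.smooth_t p.2 hG) x p.1
    rw [transport h₁ h₂ (q := φ₁ p.1 x) (t := p.2) (fun r hr G hG =>
      commute hd hvol hσ hnn hμ (hsub μ hμ) hχ ha hb hne hN hχN (hp2 r hr) (hqr r) hG) hG] at e1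
    exact e1
  have hT : ∀ μ : Measure X, IsCurr vol σ μ → ∀ x ∈ N, x ∈ supp μ → ∀ p : ℝ × ℝ,
      φ₁ p.1 x ∈ N → (∀ r ∈ uIcc 0 p.2, φ₂ r (φ₁ p.1 x) ∈ N) →
      ∀ G : X → ℝ, SmoothFun (d := d) G → ∀ v : TangentSpace 𝓘(ℝ, ℝ × ℝ) p,
      dd (d := d) G (φ₂ p.2 (φ₁ p.1 x)) (mfderiv 𝓘(ℝ, ℝ × ℝ) (𝓡 d)
        (fun p : ℝ × ℝ => φ₂ p.2 (φ₁ p.1 x)) p v) =
      (show ℝ × ℝ from v).1 * op vol σ χ a b G (φ₂ p.2 (φ₁ p.1 x)) +
        (show ℝ × ℝ from v).2 * op vol σ χ b a G (φ₂ p.2 (φ₁ p.1 x)) := by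
    intro μ hμ x hxN hx p hp1 hp2 G hG v
    have hg1 : ContMDiff 𝓘(ℝ, ℝ × ℝ) (𝓡 d) ∞ (fun p : ℝ × ℝ => φ₁ p.1 x) :=
      h₁.cmp (contDiff_fst : ContDiff ℝ ∞ (fun p : ℝ × ℝ => p.1)) contMDiff_const
    have hg : ContMDiff 𝓘(ℝ, ℝ × ℝ) (𝓡 d) ∞ (fun p : ℝ × ℝ => φ₂ p.2 (φ₁ p.1 x)) :=
      h₂.cmp (contDiff_snd : ContDiff ℝ ∞ (fun p : ℝ × ℝ => p.2)) hg1
    exact dd_comp hG hg p (hD1 μ hμ x hxN hx p hp1 hp2 G hG) (h₂.deriv G hG (φ₁ p.1 x) p.2) v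
  refine ⟨a, b, N, _, _, φ₁, φ₂, ⟨ha, hb, hN, hzN, h₁, h₂, f1, f3, f2, f4, i1, i2, ?_,
    fun x hx => hχt (hNt x hx), hcab, d1, d2⟩, ⟨hD1, hT, s1, s2⟩⟩
  intro μ hμ x hxN hx p hp1 hp2
  have hq : φ₁ p.1 x ∈ supp μ := i1 μ hμ x hxN hx p.1
  have hqr : ∀ r, φ₂ r (φ₁ p.1 x) ∈ supp μ := i2 μ hμ _ hp1 hq
  have hgN : φ₂ p.2 (φ₁ p.1 x) ∈ N := hp2 _ right_mem_uIcc
  have hmf := hT μ hμ x hxN hx p hp1 hp2
  refine ⟨fun v hv => ?_, fun v w => ?_⟩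
  · have e1 := hmf a ha v
    have e2 := hmf b hb v
    rw [f1 _ hgN, f2 _ hgN, mul_one, mul_zero, add_zero, hv, map_zero] at e1
    rw [f3 _ hgN, f4 _ hgN, mul_one, mul_zero, zero_add, hv, map_zero] at e2
    exact Prod.ext e1.symm e2.symm
  · obtain ⟨l, hl⟩ : ∃ l : TangentSpace (𝓡 d) (φ₂ p.2 (φ₁ p.1 x)) →L[ℝ] ℝ,
      ∀ v, l v = σ (φ₂ p.2 (φ₁ p.1 x)) ![v, w] := exists_left (V := E d) _ w
    obtain ⟨G, hG, hGl⟩ := exists_fun (d := d) (φ₂ p.2 (φ₁ p.1 x)) l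
    have e1 := hmf G hG v
    have e2 : ∀ c : X → ℝ, bf vol σ G c (φ₂ p.2 (φ₁ p.1 x)) = 0 := fun c =>
      bf_ker hd hvol (hnn _) (hsub μ hμ (hqr p.2)) fun u hu => by
        rw [hGl, hl]
        exact hu w
    have e3 : op vol σ χ a b G (φ₂ p.2 (φ₁ p.1 x)) = 0 := by
      unfold op
      rw [e2, zero_div, mul_zero]
    have e4 : op vol σ χ b a G (φ₂ p.2 (φ₁ p.1 x)) = 0 := by
      unfold op
      rw [e2, zero_div, mul_zero]
    rw [e3, e4, mul_zero, mul_zero, add_zero, hGl, hl] at e1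
    exact e1


omit [CompactSpace X] [BorelSpace X] in
/-- the flows commute on the supports of closed currents -/
theorem Pack.comm {vol : Top d m X} {σ : Form d X 2} {z : X} {a b : X → ℝ}
    {N : Set X} {W₁ W₂ : (X → ℝ) → X → ℝ} {φ₁ φ₂ : ℝ → X → X}
    (P : Pack vol σ z a b N W₁ W₂ φ₁ φ₂) (D : Der vol σ a b N W₁ W₂ φ₁ φ₂)
    {ε : ℝ} {N' U : Set X} (hN' : N' ⊆ N) (B : Box a b φ₁ φ₂ N' ε U)
    {μ : Measure X} (hμ : IsCurr vol σ μ) {x : X} (hxU : x ∈ U) (hx : x ∈ supp μ) {s t : ℝ}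
    (hs : |s| < ε) (ht : |t| < ε) : φ₁ s (φ₂ t x) = φ₂ t (φ₁ s x) := by
  by_contra hne
  obtain ⟨G, hG, -, hG1, hG0, -⟩ := exists_bump (d := d)
    (isClosed_singleton (x := φ₂ t (φ₁ s x))) (y := φ₁ s (φ₂ t x)) hne
  have hH : ContDiff ℝ ∞ (fun p : ℝ × ℝ => G (φ₁ p.1 (φ₂ t (φ₁ p.2 x)))) := by
    have h1 : ContMDiff 𝓘(ℝ, ℝ × ℝ) (𝓡 d) ∞ (fun _ : ℝ × ℝ => x) := contMDiff_const
    have h2 := P.f₁.cmp (contDiff_snd : ContDiff ℝ ∞ (fun p : ℝ × ℝ => p.2)) h1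
    have h3 := P.f₂.cmp (contDiff_const : ContDiff ℝ ∞ (fun _ : ℝ × ℝ => t)) h2
    have h4 := P.f₁.cmp (contDiff_fst : ContDiff ℝ ∞ (fun p : ℝ × ℝ => p.1)) h3
    exact contMDiff_iff_contDiff.1 (hG.comp h4)
  have key := antidiag (D := fun p : ℝ × ℝ => G (φ₁ p.1 (φ₂ t (φ₁ p.2 x))))
    (hH.differentiable (by simp)) (A := fun r => W₁ G (φ₁ (s - r) (φ₂ t (φ₁ r x)))) s
    (fun r _ => P.f₁.deriv G hG (φ₂ t (φ₁ r x)) (s - r))
    (fun r hr => by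
      have hr' : |r| < ε := (abs_le_of_uIcc hr).trans_lt hs
      have h1 := D.der μ hμ x (hN' (B.sub hxU)) hx (r, t) (hN' (B.in₁ x hxU r hr'))
        (fun r' hr'' => hN' (B.in₂₁ x hxU r r' hr' ((abs_le_of_uIcc hr'').trans_lt ht)))
        _ (P.f₁.smooth_t (s - r) hG)
      rw [P.f₁.comm (s - r) hG] at h1
      exact h1)
  have e1 : G (φ₁ s (φ₂ t (φ₁ 0 x))) = G (φ₁ 0 (φ₂ t (φ₁ s x))) := key
  rw [P.f₁.zero, P.f₁.zero, hG1, hG0 _ rfl] at e1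
  exact one_ne_zero e1

end

end Run7.h752.LF
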