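import Pool.Agent.Run7.h752.LF.Lam

/-!
The product structure of closed currents in the flow boxes.
-/

set_option autoImplicit false

open Set Filter Topology MeasureTheory
open scoped Manifold ContDiff

noncomputable section

namespace Run7.h752.LF

open Pool.Agent.Y501.SY Pool.Agent.R772 Run7.h752.SC

section

variable {d m : ℕ} {X : Type} [TopologicalSpace X] [ChartedSpace (E d) X]

/-- the projection to the transversal through `z` -/
def rr (a b : X → ℝ) (φ₁ φ₂ : ℝ → X → X) (z x : X) : X :=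
  φ₁ (a z - a x) (φ₂ (b z - b x) x)

variable [IsManifold (𝓡 d) ∞ X] [CompactSpace X] [T2Space X] [MeasurableSpace X] [BorelSpace X]

/-- **the local product structure** -/
theorem Pack.fub {vol : Top d m X} {σ : Form d X 2} {z : X} {a b : X → ℝ}
    {N : Set X} {W₁ W₂ : (X → ℝ) → X → ℝ} {φ₁ φ₂ : ℝ → X → X}
    (P : Pack vol σ z a b N W₁ W₂ φ₁ φ₂) (D : Der vol σ a b N W₁ W₂ φ₁ φ₂)
    {ε₁ ε₂ ε₃ : ℝ} {U₁ U₂ U₃ : Set X} (B₁ : Box a b φ₁ φ₂ N ε₁ U₁) (B₂ : Box a b φ₁ φ₂ U₁ ε₂ U₂)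
    (B₃ : Box a b φ₁ φ₂ U₂ ε₃ U₃) {δ : ℝ} (hδ : 0 < δ) (h1 : 2 * δ < ε₁) (h2 : 2 * δ < ε₂)
    (h3 : 2 * δ < ε₃) {U : Set X} (hU : U ⊆ U₃)
    (hUq : ∀ x ∈ U, |a x - a z| < δ / 2 ∧ |b x - b z| < δ / 2)
    {μ : Measure X} (hμ : IsCurr vol σ μ) {F ψ : X → ℝ} (hF : SmoothFun (d := d) F)
    (hψ : SmoothFun (d := d) ψ) (hFU : tsupport F ⊆ U) (hψU : tsupport ψ ⊆ U) :
    ∫ x, F x * bf vol σ a b x * dsk φ₁ φ₂ (rr a b φ₁ φ₂ z x) δ ψ ∂μ =
      ∫ x, ψ x * bf vol σ a b x * dsk φ₁ φ₂ (rr a b φ₁ φ₂ z x) δ F ∂μ := by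
  have hmetr : TopologicalSpace.MetrizableSpace X := Manifold.metrizableSpace (𝓡 d) X
  have hfin := hμ.fin
  have hU₁N : U₁ ⊆ N := B₁.sub
  have hU₂N : U₂ ⊆ N := B₂.sub.trans hU₁N
  have hU₃N : U₃ ⊆ N := B₃.sub.trans hU₂N
  have c₁ : Continuous (fun p : ℝ × X => φ₁ p.1 p.2) := P.f₁.smooth.continuous
  have c₂ : Continuous (fun p : ℝ × X => φ₂ p.1 p.2) := P.f₂.smooth.continuous
  let w : X → ℝ := bf vol σ a b
  have hw : Continuous w := P.wcont
  let r : X → X := rr a b φ₁ φ₂ z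
  let G : X → ℝ × ℝ → X := fun y p => φ₂ p.2 (φ₁ p.1 y)
  let T : ℝ × ℝ → X → X := fun v x => φ₁ v.1 (φ₂ v.2 x)
  let S : ℝ × ℝ → X → X := fun v x => φ₂ (-v.2) (φ₁ (-v.1) x)
  let q : X → ℝ × ℝ := fun x => (a x - a z, b x - b z)
  have hTc : Continuous (fun p : (ℝ × ℝ) × X => T p.1 p.2) :=
    c₁.comp ((continuous_fst.comp continuous_fst).prodMk
      (c₂.comp ((continuous_snd.comp continuous_fst).prodMk continuous_snd)))
  have hSc : Continuous (fun p : (ℝ × ℝ) × X => S p.1 p.2) :=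
    c₂.comp ((continuous_snd.comp continuous_fst).neg.prodMk
      (c₁.comp ((continuous_fst.comp continuous_fst).neg.prodMk continuous_snd)))
  have hq : ∀ x ∈ U, |(q x).1| < δ / 2 ∧ |(q x).2| < δ / 2 := hUq
  -- the projection
  have hr2 : ∀ x ∈ U, r x ∈ U₂ := by
    intro x hx
    obtain ⟨e1, e2⟩ := hUq x hx
    rw [abs_sub_comm] at e1 e2
    exact B₃.in₁₂ x (hU hx) _ _ (by linarith) (by linarith)
  have hra : ∀ x ∈ U, a (r x) = a z ∧ b (r x) = b z := by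
    intro x hx
    obtain ⟨e1, e2⟩ := hUq x hx
    rw [abs_sub_comm] at e1 e2
    refine ⟨?_, ?_⟩
    · have := B₃.a₁₂ x (hU hx) (a z - a x) (b z - b x) (by linarith) (by linarith)
      show a (φ₁ (a z - a x) (φ₂ (b z - b x) x)) = a z
      rw [this]; ring
    · have := B₃.b₁₂ x (hU hx) (a z - a x) (b z - b x) (by linarith) (by linarith)
      show b (φ₁ (a z - a x) (φ₂ (b z - b x) x)) = b z
      rw [this]; ring
  -- the discs
  have hsmall : ∀ F : X → ℝ, tsupport F ⊆ U → ∀ x ∈ U, ∀ p ∈ sq (2 * δ), F (G (r x) p) ≠ 0 →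
      |p.1| < δ / 2 ∧ |p.2| < δ / 2 := by
    intro F hFU x hx p hp hne
    have hU' := hFU (subset_tsupport _ (show G (r x) p ∈ Function.support F from hne))
    have hp' := mem_sq.1 hp
    have e1 : a (G (r x) p) = a (r x) + p.1 := B₂.a₂₁ _ (hr2 x hx) p.1 p.2 (by linarith)
      (by linarith)
    have e2 : b (G (r x) p) = b (r x) + p.2 := B₂.b₂₁ _ (hr2 x hx) p.1 p.2 (by linarith)
      (by linarith)
    obtain ⟨h4, h5⟩ := hUq _ hU'
    rw [e1, (hra x hx).1, add_sub_cancel_left] at h4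
    rw [e2, (hra x hx).2, add_sub_cancel_left] at h5
    exact ⟨h4, h5⟩
  have hx' : ∀ x ∈ U, x ∈ supp μ → φ₂ (b z - b x) x ∈ U₂ ∧ φ₂ (b z - b x) x ∈ supp μ := by
    intro x hx hxs
    obtain ⟨-, e2⟩ := hUq x hx
    rw [abs_sub_comm] at e2
    exact ⟨B₃.in₂ x (hU hx) _ (by linarith), P.inv₂ μ hμ x (hU₃N (hU hx)) hxs _⟩
  have hT : ∀ x ∈ U, x ∈ supp μ → ∀ v ∈ sq δ, T v x = G (r x) (q x + v) := by
    intro x hx hxs v hvv
    obtain ⟨v1, v2⟩ := mem_sq.1 hvv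
    obtain ⟨i1, i2⟩ := hx' x hx hxs
    obtain ⟨-, q2⟩ := hUq x hx
    have hbv : |b x - b z + v.2| < ε₂ := by linarith [abs_add_le (b x - b z) v.2]
    have e1 := P.comm D hU₁N B₂ hμ i1 i2 (s := v.1) (t := b x - b z + v.2) (by linarith) hbv
    have e2 : φ₂ (b x - b z + v.2) (φ₂ (b z - b x) x) = φ₂ v.2 x := by
      rw [← P.f₂.add]
      congr 1
      ring
    have e3 : φ₁ (a x - a z + v.1) (φ₁ (a z - a x) (φ₂ (b z - b x) x)) =
        φ₁ v.1 (φ₂ (b z - b x) x) := by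
      rw [← P.f₁.add]
      congr 1
      ring
    rw [e2] at e1
    show φ₁ v.1 (φ₂ v.2 x) = φ₂ (b x - b z + v.2)
      (φ₁ (a x - a z + v.1) (φ₁ (a z - a x) (φ₂ (b z - b x) x)))
    rw [e3, e1]
  have hS : ∀ x ∈ U, x ∈ supp μ → ∀ v ∈ sq δ, S v x = G (r x) (q x - v) := by
    intro x hx hxs v hvv
    obtain ⟨v1, v2⟩ := mem_sq.1 hvv
    obtain ⟨i1, i2⟩ := hx' x hx hxs
    obtain ⟨-, q2⟩ := hUq x hx
    have v1' : |-v.1| < ε₂ := by rw [abs_neg]; linarith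
    have v2' : |-v.2| < ε₂ := by rw [abs_neg]; linarith
    have hbv : |b x - b z - v.2| < ε₂ := by linarith [abs_sub (b x - b z) v.2]
    have e1 := P.comm D hU₁N B₂ hμ i1 i2 (s := -v.1) (t := b x - b z - v.2) v1' hbv
    have e0 := P.comm D hU₁N B₂ hμ (B₃.sub (hU hx)) hxs (s := -v.1) (t := -v.2) v1' v2'
    have e2 : φ₂ (b x - b z - v.2) (φ₂ (b z - b x) x) = φ₂ (-v.2) x := by
      rw [← P.f₂.add]
      congr 1
      ring
    have e3 : φ₁ (a x - a z - v.1) (φ₁ (a z - a x) (φ₂ (b z - b x) x)) =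
        φ₁ (-v.1) (φ₂ (b z - b x) x) := by
      rw [← P.f₁.add]
      congr 1
      ring
    rw [e2, e0] at e1
    show φ₂ (-v.2) (φ₁ (-v.1) x) = φ₂ (b x - b z - v.2)
      (φ₁ (a x - a z - v.1) (φ₁ (a z - a x) (φ₂ (b z - b x) x)))
    rw [e3, e1]
  have hA : ∀ x ∈ U, x ∈ supp μ → ∫ v in sq δ, ψ (T v x) = dsk φ₁ φ₂ (r x) δ ψ :=
    fun x hx hxs => plane_add hδ (hq x hx) (hsmall ψ hψU x hx) fun v hvv => by
      rw [hT x hx hxs v hvv]
  have hB : ∀ x ∈ U, x ∈ supp μ → ∫ v in sq δ, F (S v x) = dsk φ₁ φ₂ (r x) δ F :=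
    fun x hx hxs => plane_sub hδ (hq x hx) (hsmall F hFU x hx) fun v hvv => by
      rw [hS x hx hxs v hvv]
  -- bounds
  by_cases hne : Nonempty X
  swap
  · rw [not_nonempty_iff] at hne
    rw [Measure.eq_zero_of_isEmpty μ]
    simp
  obtain ⟨z₀⟩ := hne
  obtain ⟨MF, hMF⟩ := (isCompact_univ (X := X)).exists_bound_of_continuousOn
    hF.continuous.continuousOn
  obtain ⟨Mψ, hMψ⟩ := (isCompact_univ (X := X)).exists_bound_of_continuousOn
    hψ.continuous.continuousOn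
  obtain ⟨Mw, hMw⟩ := (isCompact_univ (X := X)).exists_bound_of_continuousOn hw.continuousOn
  have hQfin : IsFiniteMeasure (volume.restrict (sq δ)) :=
    ⟨by rw [Measure.restrict_apply_univ]; exact (isCompact_sq δ).measure_lt_top⟩
  have hint : ∀ (H : (ℝ × ℝ) → X → ℝ), Continuous (fun p : (ℝ × ℝ) × X => H p.1 p.2) →
      (∀ v x, ‖H v x‖ ≤ MF * Mψ * Mw) →
      ∫ v in sq δ, (∫ x, H v x ∂μ) = ∫ x, (∫ v in sq δ, H v x) ∂μ := by
    intro H hH hb
    refine integral_integral_swap ?_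
    exact Integrable.of_bound hH.aestronglyMeasurable (MF * Mψ * Mw)
      (Eventually.of_forall fun p => hb p.1 p.2)
  have hMF0 : 0 ≤ MF := (norm_nonneg _).trans (hMF z₀ (mem_univ z₀))
  have hMψ0 : 0 ≤ Mψ := (norm_nonneg _).trans (hMψ z₀ (mem_univ z₀))
  have f1 := hint (fun v x => F x * ψ (T v x) * w x)
    (((hF.continuous.comp continuous_snd).mul (hψ.continuous.comp hTc)).mul
      (hw.comp continuous_snd)) (fun v x => by
        rw [norm_mul, norm_mul]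
        exact mul_le_mul (mul_le_mul (hMF _ (mem_univ _)) (hMψ _ (mem_univ _)) (norm_nonneg _)
          hMF0) (hMw _ (mem_univ _)) (norm_nonneg _) (mul_nonneg hMF0 hMψ0))
  have f2 := hint (fun v x => F (S v x) * ψ x * w x)
    (((hF.continuous.comp hSc).mul (hψ.continuous.comp continuous_snd)).mul
      (hw.comp continuous_snd)) (fun v x => by
        rw [norm_mul, norm_mul]
        exact mul_le_mul (mul_le_mul (hMF _ (mem_univ _)) (hMψ _ (mem_univ _)) (norm_nonneg _)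
          hMF0) (hMw _ (mem_univ _)) (norm_nonneg _) (mul_nonneg hMF0 hMψ0))
  -- invariance
  have f3 : ∀ v ∈ sq δ, ∫ x, F x * ψ (T v x) * w x ∂μ = ∫ x, F (S v x) * ψ x * w x ∂μ := by
    intro v hvv
    have hv' := mem_sq.1 hvv
    have hK : SmoothFun (d := d) (fun x => F (S v x) * ψ x) :=
      (P.f₁.smooth_t (-v.1) (P.f₂.smooth_t (-v.2) hF)).mul hψ
    have hKU : tsupport (fun x => F (S v x) * ψ x) ⊆ U₂ :=
      (tsupport_mul_subset_right).trans (hψU.trans fun x hx => B₃.sub (hU hx))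
    have := P.shift B₁ B₂ hμ hK hKU (s := v.1) (t := v.2) (by linarith) (by linarith)
      (by linarith)
    rw [← this]
    refine integral_congr_ae (Eventually.of_forall fun x => ?_)
    show F x * ψ (T v x) * w x = F (S v (T v x)) * ψ (T v x) * w x
    have e1 : S v (T v x) = x := by
      show φ₂ (-v.2) (φ₁ (-v.1) (φ₁ v.1 (φ₂ v.2 x))) = x
      rw [P.f₁.back, P.f₂.back]
    rw [e1]
  have f4 : ∫ v in sq δ, (∫ x, F x * ψ (T v x) * w x ∂μ) =
      ∫ v in sq δ, (∫ x, F (S v x) * ψ x * w x ∂μ) :=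
    setIntegral_congr_fun (measurable_sq δ) f3
  -- conclusion
  have g1 : ∫ x, (∫ v in sq δ, F x * ψ (T v x) * w x) ∂μ =
      ∫ x, F x * w x * dsk φ₁ φ₂ (r x) δ ψ ∂μ := by
    refine integral_congr_ae ?_
    filter_upwards [supp_ae μ] with x hx
    have e1 : (fun v => F x * ψ (T v x) * w x) = fun v => (F x * w x) * ψ (T v x) := by
      funext v; ring
    rw [e1, integral_const_mul]
    by_cases hxF : x ∈ tsupport F
    · rw [hA x (hFU hxF) hx]
    · rw [image_eq_zero_of_notMem_tsupport hxF]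
      ring
  have g2 : ∫ x, (∫ v in sq δ, F (S v x) * ψ x * w x) ∂μ =
      ∫ x, ψ x * w x * dsk φ₁ φ₂ (r x) δ F ∂μ := by
    refine integral_congr_ae ?_
    filter_upwards [supp_ae μ] with x hx
    have e1 : (fun v => F (S v x) * ψ x * w x) = fun v => (ψ x * w x) * F (S v x) := by
      funext v; ring
    rw [e1, integral_const_mul]
    by_cases hxF : x ∈ tsupport ψ
    · rw [hB x (hψU hxF) hx]
    · rw [image_eq_zero_of_notMem_tsupport hxF]
      ring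
  show ∫ x, F x * w x * dsk φ₁ φ₂ (r x) δ ψ ∂μ = ∫ x, ψ x * w x * dsk φ₁ φ₂ (r x) δ F ∂μ
  rw [← g1, ← g2, ← f1, ← f2, f4]

end

end Run7.h752.LF
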