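import Mathlib.Analysis.Calculus.BumpFunction.FiniteDimension
import Mathlib.Analysis.Calculus.BumpFunction.Normed
import Pool.Agent.Run7.h752.LF.Lam2

/-!
Closed currents are locally integrals of discs tangent to the kernel.
-/

set_option autoImplicit false

open Set Filter Topology MeasureTheory
open scoped Manifold ContDiff NNReal ENNReal

noncomputable section

namespace Run7.h752.LF

open Pool.Agent.Y501.SY Pool.Agent.R772 Run7.h752.SC

section

variable {d m : ℕ} {X : Type} [TopologicalSpace X] [ChartedSpace (E d) X]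
variable [IsManifold (𝓡 d) ∞ X] [CompactSpace X] [T2Space X] [MeasurableSpace X] [BorelSpace X]

theorem Pack.lam {vol : Top d m X} {σ : Form d X 2} {z : X} {a b : X → ℝ}
    {N : Set X} {W₁ W₂ : (X → ℝ) → X → ℝ} {φ₁ φ₂ : ℝ → X → X}
    (P : Pack vol σ z a b N W₁ W₂ φ₁ φ₂) (D : Der vol σ a b N W₁ W₂ φ₁ φ₂)
    {μ : Measure X} (hμ : IsCurr vol σ μ) :
    ∃ (ε : ℝ) (T : Set X) (κ : Measure X) (U : Set X), 0 < ε ∧ IsCompact T ∧ IsFiniteMeasure κ ∧
      κ Tᶜ = 0 ∧ U ∈ 𝓝 z ∧ U ⊆ N ∧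
      (∀ y ∈ T, y ∈ N ∧ y ∈ supp μ ∧ ∀ p ∈ sq ε, φ₁ p.1 y ∈ N ∧
        (∀ r ∈ uIcc 0 p.2, φ₂ r (φ₁ p.1 y) ∈ N) ∧ a (φ₂ p.2 (φ₁ p.1 y)) = a z + p.1 ∧
        b (φ₂ p.2 (φ₁ p.1 y)) = b z + p.2) ∧
      (∀ x ∈ U, x ∈ supp μ → rr a b φ₁ φ₂ z x ∈ T ∧ (a x - a z, b x - b z) ∈ sq ε) ∧
      ∀ F : X → ℝ, SmoothFun (d := d) F → tsupport F ⊆ U →
        ∫ x, F x * bf vol σ a b x ∂μ = ∫ y, (∫ p in sq ε, F (φ₂ p.2 (φ₁ p.1 y))) ∂κ := by
  have hmetr : TopologicalSpace.MetrizableSpace X := Manifold.metrizableSpace (𝓡 d) X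
  have hfin := hμ.fin
  obtain ⟨ε₁, U₁, hε₁, hU₁, B₁⟩ := P.box (P.isOpen.mem_nhds P.mem) subset_rfl
  obtain ⟨ε₂, U₂, hε₂, hU₂, B₂⟩ := P.box hU₁ B₁.sub
  obtain ⟨ε₃, U₃, hε₃, hU₃, B₃⟩ := P.box hU₂ (B₂.sub.trans B₁.sub)
  have hU₁N : U₁ ⊆ N := B₁.sub
  have hU₂N : U₂ ⊆ N := B₂.sub.trans hU₁N
  have hU₃N : U₃ ⊆ N := B₃.sub.trans hU₂N
  have hzU₃ := mem_of_mem_nhds hU₃
  obtain ⟨δ, hδ, h1, h2, h3⟩ : ∃ δ : ℝ, 0 < δ ∧ 2 * δ < ε₁ ∧ 2 * δ < ε₂ ∧ 2 * δ < ε₃ := by
    refine ⟨min ε₁ (min ε₂ ε₃) / 4, by positivity, ?_, ?_, ?_⟩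
    · have := min_le_left ε₁ (min ε₂ ε₃)
      linarith
    · have := (min_le_right ε₁ (min ε₂ ε₃)).trans (min_le_left _ _)
      linarith
    · have := (min_le_right ε₁ (min ε₂ ε₃)).trans (min_le_right _ _)
      linarith
  let U : Set X := U₃ ∩ ({x | |a x - a z| < δ / 2} ∩ {x | |b x - b z| < δ / 2})
  have hU : U ∈ 𝓝 z := by
    have ca : Continuous (fun x => |a x - a z|) := (P.sa.continuous.sub continuous_const).abs
    have cb : Continuous (fun x => |b x - b z|) := (P.sb.continuous.sub continuous_const).abs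
    refine inter_mem hU₃ (inter_mem ?_ ?_)
    · exact ca.continuousAt.eventually (gt_mem_nhds (by simpa using hδ))
    · exact cb.continuousAt.eventually (gt_mem_nhds (by simpa using hδ))
  have hUU₃ : U ⊆ U₃ := fun x hx => hx.1
  have hUN : U ⊆ N := hUU₃.trans hU₃N
  have hUq : ∀ x ∈ U, |a x - a z| < δ / 2 ∧ |b x - b z| < δ / 2 := fun x hx => hx.2
  have c₁ : Continuous (fun p : ℝ × X => φ₁ p.1 p.2) := P.f₁.smooth.continuous
  have c₂ : Continuous (fun p : ℝ × X => φ₂ p.1 p.2) := P.f₂.smooth.continuous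
  let w : X → ℝ := bf vol σ a b
  have hw : Continuous w := P.wcont
  let r : X → X := rr a b φ₁ φ₂ z
  have hrc : Continuous r :=
    c₁.comp ((continuous_const.sub P.sa.continuous).prodMk
      (c₂.comp ((continuous_const.sub P.sb.continuous).prodMk continuous_id)))
  have hrz : r z = z := by
    show φ₁ (a z - a z) (φ₂ (b z - b z) z) = z
    rw [sub_self, sub_self, P.f₂.zero, P.f₁.zero]
  let G : X → ℝ × ℝ → X := fun y p => φ₂ p.2 (φ₁ p.1 y)
  have hGc : Continuous (fun q : X × (ℝ × ℝ) => G q.1 q.2) :=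
    c₂.comp ((continuous_snd.comp continuous_snd).prodMk
      (c₁.comp ((continuous_fst.comp continuous_snd).prodMk continuous_fst)))
  have hG0 : ∀ y, G y (0, 0) = y := fun y => by
    show φ₂ 0 (φ₁ 0 y) = y
    rw [P.f₁.zero, P.f₂.zero]
  -- the projection
  have hr2 : ∀ x ∈ U, r x ∈ U₂ := by
    intro x hx
    obtain ⟨e1, e2⟩ := hUq x hx
    rw [abs_sub_comm] at e1 e2
    exact B₃.in₁₂ x (hUU₃ hx) _ _ (by linarith) (by linarith)
  have hra : ∀ x ∈ U, a (r x) = a z ∧ b (r x) = b z := by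
    intro x hx
    obtain ⟨e1, e2⟩ := hUq x hx
    rw [abs_sub_comm] at e1 e2
    refine ⟨?_, ?_⟩
    · have := B₃.a₁₂ x (hUU₃ hx) (a z - a x) (b z - b x) (by linarith) (by linarith)
      show a (φ₁ (a z - a x) (φ₂ (b z - b x) x)) = a z
      rw [this]; ring
    · have := B₃.b₁₂ x (hUU₃ hx) (a z - a x) (b z - b x) (by linarith) (by linarith)
      show b (φ₁ (a z - a x) (φ₂ (b z - b x) x)) = b z
      rw [this]; ring
  have hrs : ∀ x ∈ U, x ∈ supp μ → r x ∈ supp μ := by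
    intro x hx hxs
    obtain ⟨-, e2⟩ := hUq x hx
    rw [abs_sub_comm] at e2
    exact P.inv₁ μ hμ _ (hU₂N (B₃.in₂ x (hUU₃ hx) _ (by linarith)))
      (P.inv₂ μ hμ x (hUN hx) hxs _) _
  have hcoord : ∀ y ∈ U₂, a y = a z → b y = b z → ∀ p ∈ sq (2 * δ),
      a (G y p) = a z + p.1 ∧ b (G y p) = b z + p.2 := by
    intro y hy e1 e2 p hp
    have hp' := mem_sq.1 hp
    refine ⟨?_, ?_⟩
    · rw [← e1]
      exact B₂.a₂₁ _ hy p.1 p.2 (by linarith) (by linarith)
    · rw [← e2]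
      exact B₂.b₂₁ _ hy p.1 p.2 (by linarith) (by linarith)
  -- the bump functions
  obtain ⟨χ, -, hχt⟩ := (SmoothBumpFunction.nhds_basis_tsupport (I := 𝓡 d) z).mem_iff.1 hU
  have hχ : SmoothFun (d := d) (fun x => χ x) := χ.contMDiff
  have hev : ∀ᶠ q : X × (ℝ × ℝ) in 𝓝 (z, ((0 : ℝ), (0 : ℝ))), χ (G q.1 q.2) = 1 := by
    have h4 : Tendsto (fun q : X × (ℝ × ℝ) => G q.1 q.2) (𝓝 (z, ((0 : ℝ), (0 : ℝ)))) (𝓝 z) := by
      have := hGc.tendsto (z, ((0 : ℝ), (0 : ℝ)))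
      rwa [show G (z, ((0 : ℝ), (0 : ℝ))).1 (z, ((0 : ℝ), (0 : ℝ))).2 = z from hG0 z] at this
    exact h4.eventually χ.eventuallyEq_one
  rw [nhds_prod_eq, eventually_prod_iff] at hev
  obtain ⟨pV, hV, pp, hpp, hev⟩ := hev
  obtain ⟨η, hη, hball⟩ := Metric.eventually_nhds_iff.1 hpp
  let R : ℝ := min η δ / 2
  have hR0 : 0 < R := by positivity
  have hRη : R < η := by
    have := min_le_left η δ
    show min η δ / 2 < η
    linarith
  have hRδ : R < δ := by
    have := min_le_right η δ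
    show min η δ / 2 < δ
    linarith
  let ρ : ContDiffBump ((0 : ℝ), (0 : ℝ)) := ⟨R / 2, R, by positivity, by linarith⟩
  let ρn : ℝ × ℝ → ℝ := ρ.normed volume
  have hρs : ContDiff ℝ ∞ ρn := ρ.contDiff_normed
  have hρ0 : ∀ p, 0 ≤ ρn p := fun p => ρ.nonneg_normed p
  have hρb : ∀ p, ρn p ≠ 0 → dist p ((0 : ℝ), (0 : ℝ)) < R := by
    intro p hp
    have h4 : p ∈ Function.support (ρ.normed volume) := hp
    rw [ρ.support_normed_eq] at h4
    exact h4
  have hρz : ρn (0, 0) ≠ 0 := by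
    have h4 : ((0 : ℝ), (0 : ℝ)) ∈ Function.support (ρ.normed volume) := by
      rw [ρ.support_normed_eq]
      exact Metric.mem_ball_self hR0
    exact h4
  have hρ1 : ∫ p, ρn p = 1 := ρ.integral_normed
  let q : X → ℝ × ℝ := fun x => (a x - a z, b x - b z)
  have hqs : ContMDiff (𝓡 d) 𝓘(ℝ, ℝ × ℝ) ∞ q := by
    have h4 : SmoothFun (d := d) (fun x => a x - a z) := P.sa.sub contMDiff_const
    have h5 : SmoothFun (d := d) (fun x => b x - b z) := P.sb.sub contMDiff_const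
    exact ContMDiff.prodMk_space h4 h5
  let ψ : X → ℝ := fun x => ρn (q x) * χ x
  have hψ : SmoothFun (d := d) ψ := (hρs.contMDiff.comp hqs).mul hχ
  have hψt : tsupport ψ ⊆ U := tsupport_mul_subset_right.trans hχt
  have hψw : ∀ x, 0 ≤ ψ x * w x := by
    intro x
    by_cases hx : x ∈ tsupport ψ
    · exact mul_nonneg (mul_nonneg (hρ0 _) χ.nonneg) (P.wpos x (hUN (hψt hx))).le
    · rw [image_eq_zero_of_notMem_tsupport hx, zero_mul]
  -- the integral of `ψ` over the discs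
  have hIψ : ∀ y ∈ U₂, a y = a z → b y = b z → pV y → dsk φ₁ φ₂ y δ ψ = 1 := by
    intro y hy e1 e2 hyV
    rw [← hρ1]
    unfold dsk
    refine integral_congr_ae (Eventually.of_forall fun p => ?_)
    show (sq (2 * δ)).indicator (fun p => ψ (G y p)) p = ρn p
    by_cases hp : p ∈ sq (2 * δ)
    · rw [indicator_of_mem hp]
      obtain ⟨e3, e4⟩ := hcoord y hy e1 e2 p hp
      show ρn (a (G y p) - a z, b (G y p) - b z) * χ (G y p) = ρn p
      rw [e3, e4, add_sub_cancel_left, add_sub_cancel_left, Prod.mk.eta]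
      by_cases h0 : ρn p = 0
      · rw [h0, zero_mul]
      · rw [hev hyV (hball ((hρb p h0).trans hRη)), mul_one]
    · rw [indicator_of_notMem hp]
      by_contra h0
      have h4 := hρb p (Ne.symm h0)
      refine hp (mem_sq.2 ?_)
      rw [Prod.dist_eq, max_lt_iff, Real.dist_eq, Real.dist_eq, sub_zero, sub_zero] at h4
      exact ⟨by linarith [h4.1], by linarith [h4.2]⟩
  -- the transversal
  let T : Set X := r '' (tsupport ψ ∩ supp μ)
  have hT : IsCompact T :=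
    (((isClosed_tsupport ψ).inter (isClosed_supp μ)).isCompact).image hrc
  let f : X → ℝ≥0 := fun x => Real.toNNReal (ψ x * w x)
  have hfm : Measurable f := (measurable_real_toNNReal.comp (hψ.continuous.mul hw).measurable)
  let ν : Measure X := μ.withDensity (fun x => f x)
  let κ : Measure X := ν.map r
  have hνfin : IsFiniteMeasure ν := by
    refine isFiniteMeasure_withDensity ?_
    obtain ⟨M, hM⟩ := (isCompact_univ (X := X)).exists_bound_of_continuousOn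
      (hψ.continuous.mul hw).continuousOn
    refine ne_of_lt (lt_of_le_of_lt (lintegral_mono fun x => ?_) (lintegral_const_lt_top
      (μ := μ) (c := ENNReal.ofReal M) ENNReal.ofReal_ne_top))
    show ((f x : ℝ≥0) : ℝ≥0∞) ≤ ENNReal.ofReal M
    exact ENNReal.coe_le_coe.2 (Real.toNNReal_le_toNNReal
      ((Real.le_norm_self _).trans (hM x (mem_univ x))))
  have hκfin : IsFiniteMeasure κ := by
    show IsFiniteMeasure (ν.map r)
    infer_instance
  have hκT : κ Tᶜ = 0 := by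
    show (ν.map r) Tᶜ = 0
    rw [Measure.map_apply hrc.measurable hT.measurableSet.compl]
    show μ.withDensity (fun x => (f x : ℝ≥0∞)) (r ⁻¹' Tᶜ) = 0
    rw [withDensity_apply _ (hrc.measurable hT.measurableSet.compl), lintegral_eq_zero_iff
      hfm.coe_nnreal_ennreal]
    refine (ae_restrict_iff' (hrc.measurable hT.measurableSet.compl)).2 ?_
    filter_upwards [supp_ae μ] with x hx hxT
    show ((f x : ℝ≥0) : ℝ≥0∞) = 0
    have h4 : x ∉ tsupport ψ := fun hcon => hxT ⟨x, ⟨hcon, hx⟩, rfl⟩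
    have h5 : ψ x * w x = 0 := by
      rw [image_eq_zero_of_notMem_tsupport h4, zero_mul]
    show ((Real.toNNReal (ψ x * w x) : ℝ≥0) : ℝ≥0∞) = 0
    rw [h5]
    simp
  -- the neighbourhood
  have hU' : U ∩ r ⁻¹' {y | pV y} ∈ 𝓝 z := by
    refine inter_mem hU (hrc.continuousAt.preimage_mem_nhds ?_)
    rw [hrz]
    exact hV
  refine ⟨2 * δ, T, κ, U ∩ r ⁻¹' {y | pV y}, by positivity, hT, hκfin, hκT, hU',
    fun x hx => hUN hx.1, ?_, ?_, ?_⟩
  · rintro _ ⟨x, ⟨hx1, hx2⟩, rfl⟩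
    have hxU := hψt hx1
    have hy := hr2 x hxU
    refine ⟨hU₂N hy, hrs x hxU hx2, fun p hp => ?_⟩
    have hp' := mem_sq.1 hp
    refine ⟨hU₁N (B₂.in₁ _ hy p.1 (by linarith)), fun s hs => ?_,
      hcoord _ hy (hra x hxU).1 (hra x hxU).2 p hp⟩
    exact hU₁N (B₂.in₂₁ _ hy p.1 s (by linarith) (by linarith [abs_le_of_uIcc hs]))
  · rintro x ⟨hx1, hx2⟩ hxs
    have h4 : r (r x) = r x := by
      show φ₁ (a z - a (r x)) (φ₂ (b z - b (r x)) (r x)) = r x
      rw [(hra x hx1).1, (hra x hx1).2, sub_self, sub_self, P.f₂.zero, P.f₁.zero]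
    refine ⟨⟨r x, ⟨subset_tsupport _ ?_, hrs x hx1 hxs⟩, h4⟩, mem_sq.2 ?_⟩
    · show ρn (a (r x) - a z, b (r x) - b z) * χ (r x) ≠ 0
      rw [(hra x hx1).1, (hra x hx1).2, sub_self, sub_self]
      refine mul_ne_zero hρz ?_
      have h5 : χ (G (r x) (0, 0)) = 1 := hev hx2 (hball (by simpa using hη))
      rw [hG0] at h5
      rw [h5]
      exact one_ne_zero
    · obtain ⟨e1, e2⟩ := hUq x hx1
      exact ⟨by show |a x - a z| ≤ _; linarith, by show |b x - b z| ≤ _; linarith⟩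
  · intro F hF hFU
    have hFU' : tsupport F ⊆ U := hFU.trans inter_subset_left
    have hIc : Continuous (fun y => ∫ p in sq (2 * δ), F (G y p)) :=
      continuous_parametric_integral_of_continuous (f := fun y p => F (G y p))
        (hF.continuous.comp hGc) (isCompact_sq _)
    have hds : ∀ y, dsk φ₁ φ₂ y δ F = ∫ p in sq (2 * δ), F (G y p) := fun y => by
      unfold dsk
      rw [integral_indicator (measurable_sq _)]
    show ∫ x, F x * w x ∂μ = ∫ y, (∫ p in sq (2 * δ), F (G y p)) ∂(ν.map r)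
    rw [integral_map hrc.aemeasurable hIc.aestronglyMeasurable]
    show _ = ∫ x, (∫ p in sq (2 * δ), F (G (r x) p)) ∂(μ.withDensity (fun x => (f x : ℝ≥0∞)))
    rw [integral_withDensity_eq_integral_smul hfm]
    have h5 := P.fub D B₁ B₂ B₃ hδ h1 h2 h3 hUU₃ hUq hμ hF hψ hFU' hψt
    have h6 : ∫ x, F x * w x ∂μ = ∫ x, F x * w x * dsk φ₁ φ₂ (r x) δ ψ ∂μ := by
      refine integral_congr_ae (Eventually.of_forall fun x => ?_)
      by_cases hx : x ∈ tsupport F
      · obtain ⟨h7, h8⟩ := hFU hx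
        show F x * w x = F x * w x * dsk φ₁ φ₂ (r x) δ ψ
        rw [hIψ _ (hr2 x h7) (hra x h7).1 (hra x h7).2 h8, mul_one]
      · show F x * w x = F x * w x * dsk φ₁ φ₂ (r x) δ ψ
        rw [image_eq_zero_of_notMem_tsupport hx]
        ring
    rw [h6]
    refine h5.trans (integral_congr_ae (Eventually.of_forall fun x => ?_))
    show ψ x * w x * dsk φ₁ φ₂ (r x) δ F = f x • ∫ p in sq (2 * δ), F (G (r x) p)
    rw [hds, NNReal.smul_def, smul_eq_mul]
    congr 1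
    exact (Real.coe_toNNReal _ (hψw x)).symm

end

end Run7.h752.LF
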