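import Pool.Agent.Run7.h752.LF.Lam3

/-!
The current of a closed current is locally the integral of the currents of integration over discs
tangent to the kernel.
-/

set_option autoImplicit false

open Set Filter Topology MeasureTheory
open scoped Manifold ContDiff NNReal ENNReal

noncomputable section

namespace Run7.h752.LF

open Pool.Agent.Y501.SY Pool.Agent.R772 Run7.h752.SC

section lin

variable {V : Type} [NormedAddCommGroup V] [NormedSpace ℝ V] {m : ℕ}

theorem two_swap (τ : V [⋀^Fin 2]→L[ℝ] ℝ) (v w : V) : τ ![v, w] = - τ ![w, v] := by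
  have h := τ.toAlternatingMap.map_swap ![w, v] (i := 0) (j := 1) (by simp)
  have h1 : ![w, v] ∘ (Equiv.swap (0 : Fin 2) 1) = ![v, w] := by
    funext i; fin_cases i <;> simp
  rw [h1] at h
  exact h

/-- two-forms are sums of products of one-forms -/
theorem two_sum [FiniteDimensional ℝ V] (τ : V [⋀^Fin 2]→L[ℝ] ℝ) :
    ∃ (n : ℕ) (A B : Fin n → V →L[ℝ] ℝ),
      τ = ∑ i, Pool.Agent.Y501.SY.wedge (A i) (B i) := by
  let b := Module.finBasis ℝ V
  choose l hl using fun w => exists_left τ w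
  have h1 : ∀ v w, ∑ i, b.coord i v * τ ![b i, w] = τ ![v, w] := by
    intro v w
    rw [← hl w v]
    conv_rhs => rw [← b.sum_repr v, map_sum]
    refine Finset.sum_congr rfl fun i _ => ?_
    rw [map_smul, smul_eq_mul, hl]
    rfl
  refine ⟨_, fun i => (1 / 2 : ℝ) • LinearMap.toContinuousLinearMap (b.coord i),
    fun i => - l (b i), form_ext fun v w => ?_⟩
  have h2 : (∑ i, Pool.Agent.Y501.SY.wedge ((1 / 2 : ℝ) • LinearMap.toContinuousLinearMap
      (b.coord i)) (- l (b i))) ![v, w] = ∑ i, (Pool.Agent.Y501.SY.wedge ((1 / 2 : ℝ) •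
        LinearMap.toContinuousLinearMap (b.coord i)) (- l (b i))) ![v, w] :=
    ContinuousAlternatingMap.sum_apply _ _
  rw [h2]
  have h3 : ∀ i, (Pool.Agent.Y501.SY.wedge ((1 / 2 : ℝ) •
        LinearMap.toContinuousLinearMap (b.coord i)) (- l (b i))) ![v, w] =
      (1 / 2) * (b.coord i v * τ ![b i, w]) - (1 / 2) * (b.coord i w * τ ![b i, v]) := by
    intro i
    rw [wedge_apply]
    simp only [Matrix.cons_val_zero, Matrix.cons_val_one]
    have e1 : ∀ v, ((1 / 2 : ℝ) • LinearMap.toContinuousLinearMap (b.coord i)) v =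
        (1 / 2) * b.coord i v := fun v => rfl
    have e2 : ∀ v, (- l (b i)) v = τ ![b i, v] := fun v => by
      rw [two_swap τ (b i) v, ← hl]
      rfl
    rw [e1, e1, e2, e2]
    ring
  rw [Finset.sum_congr rfl fun i _ => h3 i, Finset.sum_sub_distrib, ← Finset.mul_sum,
    ← Finset.mul_sum, h1, h1, two_swap τ w v]
  ring

variable (σ : V [⋀^Fin 2]→L[ℝ] ℝ) (e : Fin (m + 1) × Fin 2 → V)

/-- the value of `τ ∧ σ ^ m` -/
theorem gen_val [FiniteDimensional ℝ V] (hn : Module.finrank ℝ V = 2 * (m + 1))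
    (h0 : ∀ e : Fin (m + 1) × Fin 2 → V, Pool.Agent.R772.wedge (fun _ : Fin (m + 1) => σ) e = 0)
    {c d : V →L[ℝ] ℝ} (hne : br σ e c d ≠ 0) {u₁ u₂ : V}
    (h1 : ∀ l : V →L[ℝ] ℝ, l u₁ * br σ e c d = br σ e l d)
    (h2 : ∀ l : V →L[ℝ] ℝ, l u₂ * br σ e c d = - br σ e l c) (τ : V [⋀^Fin 2]→L[ℝ] ℝ) :
    Pool.Agent.R772.wedge (Fin.cons τ (fun _ : Fin m => σ)) e = τ ![u₁, u₂] * br σ e c d := by
  have key : ∀ l l' : V →L[ℝ] ℝ, br σ e l l' =
      Pool.Agent.Y501.SY.wedge l l' ![u₁, u₂] * br σ e c d := by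
    intro l l'
    have p := plucker σ e hn h0 l l' c d hne
    rw [wedge_apply]
    simp only [Matrix.cons_val_zero, Matrix.cons_val_one]
    refine mul_right_cancel₀ hne ?_
    have e1 := h1 l
    have e2 := h1 l'
    have e3 := h2 l
    have e4 := h2 l'
    have e5 : br σ e l c = - (l u₂ * br σ e c d) := by rw [e3]; ring
    have e6 : br σ e l' c = - (l' u₂ * br σ e c d) := by rw [e4]; ring
    rw [p, e5, e6, ← e1, ← e2]
    ring
  obtain ⟨n, A, B, hτ⟩ := two_sum τ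
  rw [hτ, wedge_cons_sum]
  have h3 : (∑ i, Pool.Agent.Y501.SY.wedge (A i) (B i)) ![u₁, u₂] =
      ∑ i, Pool.Agent.Y501.SY.wedge (A i) (B i) ![u₁, u₂] :=
    ContinuousAlternatingMap.sum_apply _ _
  rw [h3, Finset.sum_mul]
  exact Finset.sum_congr rfl fun i _ => key (A i) (B i)

end lin

section

variable {d m : ℕ} {X : Type} [TopologicalSpace X] [ChartedSpace (E d) X]

variable [IsManifold (𝓡 d) ∞ X]

theorem ratio_smooth_form (hd : d = 2 * (m + 1)) {vol : Top d m X} (hvol : IsVol vol)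
    {σ : Form d X 2} (hσ : IsSmooth σ) {η θ : Form d X 2} (hη : IsSmooth η) (hθ : IsSmooth θ)
    {x₀ : X} (hne : md vol σ θ x₀ ≠ 0) :
    ContMDiffAt (𝓡 d) 𝓘(ℝ, ℝ) ∞ (fun x => md vol σ η x / md vol σ θ x) x₀ := by
  obtain ⟨e, he⟩ := exists_frame hvol x₀
  set c := chartAt (E d) x₀ with hc
  have hx : x₀ ∈ c.source := mem_chart_source (E d) x₀
  have hp0 : c x₀ ∈ c.target := c.map_source hx
  let N : Form d X 2 → E d → ℝ := fun τ p =>
    Pool.Agent.R772.wedge (Fin.cons (pb c.symm τ p) (fun _ : Fin m => pb c.symm σ p)) e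
  have hsm : ContMDiffOn (𝓡 d) (𝓡 d) ∞ c.symm c.target := contMDiffOn_chart_symm (I := 𝓡 d)
  have hN : ∀ τ : Form d X 2, IsSmooth τ → ContDiffOn ℝ ∞ (N τ) c.target := by
    intro τ hτ
    refine contDiff_wedge (s := fun p : E d => (Fin.cons (pb c.symm τ p)
      (fun _ : Fin m => pb c.symm σ p) : Fin (m + 1) → (E d) [⋀^Fin 2]→L[ℝ] ℝ)) e ?_
    intro i
    refine Fin.cases ?_ (fun i => ?_) i
    · simp only [Fin.cons_zero]
      exact hτ c.target c.symm c.open_target hsm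
    · simp only [Fin.cons_succ]
      exact hσ c.target c.symm c.open_target hsm
  have hrel : ∀ τ : Form d X 2, ∀ p : E d, N τ p = md vol σ τ (c.symm p) *
      vol (c.symm p) (fun k => mfderiv (𝓡 d) (𝓡 d) c.symm p (e k)) := by
    intro τ p
    change Pool.Agent.R772.wedge (Fin.cons (pb c.symm τ p)
      (fun _ : Fin m => pb c.symm σ p)) e = _
    rw [wedge_pb_cons]
    exact md_spec hd hvol σ τ (c.symm p) _
  have hne' : N θ (c x₀) ≠ 0 := by
    rw [hrel]
    exact mul_ne_zero (by rw [c.left_inv hx]; exact hne) he.self_of_nhds.2.ne'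
  have h1 : ContDiffAt ℝ ∞ (fun p => N η p / N θ p) (c x₀) :=
    ((hN η hη).contDiffAt (c.open_target.mem_nhds hp0)).div
      ((hN θ hθ).contDiffAt (c.open_target.mem_nhds hp0)) hne'
  have h2 : ContMDiffAt (𝓡 d) 𝓘(ℝ, E d) ∞ c x₀ :=
    (contMDiffOn_chart (I := 𝓡 d)).contMDiffAt (c.open_source.mem_nhds hx)
  have h3 : ContMDiffAt (𝓡 d) 𝓘(ℝ, ℝ) ∞ (fun x => N η (c x) / N θ (c x)) x₀ :=
    ContMDiffAt.comp (g := fun p => N η p / N θ p) x₀ h1.contMDiffAt h2
  refine h3.congr_of_eventuallyEq ?_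
  have h4 : ∀ᶠ x in 𝓝 x₀, c x ∈ c.target ∧ 0 < vol (c.symm (c x))
      (fun k => mfderiv (𝓡 d) (𝓡 d) c.symm (c x) (e k)) := by
    exact (c.continuousAt hx).eventually he
  filter_upwards [h4, c.open_source.mem_nhds hx] with x hx1 hx2
  rw [hrel, hrel, mul_div_mul_right _ _ hx1.2.ne', c.left_inv hx2]


/-- the value of `η ∧ σ ^ m` -/
theorem md_tan [T2Space X] (hd : d = 2 * (m + 1)) {vol : Top d m X} (hvol : IsVol vol)
    {σ : Form d X 2} {x : X} (hnn : NonnegTop vol σ x) (hx : ¬ PosTop vol σ x) {a b : X → ℝ}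
    (hw : bf vol σ a b x ≠ 0) {u₁ u₂ : TangentSpace (𝓡 d) x}
    (h1 : ∀ G : X → ℝ, SmoothFun (d := d) G → dd (d := d) G x u₁ * bf vol σ a b x =
      bf vol σ G b x)
    (h2 : ∀ G : X → ℝ, SmoothFun (d := d) G → dd (d := d) G x u₂ * bf vol σ a b x =
      - bf vol σ G a x) (η : Form d X 2) :
    md vol σ η x = η x ![u₁, u₂] * bf vol σ a b x := by
  obtain ⟨e, he⟩ := hvol.frame x
  have hfd := fin_tangent (d := d) x
  have hs : ∀ f g : X → ℝ, br (V := E d) (σ x) e (dd (d := d) f x) (dd (d := d) g x) =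
      bf vol σ f g x * vol x e := fun f g => bf_spec hd hvol σ f g x e
  have hl : ∀ l : E d →L[ℝ] ℝ, ∃ G : X → ℝ, SmoothFun (d := d) G ∧
      (dd (d := d) G x : E d →L[ℝ] ℝ) = l := by
    intro l
    obtain ⟨G, hG, h3⟩ := exists_fun (d := d) x l
    exact ⟨G, hG, ContinuousLinearMap.ext h3⟩
  have key := gen_val (V := E d) (σ x) e (by rw [finrank_euclideanSpace, Fintype.card_fin, hd])
    (top_zero hd hnn hx) (c := dd (d := d) a x) (d := dd (d := d) b x)
    (by rw [hs]; exact mul_ne_zero hw he.ne') (u₁ := u₁) (u₂ := u₂)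
    (fun l => by
      obtain ⟨G, hG, rfl⟩ := hl l
      rw [hs, hs, ← h1 G hG]
      exact (mul_assoc _ _ _).symm)
    (fun l => by
      obtain ⟨G, hG, rfl⟩ := hl l
      rw [hs, hs, ← neg_mul, ← h2 G hG]
      exact (mul_assoc _ _ _).symm) (η x)
  have h3 := md_spec hd hvol σ η x e
  rw [hs] at key
  have h4 : md vol σ η x * vol x e = η x ![u₁, u₂] * (bf vol σ a b x * vol x e) :=
    h3.symm.trans key
  refine mul_right_cancel₀ he.ne' (h4.trans ?_)
  ring

end

end Run7.h752.LF
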