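import Pool.Agent.Run7.h752.LF.Main

/-!
Surfaces in the supports of closed currents.
-/

set_option autoImplicit false

open Set Filter Topology MeasureTheory
open scoped Manifold ContDiff

noncomputable section

namespace Run7.h752.LF

open Pool.Agent.Y501.SY Pool.Agent.R772 Run7.h752.SC

section

variable {d m : ℕ} {X : Type} [TopologicalSpace X] [ChartedSpace (E d) X]

theorem exists_left {V : Type} [NormedAddCommGroup V] [NormedSpace ℝ V] [FiniteDimensional ℝ V]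
    (σ : V [⋀^Fin 2]→L[ℝ] ℝ) (w : V) : ∃ l : V →L[ℝ] ℝ, ∀ v, l v = σ ![v, w] := by
  have hupd0 : ∀ (v w y : V), Function.update ![v, w] 0 y = ![y, w] := by
    intro v w y; funext i; fin_cases i <;> simp
  refine ⟨LinearMap.toContinuousLinearMap
      { toFun := fun v => σ ![v, w]
        map_add' := fun v v' => by
          have h := σ.toAlternatingMap.map_update_add ![v, w] 0 v v'
          rw [hupd0, hupd0, hupd0] at h
          exact h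
        map_smul' := fun r v => by
          have h := σ.toAlternatingMap.map_update_smul ![v, w] 0 r v
          rw [hupd0, hupd0] at h
          exact h }, fun v => rfl⟩

theorem dd_comp [IsManifold (𝓡 d) ∞ X] {G : X → ℝ} (hG : SmoothFun (d := d) G) {g : ℝ × ℝ → X}
    (hg : ContMDiff 𝓘(ℝ, ℝ × ℝ) (𝓡 d) ∞ g) (p : ℝ × ℝ) {w₁ w₂ : ℝ}
    (h1 : HasDerivAt (fun s => G (g (s, p.2))) w₁ p.1)
    (h2 : HasDerivAt (fun t => G (g (p.1, t))) w₂ p.2)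
    (v : TangentSpace 𝓘(ℝ, ℝ × ℝ) p) :
    dd (d := d) G (g p) (mfderiv 𝓘(ℝ, ℝ × ℝ) (𝓡 d) g p v) =
      (show ℝ × ℝ from v).1 * w₁ + (show ℝ × ℝ from v).2 * w₂ := by
  have hd1 : Differentiable ℝ (fun q => G (g q)) :=
    (contMDiff_iff_contDiff.1 (hG.comp hg)).differentiable (by simp)
  have h3 : mfderiv 𝓘(ℝ, ℝ × ℝ) 𝓘(ℝ, ℝ) (G ∘ g) p =
      (mfderiv (𝓡 d) 𝓘(ℝ, ℝ) G (g p)).comp (mfderiv 𝓘(ℝ, ℝ × ℝ) (𝓡 d) g p) :=
    mfderiv_comp p (hG.mdiff (g p)) (hg.mdifferentiable (by simp) p)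
  rw [mfderiv_eq_fderiv] at h3
  have h4 : fderiv ℝ (fun q => G (g q)) p v =
      dd (d := d) G (g p) (mfderiv 𝓘(ℝ, ℝ × ℝ) (𝓡 d) g p v) :=
    congrArg (fun L => L v) h3
  rw [← h4]
  have e1 : fderiv ℝ (fun q => G (g q)) p (1, 0) = w₁ :=
    (HasFDerivAt.comp_hasDerivAt (f := fun s : ℝ => ((s, p.2) : ℝ × ℝ)) p.1
      (hd1 (p.1, p.2)).hasFDerivAt ((hasDerivAt_id p.1).prodMk (hasDerivAt_const p.1 p.2))).unique
      h1
  have e2 : fderiv ℝ (fun q => G (g q)) p (0, 1) = w₂ :=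
    (HasFDerivAt.comp_hasDerivAt (f := fun t : ℝ => ((p.1, t) : ℝ × ℝ)) p.2
      (hd1 (p.1, p.2)).hasFDerivAt ((hasDerivAt_const p.2 p.1).prodMk (hasDerivAt_id p.2))).unique
      h2
  obtain ⟨v', hv'⟩ : ∃ v' : ℝ × ℝ, v' = v := ⟨v, rfl⟩
  have e3 : v' = v'.1 • ((1, 0) : ℝ × ℝ) + v'.2 • ((0, 1) : ℝ × ℝ) := by
    ext <;> simp
  have e4 : fderiv ℝ (fun q => G (g q)) p v' = v'.1 * w₁ + v'.2 * w₂ := by
    conv_lhs => rw [e3]
    rw [map_add, map_smul, map_smul, e1, e2, smul_eq_mul, smul_eq_mul]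
  rw [hv'] at e4
  exact e4

variable [IsManifold (𝓡 d) ∞ X] [CompactSpace X] [T2Space X] [MeasurableSpace X] [BorelSpace X]

/-- a surface tangent to the kernel, with coordinates which are restrictions of functions -/
def LeafC (vol : Top d m X) (σ : Form d X 2) (C : Set X) (z : X) : Prop :=
  ∃ (g : ℝ × ℝ → X) (ε : ℝ) (a b : X → ℝ), 0 < ε ∧ ContMDiff 𝓘(ℝ, ℝ × ℝ) (𝓡 d) ∞ g ∧
    g (0, 0) = z ∧ SmoothFun (d := d) a ∧ SmoothFun (d := d) b ∧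
    ∀ p : ℝ × ℝ, |p.1| < ε → |p.2| < ε → g p ∈ C ∧ bf vol σ a b (g p) ≠ 0 ∧
      (∀ v : TangentSpace 𝓘(ℝ, ℝ × ℝ) p,
        dd (d := d) a (g p) (mfderiv 𝓘(ℝ, ℝ × ℝ) (𝓡 d) g p v) = (show ℝ × ℝ from v).1 ∧
        dd (d := d) b (g p) (mfderiv 𝓘(ℝ, ℝ × ℝ) (𝓡 d) g p v) = (show ℝ × ℝ from v).2) ∧
      ∀ (v : TangentSpace 𝓘(ℝ, ℝ × ℝ) p) (w : TangentSpace (𝓡 d) (g p)),
        σ (g p) ![mfderiv 𝓘(ℝ, ℝ × ℝ) (𝓡 d) g p v, w] = 0

omit [IsManifold (𝓡 d) ∞ X] [CompactSpace X] [T2Space X] [MeasurableSpace X] [BorelSpace X] in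
theorem LeafC.leaf {vol : Top d m X} {σ : Form d X 2} {C : Set X} {z : X}
    (h : LeafC vol σ C z) : Leaf σ C z := by
  obtain ⟨g, ε, a, b, hε, hg, hg0, -, -, hp⟩ := h
  refine ⟨g, ε, hε, hg, hg0, fun p hp1 hp2 => ?_⟩
  obtain ⟨h1, -, h2, h3⟩ := hp p hp1 hp2
  refine ⟨h1, fun v hv => ?_, h3⟩
  obtain ⟨e1, e2⟩ := h2 v
  rw [hv, map_zero] at e1 e2
  exact Prod.ext e1.symm e2.symm

/-- **surfaces in the support of a closed current** -/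
theorem leafC_of_curr (hd : d = 2 * (m + 1)) {vol : Top d m X} (hvol : IsVol vol)
    {σ : Form d X 2} (hσ : IsSmooth σ) (hnn : ∀ x, NonnegTop vol σ x) {μ : Measure X}
    (hμ : IsCurr vol σ μ) {z : X} (hz : z ∈ supp μ)
    (hr : ∃ (τ : (TangentSpace (𝓡 d) z) [⋀^Fin 2]→L[ℝ] ℝ)
      (e : Fin (m + 1) × Fin 2 → TangentSpace (𝓡 d) z),
      Pool.Agent.R772.wedge (Fin.cons τ (fun _ : Fin m => σ z)) e ≠ 0) :
    LeafC vol σ (supp μ) z := by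
  have hsub : supp μ ⊆ {x | ¬ PosTop vol σ x} := by
    intro x hx hcon
    exact hx _ (isOpen_posTop hd hvol hσ) hcon hμ.car
  obtain ⟨a, b, ha, hb, hab⟩ := exists_ab hd hvol z hr
  have hcab := bf_cont hd hvol hσ ha hb
  have hU : IsOpen {x | 0 < bf vol σ a b x} := isOpen_lt continuous_const hcab
  obtain ⟨χ, -, hχt⟩ := (SmoothBumpFunction.nhds_basis_tsupport (I := 𝓡 d) z).mem_iff.1
    (hU.mem_nhds hab)
  have hχ : SmoothFun (d := d) (fun x => χ x) := χ.contMDiff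
  obtain ⟨N, hNχ, hN, hzN⟩ := mem_nhds_iff.1 χ.eventuallyEq_one
  have hχN : ∀ x ∈ N, χ x = 1 := fun x hx => hNχ hx
  have hNt : ∀ x ∈ N, x ∈ tsupport χ := fun x hx => subset_tsupport _ (by
    rw [Function.mem_support, hχN x hx]; exact one_ne_zero)
  have hne : ∀ x ∈ tsupport (fun x => χ x), bf vol σ a b x ≠ 0 := fun x hx =>
    (show 0 < bf vol σ a b x from hχt hx).ne'
  have hne' : ∀ x ∈ tsupport (fun x => χ x), bf vol σ b a x ≠ 0 := fun x hx h0 => by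
    rw [bf_swap hd hvol] at h0
    exact hne x hx (neg_eq_zero.1 h0)
  have hs1 : ∀ x ∈ tsupport (fun x => χ x), |bf vol σ a b x| = 1 * bf vol σ a b x :=
    fun x hx => by
      rw [one_mul]
      exact abs_of_pos (hχt hx)
  have hs2 : ∀ x ∈ tsupport (fun x => χ x), |bf vol σ b a x| = (-1) * bf vol σ b a x :=
    fun x hx => by
      have h1 : 0 < bf vol σ a b x := hχt hx
      rw [bf_swap hd hvol σ b a, abs_neg, abs_of_pos h1]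
      ring
  obtain ⟨φ₁, h₁⟩ := op_flow hd hvol hσ hχ ha hb hne
  obtain ⟨φ₂, h₂⟩ := op_flow hd hvol hσ hχ hb ha hne'
  have hg1 : ContMDiff 𝓘(ℝ, ℝ × ℝ) (𝓡 d) ∞ (fun p : ℝ × ℝ => φ₁ p.1 z) :=
    h₁.cmp (contDiff_fst : ContDiff ℝ ∞ (fun p : ℝ × ℝ => p.1)) contMDiff_const
  have hg : ContMDiff 𝓘(ℝ, ℝ × ℝ) (𝓡 d) ∞ (fun p : ℝ × ℝ => φ₂ p.2 (φ₁ p.1 z)) :=
    h₂.cmp (contDiff_snd : ContDiff ℝ ∞ (fun p : ℝ × ℝ => p.2)) hg1
  have hg0 : φ₂ 0 (φ₁ 0 z) = z := by rw [h₁.zero, h₂.zero]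
  obtain ⟨ε, hε, hball⟩ : ∃ ε : ℝ, 0 < ε ∧ ∀ p : ℝ × ℝ, |p.1| < ε → |p.2| < ε →
      φ₁ p.1 z ∈ N ∧ φ₂ p.2 (φ₁ p.1 z) ∈ N := by
    have e1 : ∀ᶠ p in 𝓝 ((0, 0) : ℝ × ℝ), φ₁ p.1 z ∈ N := by
      refine hg1.continuous.continuousAt.eventually (hN.mem_nhds ?_)
      change φ₁ 0 z ∈ N
      rw [h₁.zero]
      exact hzN
    have e2 : ∀ᶠ p in 𝓝 ((0, 0) : ℝ × ℝ), φ₂ p.2 (φ₁ p.1 z) ∈ N := by
      refine hg.continuous.continuousAt.eventually (hN.mem_nhds ?_)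
      change φ₂ 0 (φ₁ 0 z) ∈ N
      rw [hg0]
      exact hzN
    obtain ⟨ε, hε, h⟩ := Metric.eventually_nhds_iff.1 (e1.and e2)
    refine ⟨ε, hε, fun p hp1 hp2 => h ?_⟩
    rw [Prod.dist_eq]
    exact max_lt (by simpa using hp1) (by simpa using hp2)
  refine ⟨fun p : ℝ × ℝ => φ₂ p.2 (φ₁ p.1 z), ε, a, b, hε, hg, hg0, ha, hb,
    fun p hp1 hp2 => ?_⟩
  have hq : φ₁ p.1 z ∈ supp μ := inv_op hd hvol hσ hμ hχ ha hb hne (by simp) hs1 h₁ hz hab.ne' p.1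
  have hqN := (hball p hp1 hp2).1
  have hqr : ∀ r, φ₂ r (φ₁ p.1 z) ∈ supp μ := fun r =>
    inv_op hd hvol hσ hμ hχ hb ha hne' (by simp) hs2 h₂ hq (hne' _ (hNt _ hqN)) r
  have hgN := (hball p hp1 hp2).2
  have hD1 : ∀ G : X → ℝ, SmoothFun (d := d) G →
      HasDerivAt (fun s => G (φ₂ p.2 (φ₁ s z))) (op vol σ χ a b G (φ₂ p.2 (φ₁ p.1 z))) p.1 := by
    intro G hG
    have e1 := h₁.deriv _ (h₂.smooth_t p.2 hG) z p.1
    rw [transport h₁ h₂ (q := φ₁ p.1 z) (t := p.2) (fun r hr G hG => ?_) hG] at e1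
    · exact e1
    · refine commute hd hvol hσ hnn hμ hsub hχ ha hb hne hN hχN ?_ (hqr r) hG
      refine (hball (p.1, r) hp1 (lt_of_le_of_lt ?_ hp2)).2
      rcases le_total 0 p.2 with h0 | h0
      · rw [uIcc_of_le h0] at hr
        rw [abs_of_nonneg hr.1, abs_of_nonneg h0]
        exact hr.2
      · rw [uIcc_of_ge h0] at hr
        rw [abs_of_nonpos hr.2, abs_of_nonpos h0]
        exact neg_le_neg hr.1
  have hD2 : ∀ G : X → ℝ, SmoothFun (d := d) G →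
      HasDerivAt (fun t => G (φ₂ t (φ₁ p.1 z))) (op vol σ χ b a G (φ₂ p.2 (φ₁ p.1 z))) p.2 :=
    fun G hG => h₂.deriv G hG _ p.2
  have hmf : ∀ (G : X → ℝ), SmoothFun (d := d) G → ∀ v : TangentSpace 𝓘(ℝ, ℝ × ℝ) p,
      dd (d := d) G (φ₂ p.2 (φ₁ p.1 z)) (mfderiv 𝓘(ℝ, ℝ × ℝ) (𝓡 d)
        (fun p : ℝ × ℝ => φ₂ p.2 (φ₁ p.1 z)) p v) =
      (show ℝ × ℝ from v).1 * op vol σ χ a b G (φ₂ p.2 (φ₁ p.1 z)) +
        (show ℝ × ℝ from v).2 * op vol σ χ b a G (φ₂ p.2 (φ₁ p.1 z)) := fun G hG v =>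
    dd_comp hG hg p (hD1 G hG) (hD2 G hG) v
  have hxt := hNt _ hgN
  refine ⟨hqr p.2, hne _ hxt, fun v => ?_, fun v w => ?_⟩
  · have e1 := hmf a ha v
    have e2 := hmf b hb v
    have f1 : op vol σ χ a b a (φ₂ p.2 (φ₁ p.1 z)) = 1 := by
      unfold op
      rw [hχN _ hgN, div_self (hne _ hxt), one_mul]
    have f2 : op vol σ χ b a a (φ₂ p.2 (φ₁ p.1 z)) = 0 := by
      unfold op
      rw [bf_self hd hvol, zero_div, mul_zero]
    have f3 : op vol σ χ a b b (φ₂ p.2 (φ₁ p.1 z)) = 0 := by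
      unfold op
      rw [bf_self hd hvol, zero_div, mul_zero]
    have f4 : op vol σ χ b a b (φ₂ p.2 (φ₁ p.1 z)) = 1 := by
      unfold op
      rw [hχN _ hgN, div_self (hne' _ hxt), one_mul]
    rw [f1, f2, mul_one, mul_zero, add_zero] at e1
    rw [f3, f4, mul_one, mul_zero, zero_add] at e2
    exact ⟨e1, e2⟩
  · -- a function with differential `σ(·, w)`
    obtain ⟨l, hl⟩ : ∃ l : TangentSpace (𝓡 d) (φ₂ p.2 (φ₁ p.1 z)) →L[ℝ] ℝ,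
      ∀ v, l v = σ (φ₂ p.2 (φ₁ p.1 z)) ![v, w] := exists_left (V := E d) _ w
    obtain ⟨G, hG, hGl⟩ := exists_fun (d := d) (φ₂ p.2 (φ₁ p.1 z)) l
    have e1 := hmf G hG v
    have e2 : ∀ c : X → ℝ, bf vol σ G c (φ₂ p.2 (φ₁ p.1 z)) = 0 := fun c =>
      bf_ker hd hvol (hnn _) (hsub (hqr p.2)) fun u hu => by
        rw [hGl, hl]
        exact hu w
    have e3 : op vol σ χ a b G (φ₂ p.2 (φ₁ p.1 z)) = 0 := by
      unfold op
      rw [e2, zero_div, mul_zero]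
    have e4 : op vol σ χ b a G (φ₂ p.2 (φ₁ p.1 z)) = 0 := by
      unfold op
      rw [e2, zero_div, mul_zero]
    rw [e3, e4, mul_zero, mul_zero, add_zero, hGl, hl] at e1
    exact e1

theorem leaf_of_curr (hd : d = 2 * (m + 1)) {vol : Top d m X} (hvol : IsVol vol)
    {σ : Form d X 2} (hσ : IsSmooth σ) (hnn : ∀ x, NonnegTop vol σ x) {μ : Measure X}
    (hμ : IsCurr vol σ μ) {z : X} (hz : z ∈ supp μ)
    (hr : ∃ (τ : (TangentSpace (𝓡 d) z) [⋀^Fin 2]→L[ℝ] ℝ)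
      (e : Fin (m + 1) × Fin 2 → TangentSpace (𝓡 d) z),
      Pool.Agent.R772.wedge (Fin.cons τ (fun _ : Fin m => σ z)) e ≠ 0) :
    Leaf σ (supp μ) z :=
  (leafC_of_curr hd hvol hσ hnn hμ hz hr).leaf

end

end Run7.h752.LF
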