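import Pool.Agent.R772.Min2

/-!
Linear algebra of the bracket `[a b] = a ∧ b ∧ σ ^ m` for a degenerate two-form `σ`.
-/

set_option autoImplicit false

open Set Filter Topology MeasureTheory
open scoped Manifold ContDiff

noncomputable section

namespace Run7.h752.LF

open Pool.Agent.Y501.SY Pool.Agent.R772

section lin

variable {V : Type} [NormedAddCommGroup V] [NormedSpace ℝ V] {m : ℕ}

/-- `2 ^ (m + 1)` times the value of `a ∧ b ∧ σ ^ m` on `e` -/
def br (σ : V [⋀^Fin 2]→L[ℝ] ℝ) (e : Fin (m + 1) × Fin 2 → V) (a b : V →L[ℝ] ℝ) : ℝ :=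
  Pool.Agent.R772.wedge (Fin.cons (Pool.Agent.Y501.SY.wedge a b) (fun _ : Fin m => σ)) e

theorem w_swap (a b : V →L[ℝ] ℝ) :
    Pool.Agent.Y501.SY.wedge a b = (-1 : ℝ) • Pool.Agent.Y501.SY.wedge b a := by
  refine form_ext fun v w => ?_
  have h : ((-1 : ℝ) • Pool.Agent.Y501.SY.wedge b a) ![v, w] =
      (-1 : ℝ) * Pool.Agent.Y501.SY.wedge b a ![v, w] := rfl
  rw [h, wedge_apply, wedge_apply]
  simp only [Matrix.cons_val_zero, Matrix.cons_val_one]
  ring

theorem w_add (a b c : V →L[ℝ] ℝ) (r : ℝ) :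
    Pool.Agent.Y501.SY.wedge (a + r • b) c =
      Pool.Agent.Y501.SY.wedge a c + r • Pool.Agent.Y501.SY.wedge b c := by
  refine form_ext fun v w => ?_
  have h : (Pool.Agent.Y501.SY.wedge a c + r • Pool.Agent.Y501.SY.wedge b c) ![v, w] =
      Pool.Agent.Y501.SY.wedge a c ![v, w] + r * Pool.Agent.Y501.SY.wedge b c ![v, w] := rfl
  rw [h, wedge_apply, wedge_apply, wedge_apply]
  simp only [Matrix.cons_val_zero, Matrix.cons_val_one, add_apply, smul_apply, smul_eq_mul]
  ring

variable (σ : V [⋀^Fin 2]→L[ℝ] ℝ) (e : Fin (m + 1) × Fin 2 → V)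

theorem br_swap (a b : V →L[ℝ] ℝ) : br σ e a b = - br σ e b a := by
  unfold br
  rw [w_swap a b, wedge_cons_smul]
  ring

theorem br_self (a : V →L[ℝ] ℝ) : br σ e a a = 0 := by
  have := br_swap σ e a a
  linarith

theorem br_lin (a b c : V →L[ℝ] ℝ) (r : ℝ) :
    br σ e (a + r • b) c = br σ e a c + r * br σ e b c := by
  unfold br
  rw [w_add, wedge_cons_linear]

theorem br_zero (c : V →L[ℝ] ℝ) : br σ e 0 c = 0 := by
  have := br_lin σ e 0 0 c 1
  rw [smul_zero, add_zero] at this
  linarith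

theorem br_smul (a c : V →L[ℝ] ℝ) (r : ℝ) : br σ e (r • a) c = r * br σ e a c := by
  have := br_lin σ e 0 a c r
  rwa [br_zero, zero_add, zero_add] at this

theorem br_add (a b c : V →L[ℝ] ℝ) : br σ e (a + b) c = br σ e a c + br σ e b c := by
  have := br_lin σ e a b c 1
  rwa [one_smul, one_mul] at this

theorem br_ker [FiniteDimensional ℝ V]
    (h0 : ∀ e : Fin (m + 1) × Fin 2 → V, Pool.Agent.R772.wedge (fun _ : Fin (m + 1) => σ) e = 0)
    (a b : V →L[ℝ] ℝ) (ha : ∀ v, (∀ w, σ ![v, w] = 0) → a v = 0) : br σ e a b = 0 := by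
  obtain ⟨w, hw⟩ := exists_dual σ (a : V →ₗ[ℝ] ℝ) ha
  refine wedge_rank (m := m) σ _ h0 (fun v => b v) w (fun u v => ?_) e
  rw [wedge_apply]
  simp only [Matrix.cons_val_zero, Matrix.cons_val_one]
  have h1 : ∀ v, σ ![v, w] = a v := fun v => (hw v).symm
  rw [h1, h1]

theorem exists_vec [FiniteDimensional ℝ V] (L : (V →L[ℝ] ℝ) → ℝ)
    (hadd : ∀ a b, L (a + b) = L a + L b) (hsmul : ∀ (r : ℝ) a, L (r • a) = r * L a) :
    ∃ v : V, ∀ a : V →L[ℝ] ℝ, a v = L a := by
  let T : Module.Dual ℝ (Module.Dual ℝ V) :=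
    { toFun := fun a => L (LinearMap.toContinuousLinearMap a)
      map_add' := fun a b => by rw [map_add, hadd]
      map_smul' := fun r a => by rw [map_smul, hsmul]; rfl }
  obtain ⟨v, hv⟩ := (Module.evalEquiv ℝ V).surjective T
  refine ⟨v, fun a => ?_⟩
  have h1 : Module.evalEquiv ℝ V v (a : V →ₗ[ℝ] ℝ) = T (a : V →ₗ[ℝ] ℝ) := by rw [hv]
  have h2 : T (a : V →ₗ[ℝ] ℝ) = L a := by
    change L (LinearMap.toContinuousLinearMap (a : V →ₗ[ℝ] ℝ)) = L a
    congr 1
  rw [← h2, ← h1]
  rfl

/-- the identity of Plücker -/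
theorem plucker [FiniteDimensional ℝ V] (hn : Module.finrank ℝ V = 2 * (m + 1))
    (h0 : ∀ e : Fin (m + 1) × Fin 2 → V, Pool.Agent.R772.wedge (fun _ : Fin (m + 1) => σ) e = 0)
    (a b c d : V →L[ℝ] ℝ) (hne : br σ e c d ≠ 0) :
    br σ e a b * br σ e c d = br σ e a c * br σ e b d - br σ e a d * br σ e b c := by
  obtain ⟨ρ, hρ⟩ : ∃ ρ, ρ = br σ e c d := ⟨_, rfl⟩
  rw [← hρ] at hne
  obtain ⟨R1, h1⟩ := exists_vec (V := V) (fun a => br σ e a d / ρ)
    (fun a b => by rw [br_add, add_div]) (fun r a => by rw [br_smul, mul_div_assoc])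
  obtain ⟨R2, h2⟩ := exists_vec (V := V) (fun a => - br σ e a c / ρ)
    (fun a b => by rw [br_add]; ring) (fun r a => by rw [br_smul]; ring)
  have hupd1 : ∀ (v w y : V), Function.update ![v, w] 0 y = ![y, w] := by
    intro v w y; funext i; fin_cases i <;> simp
  -- the vectors `R1`, `R2` lie in the kernel
  have hlin : ∀ w : V, ∃ a : V →L[ℝ] ℝ, ∀ v, a v = σ ![v, w] := by
    intro w
    refine ⟨LinearMap.toContinuousLinearMap
      { toFun := fun v => σ ![v, w]
        map_add' := fun v v' => by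
          have h := σ.toAlternatingMap.map_update_add ![v, w] 0 v v'
          rw [hupd1, hupd1, hupd1] at h
          exact h
        map_smul' := fun r v => by
          have h := σ.toAlternatingMap.map_update_smul ![v, w] 0 r v
          rw [hupd1, hupd1] at h
          exact h }, fun v => rfl⟩
  have hk1 : ∀ w, σ ![R1, w] = 0 := by
    intro w
    obtain ⟨a, ha⟩ := hlin w
    rw [← ha, h1, br_ker σ e h0 a d (fun v hv => by rw [ha]; exact hv w), zero_div]
  have hk2 : ∀ w, σ ![R2, w] = 0 := by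
    intro w
    obtain ⟨a, ha⟩ := hlin w
    rw [← ha, h2, br_ker σ e h0 a c (fun v hv => by rw [ha]; exact hv w), neg_zero, zero_div]
  have c1 : c R1 = 1 := by rw [h1, ← hρ]; exact div_self hne
  have d1 : d R1 = 0 := by rw [h1, br_self]; exact zero_div _
  have c2 : c R2 = 0 := by rw [h2, br_self, neg_zero]; exact zero_div _
  have d2 : d R2 = 1 := by
    rw [h2, br_swap σ e d c, neg_neg, ← hρ]; exact div_self hne
  have hvec : ∀ v, (∀ w, σ ![v, w] = 0) → v = c v • R1 + d v • R2 := by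
    intro v hv
    have h3 : v - (c v • R1 + d v • R2) = 0 := by
      have hne' : Pool.Agent.R772.wedge (Fin.cons (Pool.Agent.Y501.SY.wedge c d)
          (fun _ : Fin m => σ)) e ≠ 0 := by
        change br σ e c d ≠ 0
        rw [← hρ]; exact hne
      refine wedge_ker hn _ e hne' _ fun i w => ?_
      have hz : ∀ w, σ ![v - (c v • R1 + d v • R2), w] = 0 := by
        intro w
        obtain ⟨a, ha⟩ := hlin w
        rw [← ha, map_sub, map_add, map_smul, map_smul, ha, ha, ha, hv, hk1, hk2]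
        simp
      refine Fin.cases ?_ (fun i => ?_) i
      · rw [Fin.cons_zero, wedge_apply]
        simp only [Matrix.cons_val_zero, Matrix.cons_val_one]
        have e1 : c (v - (c v • R1 + d v • R2)) = 0 := by
          rw [map_sub, map_add, map_smul, map_smul, c1, c2]
          simp
        have e2 : d (v - (c v • R1 + d v • R2)) = 0 := by
          rw [map_sub, map_add, map_smul, map_smul, d1, d2]
          simp
        rw [e1, e2]
        ring
      · rw [Fin.cons_succ]
        exact hz w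
    exact sub_eq_zero.1 h3
  have h4 : br σ e (a + (-(a R1)) • c + (-(a R2)) • d) b = 0 := by
    refine br_ker σ e h0 _ b fun v hv => ?_
    have h5 := hvec v hv
    have h6 : a v = c v * a R1 + d v * a R2 := by
      conv_lhs => rw [h5]
      rw [map_add, map_smul, map_smul, smul_eq_mul, smul_eq_mul]
    have h7 : (a + (-(a R1)) • c + (-(a R2)) • d) v = a v + (-(a R1)) * c v + (-(a R2)) * d v :=
      rfl
    rw [h7, h6]
    ring
  rw [br_lin, br_lin, h1, h2] at h4
  rw [← hρ]
  have h8 : br σ e c b = - br σ e b c := br_swap σ e c b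
  have h9 : br σ e d b = - br σ e b d := br_swap σ e d b
  rw [h8, h9] at h4
  have h10 : br σ e a b = br σ e a d / ρ * (- br σ e b c) + (- br σ e a c / ρ) * (- br σ e b d) := by
    linarith
  rw [h10]
  field_simp
  ring

end lin

section mf

variable {d m : ℕ} {X : Type} [TopologicalSpace X] [ChartedSpace (E d) X]

/-- the density of `df ∧ dg ∧ σ ^ m` -/
def bf (vol : Top d m X) (σ : Form d X 2) (f g : X → ℝ) (x : X) : ℝ :=
  md vol σ (dfdg (d := d) f g) x

theorem bf_spec (hd : d = 2 * (m + 1)) {vol : Top d m X} (hvol : IsVol vol) (σ : Form d X 2)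
    (f g : X → ℝ) (x : X) (e : Fin (m + 1) × Fin 2 → E d) :
    br (V := E d) (σ x) e (dd (d := d) f x) (dd (d := d) g x) = bf vol σ f g x * vol x e :=
  md_spec hd hvol σ (dfdg (d := d) f g) x e

theorem bf_of (hd : d = 2 * (m + 1)) {vol : Top d m X} (hvol : IsVol vol) (σ : Form d X 2)
    (x : X) (e : Fin (m + 1) × Fin 2 → E d) (he : 0 < vol x e) (f g : X → ℝ) :
    bf vol σ f g x = br (V := E d) (σ x) e (dd (d := d) f x) (dd (d := d) g x) / vol x e := by
  rw [bf_spec hd hvol, mul_div_cancel_right₀ _ he.ne']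

theorem bf_swap (hd : d = 2 * (m + 1)) {vol : Top d m X} (hvol : IsVol vol) (σ : Form d X 2)
    (f g : X → ℝ) (x : X) : bf vol σ f g x = - bf vol σ g f x := by
  obtain ⟨e, he⟩ := hvol.frame x
  rw [bf_of hd hvol σ x e he, bf_of hd hvol σ x e he, br_swap]
  ring

theorem bf_self (hd : d = 2 * (m + 1)) {vol : Top d m X} (hvol : IsVol vol) (σ : Form d X 2)
    (f : X → ℝ) (x : X) : bf vol σ f f x = 0 := by
  have := bf_swap hd hvol σ f f x
  linarith

theorem bf_zero (hd : d = 2 * (m + 1)) {vol : Top d m X} (hvol : IsVol vol) (σ : Form d X 2)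
    (f g : X → ℝ) (x : X) (h : dd (d := d) f x = 0) : bf vol σ f g x = 0 := by
  obtain ⟨e, he⟩ := hvol.frame x
  have h1 : br (V := E d) (σ x) e (dd (d := d) f x) (dd (d := d) g x) = 0 := by
    rw [h]
    exact br_zero (V := E d) (σ x) e _
  rw [bf_of hd hvol σ x e he, h1, zero_div]

theorem bf_mul (hd : d = 2 * (m + 1)) {vol : Top d m X} (hvol : IsVol vol) (σ : Form d X 2)
    {f g h : X → ℝ} (hf : SmoothFun (d := d) f) (hg : SmoothFun (d := d) g) (x : X) :
    bf vol σ (fun y => f y * g y) h x = f x * bf vol σ g h x + g x * bf vol σ f h x := by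
  obtain ⟨e, he⟩ := hvol.frame x
  have h1 : (dd (d := d) (fun y => f y * g y) x : E d →L[ℝ] ℝ) =
      f x • (dd (d := d) g x : E d →L[ℝ] ℝ) + g x • (dd (d := d) f x : E d →L[ℝ] ℝ) := by
    refine ContinuousLinearMap.ext fun v => ?_
    exact dd_mul hf hg x v
  have h2 : br (V := E d) (σ x) e (dd (d := d) (fun y => f y * g y) x) (dd (d := d) h x) =
      f x * br (V := E d) (σ x) e (dd (d := d) g x) (dd (d := d) h x) +
      g x * br (V := E d) (σ x) e (dd (d := d) f x) (dd (d := d) h x) := by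
    have h3 := br_add (V := E d) (σ x) e (f x • (dd (d := d) g x : E d →L[ℝ] ℝ))
      (g x • (dd (d := d) f x : E d →L[ℝ] ℝ)) (dd (d := d) h x)
    have h4 := br_smul (V := E d) (σ x) e (dd (d := d) g x) (dd (d := d) h x) (f x)
    have h5 := br_smul (V := E d) (σ x) e (dd (d := d) f x) (dd (d := d) h x) (g x)
    exact (congrArg (fun a : E d →L[ℝ] ℝ => br (V := E d) (σ x) e a (dd (d := d) h x)) h1).trans
      (h3.trans (congrArg₂ (· + ·) h4 h5))
  rw [bf_of hd hvol σ x e he, bf_of hd hvol σ x e he, bf_of hd hvol σ x e he, h2]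
  ring

theorem bf_congr {vol : Top d m X} {σ : Form d X 2} {f f' g g' : X → ℝ} {x : X}
    (hf : dd (d := d) f x = dd (d := d) f' x) (hg : dd (d := d) g x = dd (d := d) g' x) :
    bf vol σ f g x = bf vol σ f' g' x := by
  refine md_congr ?_
  change Pool.Agent.Y501.SY.wedge (V := E d) (dd f x) (dd g x) =
    Pool.Agent.Y501.SY.wedge (V := E d) (dd f' x) (dd g' x)
  rw [hf, hg]

/-- functions whose differential vanishes on the kernel -/
theorem bf_ker (hd : d = 2 * (m + 1)) {vol : Top d m X} (hvol : IsVol vol) {σ : Form d X 2}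
    {x : X} (hnn : NonnegTop vol σ x) (hx : ¬ PosTop vol σ x) {f g : X → ℝ}
    (hf : ∀ v : TangentSpace (𝓡 d) x, (∀ w, σ x ![v, w] = 0) → dd (d := d) f x v = 0) :
    bf vol σ f g x = 0 := by
  obtain ⟨e, he⟩ := hvol.frame x
  have hfd := fin_tangent (d := d) x
  rw [bf_of hd hvol σ x e he, br_ker (V := E d) (σ x) e (top_zero hd hnn hx) _ _ hf, zero_div]

/-- the identity of Plücker at the degenerate points -/
theorem bf_plucker (hd : d = 2 * (m + 1)) {vol : Top d m X} (hvol : IsVol vol)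
    {σ : Form d X 2} {x : X} (hnn : NonnegTop vol σ x) (hx : ¬ PosTop vol σ x)
    (f g a b : X → ℝ) (hne : bf vol σ a b x ≠ 0) :
    bf vol σ f g x * bf vol σ a b x =
      bf vol σ f a x * bf vol σ g b x - bf vol σ f b x * bf vol σ g a x := by
  obtain ⟨e, he⟩ := hvol.frame x
  have h1 := plucker (V := E d) (σ x) e (finrank_tangent hd x) (top_zero hd hnn hx)
    (dd (d := d) f x) (dd (d := d) g x) (dd (d := d) a x) (dd (d := d) b x) (by
      rw [bf_of hd hvol σ x e he] at hne
      intro h0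
      rw [h0, zero_div] at hne
      exact hne rfl)
  simp only [bf_of hd hvol σ x e he]
  have hv : vol x e ≠ 0 := he.ne'
  rw [div_mul_div_comm, div_mul_div_comm, div_mul_div_comm, h1]
  ring

end mf

end Run7.h752.LF
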