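import Pool.Agent.Run7.h752.LF.Op

/-!
The support of a closed current on the degenerate set is, where `σ ^ m` does not vanish, a union of
surfaces tangent to the kernel of `σ`.
-/

set_option autoImplicit false

open Set Filter Topology MeasureTheory
open scoped Manifold ContDiff

noncomputable section

namespace Run7.h752.LF

open Pool.Agent.Y501.SY Pool.Agent.R772 Run7.h752.SC

section

variable {X : Type} [TopologicalSpace X] [CompactSpace X] [T2Space X] [MeasurableSpace X]
  [BorelSpace X] [SecondCountableTopology X]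

omit [CompactSpace X] [T2Space X] [BorelSpace X] in
theorem supp_ae (μ : Measure X) : ∀ᵐ x ∂μ, x ∈ supp μ := by
  filter_upwards [measure_eq_zero_iff_ae_notMem.1 (supp_compl μ)] with x hx
  rwa [mem_compl_iff, not_not] at hx

theorem zero_on_supp {μ : Measure X} [IsFiniteMeasure μ] {f : X → ℝ} (hf : Continuous f)
    (h0 : ∀ x, 0 ≤ f x) (hint : ∫ x, f x ∂μ = 0) {z : X} (hz : z ∈ supp μ) : f z = 0 := by
  by_contra hne
  have hae := (integral_eq_zero_iff_of_nonneg h0 (integ hf)).1 hint
  refine hz (Function.support f) hf.isOpen_support hne ?_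
  refine measure_eq_zero_iff_ae_notMem.2 ?_
  filter_upwards [hae] with y hy
  rw [Function.mem_support, not_not]
  exact hy

end

section

variable {d m : ℕ} {X : Type} [TopologicalSpace X] [ChartedSpace (E d) X]

/-- `C` contains an immersed surface through `z` which is tangent to the kernel of `σ`. -/
def Leaf (σ : Form d X 2) (C : Set X) (z : X) : Prop :=
  ∃ (g : ℝ × ℝ → X) (ε : ℝ), 0 < ε ∧ ContMDiff 𝓘(ℝ, ℝ × ℝ) (𝓡 d) ∞ g ∧ g (0, 0) = z ∧
    ∀ p : ℝ × ℝ, |p.1| < ε → |p.2| < ε → g p ∈ C ∧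
      (∀ v : TangentSpace 𝓘(ℝ, ℝ × ℝ) p, mfderiv 𝓘(ℝ, ℝ × ℝ) (𝓡 d) g p v = 0 → v = 0) ∧
      ∀ (v : TangentSpace 𝓘(ℝ, ℝ × ℝ) p) (w : TangentSpace (𝓡 d) (g p)),
        σ (g p) ![mfderiv 𝓘(ℝ, ℝ × ℝ) (𝓡 d) g p v, w] = 0

theorem dd_zero_of_nhds {f : X → ℝ} {x : X} (h : f =ᶠ[𝓝 x] fun _ => 0) :
    dd (d := d) f x = 0 := by
  unfold dd
  rw [h.mfderiv_eq]
  exact mfderiv_const

variable [IsManifold (𝓡 d) ∞ X] [CompactSpace X] [T2Space X] [MeasurableSpace X] [BorelSpace X]

omit [MeasurableSpace X] [BorelSpace X] [CompactSpace X] [T2Space X] in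
theorem bf_cont (hd : d = 2 * (m + 1)) {vol : Top d m X} (hvol : IsVol vol) {σ : Form d X 2}
    (hσ : IsSmooth σ) {f g : X → ℝ} (hf : SmoothFun (d := d) f) (hg : SmoothFun (d := d) g) :
    Continuous (bf vol σ f g) :=
  md_cont hd hvol hσ (dfdg_smooth hf hg)

omit [CompactSpace X] [T2Space X] [BorelSpace X] in
theorem bf_int {vol : Top d m X} {σ : Form d X 2} {μ : Measure X}
    (hμ : IsCurr vol σ μ) {f g : X → ℝ} (hf : SmoothFun (d := d) f) (hg : SmoothFun (d := d) g) :
    ∫ x, bf vol σ f g x ∂μ = 0 := by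
  obtain ⟨h1, h2, h3, -⟩ := (Pair.gen f g hf hg).props Pool.Agent.Y484.SY.t_GEN
  exact hμ.closed (dfdg f g) ⟨_, h1, h2, h3⟩

/-- invariance of the support under the flows of the kernel fields -/
theorem inv_op (hd : d = 2 * (m + 1)) {vol : Top d m X} (hvol : IsVol vol)
    {σ : Form d X 2} (hσ : IsSmooth σ) {μ : Measure X} (hμ : IsCurr vol σ μ)
    {χ a b : X → ℝ} (hχ : SmoothFun (d := d) χ) (ha : SmoothFun (d := d) a)
    (hb : SmoothFun (d := d) b) (hne : ∀ x ∈ tsupport χ, bf vol σ a b x ≠ 0) {s : ℝ}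
    (hs : |s| = 1) (hsgn : ∀ x ∈ tsupport χ, |bf vol σ a b x| = s * bf vol σ a b x)
    {φ : ℝ → X → X} (hφ : FlowOp (d := d) (op vol σ χ a b) φ) {z : X} (hz : z ∈ supp μ)
    (hbz : bf vol σ a b z ≠ 0) (t : ℝ) : φ t z ∈ supp μ := by
  have hfin := hμ.fin
  have hcab := bf_cont hd hvol hσ ha hb
  have hcχ := bf_cont hd hvol hσ hχ hb
  have hcpt : IsCompact (tsupport χ) := (isClosed_tsupport χ).isCompact
  -- bounds
  obtain ⟨M, hM⟩ := (isCompact_univ (X := X)).exists_bound_of_continuousOn hcχ.continuousOn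
  obtain ⟨δ, hδ, hδ'⟩ : ∃ δ : ℝ, 0 < δ ∧ ∀ x ∈ tsupport χ, δ ≤ |bf vol σ a b x| := by
    rcases (tsupport χ).eq_empty_or_nonempty with he | he
    · exact ⟨1, one_pos, fun x hx => absurd hx (by rw [he]; exact notMem_empty x)⟩
    · obtain ⟨x₀, hx₀, hmin⟩ := hcpt.exists_isMinOn he (hcab.abs.continuousOn)
      exact ⟨|bf vol σ a b x₀|, abs_pos.2 (hne x₀ hx₀), fun x hx => hmin hx⟩
  have hM0 : 0 ≤ M := (norm_nonneg _).trans (hM z (mem_univ z))
  refine inv hφ μ (w := fun x => |bf vol σ a b x|) (c := fun x => s * bf vol σ χ b x)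
    (K := M / δ) hcab.abs (continuous_const.mul hcχ) (fun x => abs_nonneg _) ?_ ?_ hz
    (abs_pos.2 hbz) t
  · intro x
    rw [abs_mul, hs, one_mul]
    by_cases hx : x ∈ tsupport χ
    · have h1 := hM x (mem_univ x)
      rw [Real.norm_eq_abs] at h1
      have h2 := hδ' x hx
      calc |bf vol σ χ b x| ≤ M := h1
        _ = M / δ * δ := by field_simp
        _ ≤ M / δ * |bf vol σ a b x| := mul_le_mul_of_nonneg_left h2 (by positivity)
    · have h1 : dd (d := d) χ x = 0 := dd_zero_of_nhds (by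
        filter_upwards [(isClosed_tsupport χ).isOpen_compl.mem_nhds hx] with y hy
        exact image_eq_zero_of_notMem_tsupport hy)
      rw [bf_zero hd hvol σ χ b x h1, abs_zero]
      positivity
  · intro F hF
    have h1 : ∀ x, op vol σ χ a b F x * |bf vol σ a b x| =
        s * bf vol σ (fun y => χ y * F y) b x - F x * (s * bf vol σ χ b x) := by
      intro x
      rw [bf_mul hd hvol σ hχ hF]
      unfold op
      by_cases hx : x ∈ tsupport χ
      · rw [hsgn x hx]
        have := hne x hx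
        field_simp
        ring
      · rw [image_eq_zero_of_notMem_tsupport hx]
        ring
    have i1 : Integrable (fun x => s * bf vol σ (fun y => χ y * F y) b x) μ :=
      integ (continuous_const.mul (bf_cont hd hvol hσ (hχ.mul hF) hb))
    have i2 : Integrable (fun x => F x * (s * bf vol σ χ b x)) μ :=
      integ (hF.continuous.mul (continuous_const.mul hcχ))
    rw [integral_congr_ae (Eventually.of_forall h1), integral_sub i1 i2, integral_const_mul,
      bf_int hμ (hχ.mul hF) hb]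
    ring

/-- the two kernel fields commute on the support -/
theorem commute (hd : d = 2 * (m + 1)) {vol : Top d m X} (hvol : IsVol vol)
    {σ : Form d X 2} (hσ : IsSmooth σ) (hnn : ∀ x, NonnegTop vol σ x) {μ : Measure X}
    (hμ : IsCurr vol σ μ) (hsub : supp μ ⊆ {x | ¬ PosTop vol σ x})
    {χ a b : X → ℝ} (hχ : SmoothFun (d := d) χ) (ha : SmoothFun (d := d) a)
    (hb : SmoothFun (d := d) b) (hne : ∀ x ∈ tsupport χ, bf vol σ a b x ≠ 0)
    {N : Set X} (hN : IsOpen N) (hχN : ∀ x ∈ N, χ x = 1) {y : X} (hyN : y ∈ N)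
    (hy : y ∈ supp μ) {G : X → ℝ} (hG : SmoothFun (d := d) G) :
    op vol σ χ a b (op vol σ χ b a G) y = op vol σ χ b a (op vol σ χ a b G) y := by
  have hfin := hμ.fin
  have hmetr : TopologicalSpace.MetrizableSpace X := Manifold.metrizableSpace (𝓡 d) X
  have hne' : ∀ x ∈ tsupport χ, bf vol σ b a x ≠ 0 := fun x hx h0 => by
    rw [bf_swap hd hvol] at h0
    exact hne x hx (neg_eq_zero.1 h0)
  have hNt : ∀ x ∈ N, x ∈ tsupport χ := fun x hx => subset_tsupport _ (by
    rw [Function.mem_support, hχN x hx]; exact one_ne_zero)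
  have s1 : SmoothFun (d := d) (op vol σ χ a b G) := op_smooth hd hvol hσ hχ ha hb hne hG
  have s2 : SmoothFun (d := d) (op vol σ χ b a G) := op_smooth hd hvol hσ hχ hb ha hne' hG
  have s12 : SmoothFun (d := d) (op vol σ χ a b (op vol σ χ b a G)) :=
    op_smooth hd hvol hσ hχ ha hb hne s2
  have s21 : SmoothFun (d := d) (op vol σ χ b a (op vol σ χ a b G)) :=
    op_smooth hd hvol hσ hχ hb ha hne' s1
  let h : X → ℝ := fun x => bf vol σ a b x *
    (op vol σ χ a b (op vol σ χ b a G) x - op vol σ χ b a (op vol σ χ a b G) x)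
  have hh : Continuous h := (bf_cont hd hvol hσ ha hb).mul (s12.continuous.sub s21.continuous)
  -- the operators on `N`
  have o1 : ∀ (u : X → ℝ), ∀ x ∈ N, bf vol σ u b x = bf vol σ a b x * op vol σ χ a b u x := by
    intro u x hx
    unfold op
    have := hne x (hNt x hx)
    rw [hχN x hx]
    field_simp
  have o2 : ∀ (u : X → ℝ), ∀ x ∈ N, bf vol σ u a x = - bf vol σ a b x * op vol σ χ b a u x := by
    intro u x hx
    unfold op
    have := hne x (hNt x hx)
    rw [hχN x hx, bf_swap hd hvol σ b a]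
    field_simp
  have key : ∀ f : X → ℝ, SmoothFun (d := d) f → tsupport f ⊆ N → ∫ x, f x * h x ∂μ = 0 := by
    intro f hf hfN
    have hpt : ∀ x ∈ supp μ, f x * h x = bf vol σ (fun y => f y * op vol σ χ b a G y) b x +
        bf vol σ (fun y => f y * op vol σ χ a b G y) a x - bf vol σ f G x := by
      intro x hx
      by_cases hxf : x ∈ tsupport f
      · have hxN := hfN hxf
        have hpl := bf_plucker hd hvol (hnn x) (hsub hx) f G a b (hne x (hNt x hxN))
        rw [bf_mul hd hvol σ hf s2, bf_mul hd hvol σ hf s1, o1 _ x hxN, o1 f x hxN, o2 _ x hxN,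
          o2 f x hxN]
        rw [o1 f x hxN, o1 G x hxN, o2 f x hxN, o2 G x hxN] at hpl
        have h2 : bf vol σ f G x = bf vol σ a b x * (op vol σ χ a b f x * op vol σ χ b a G x -
            op vol σ χ b a f x * op vol σ χ a b G x) := by
          have h3 : bf vol σ f G x * bf vol σ a b x = (bf vol σ a b x * (op vol σ χ a b f x *
            op vol σ χ b a G x - op vol σ χ b a f x * op vol σ χ a b G x)) * bf vol σ a b x := by
            rw [hpl]; ring
          exact mul_right_cancel₀ (hne x (hNt x hxN)) h3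
        rw [h2]
        change f x * (bf vol σ a b x * (op vol σ χ a b (op vol σ χ b a G) x -
          op vol σ χ b a (op vol σ χ a b G) x)) = _
        ring
      · have hz : ∀ᶠ y in 𝓝 x, f y = 0 := by
          filter_upwards [(isClosed_tsupport f).isOpen_compl.mem_nhds hxf] with y hy
          exact image_eq_zero_of_notMem_tsupport hy
        have e1 : ∀ u : X → ℝ, dd (d := d) (fun y => f y * u y) x = 0 := fun u =>
          dd_zero_of_nhds (hz.mono fun y hy => by
            change f y * u y = 0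
            rw [hy, zero_mul])
        have e2 : dd (d := d) f x = 0 := dd_zero_of_nhds hz
        rw [bf_zero hd hvol σ _ b x (e1 _), bf_zero hd hvol σ _ a x (e1 _),
          bf_zero hd hvol σ f G x e2, hz.self_of_nhds]
        ring
    have i1 := integ (μ := μ) (bf_cont hd hvol hσ (hf.mul s2) hb)
    have i2 := integ (μ := μ) (bf_cont hd hvol hσ (hf.mul s1) ha)
    have i3 := integ (μ := μ) (bf_cont hd hvol hσ hf hG)
    have h3 : ∫ x, f x * h x ∂μ = ∫ x, (bf vol σ (fun y => f y * op vol σ χ b a G y) b x +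
        bf vol σ (fun y => f y * op vol σ χ a b G y) a x - bf vol σ f G x) ∂μ := by
      refine integral_congr_ae ?_
      filter_upwards [supp_ae μ] with x hx
      exact hpt x hx
    have i12 : Integrable (fun x => bf vol σ (fun y => f y * op vol σ χ b a G y) b x +
        bf vol σ (fun y => f y * op vol σ χ a b G y) a x) μ := i1.add i2
    rw [h3, integral_sub i12 i3, integral_add i1 i2, bf_int hμ (hf.mul s2) hb,
      bf_int hμ (hf.mul s1) ha, bf_int hμ hf hG]
    ring
  have hhy : h y = 0 := by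
    by_contra hne0
    have hO : IsOpen (N ∩ {x | 0 < h x * h y}) :=
      hN.inter (isOpen_lt continuous_const (hh.mul continuous_const))
    have hyO : y ∉ (N ∩ {x | 0 < h x * h y})ᶜ := by
      rw [mem_compl_iff, not_not]
      exact ⟨hyN, mul_self_pos.2 hne0⟩
    obtain ⟨b', -, hb'⟩ := (SmoothBumpFunction.nhds_basis_tsupport (I := 𝓡 d) y).mem_iff.1
      (hO.mem_nhds (not_not.1 hyO))
    have h1 := key b' b'.contMDiff (hb'.trans inter_subset_left)
    have h2 : ∫ x, b' x * (h x * h y) ∂μ = 0 := by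
      have h4 : (fun x => b' x * (h x * h y)) = fun x => (b' x * h x) * h y := by
        funext x; ring
      rw [h4, integral_mul_const, h1, zero_mul]
    have h5 := zero_on_supp (μ := μ) (f := fun x => b' x * (h x * h y))
      (b'.contMDiff.continuous.mul (hh.mul continuous_const)) (fun x => by
        by_cases hx : x ∈ tsupport b'
        · exact mul_nonneg b'.nonneg (le_of_lt (hb' hx).2)
        · rw [image_eq_zero_of_notMem_tsupport hx, zero_mul]) h2 hy
    rw [b'.eq_one, one_mul] at h5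
    exact hne0 (mul_self_eq_zero.1 h5)
  have h6 : bf vol σ a b y * (op vol σ χ a b (op vol σ χ b a G) y -
      op vol σ χ b a (op vol σ χ a b G) y) = 0 := hhy
  rcases mul_eq_zero.1 h6 with h7 | h7
  · exact absurd h7 (hne y (hNt y hyN))
  · exact sub_eq_zero.1 h7

omit [MeasurableSpace X] [BorelSpace X] [CompactSpace X] in
/-- two functions with positive bracket -/
theorem exists_ab (hd : d = 2 * (m + 1)) {vol : Top d m X} (hvol : IsVol vol)
    {σ : Form d X 2} (z : X) (hr : ∃ (τ : (TangentSpace (𝓡 d) z) [⋀^Fin 2]→L[ℝ] ℝ)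
      (e : Fin (m + 1) × Fin 2 → TangentSpace (𝓡 d) z),
      Pool.Agent.R772.wedge (Fin.cons τ (fun _ : Fin m => σ z)) e ≠ 0) :
    ∃ a b : X → ℝ, SmoothFun (d := d) a ∧ SmoothFun (d := d) b ∧ 0 < bf vol σ a b z := by
  obtain ⟨g, B, hg, hB⟩ := LinPos.exists hd hvol (σ := σ) z hr
  rw [linPos_iff hd hvol] at hB
  have h1 : (∑ j, ∑ k, B j k • dfdg (d := d) (g j) (g k)) =
      ∑ p : Fin d × Fin d, B p.1 p.2 • dfdg (d := d) (g p.1) (g p.2) :=
    (Fintype.sum_prod_type (fun p : Fin d × Fin d => B p.1 p.2 •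
      dfdg (d := d) (g p.1) (g p.2))).symm
  rw [h1, md_sum hd hvol σ Finset.univ (fun p : Fin d × Fin d => B p.1 p.2)
    (fun p => dfdg (d := d) (g p.1) (g p.2)) z] at hB
  obtain ⟨p, -, hp⟩ := Finset.exists_ne_zero_of_sum_ne_zero hB.ne'
  have h2 : bf vol σ (g p.1) (g p.2) z ≠ 0 := fun h0 => hp (by
    change B p.1 p.2 * bf vol σ (g p.1) (g p.2) z = 0
    rw [h0, mul_zero])
  rcases lt_or_gt_of_ne h2 with h3 | h3
  · refine ⟨g p.2, g p.1, hg _, hg _, ?_⟩
    rw [bf_swap hd hvol]
    exact neg_pos.2 h3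
  · exact ⟨g p.1, g p.2, hg _, hg _, h3⟩

end

end Run7.h752.LF
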