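import Pool.Agent.R772.Min2
import Pool.Agent.H826R2.Wein.Flw

/-!
Smooth sections of the tangent bundle tested on functions, functions with a given differential, and
flows of smooth vector fields on closed manifolds.
-/

set_option autoImplicit false

open Set Filter Topology MeasureTheory
open scoped Manifold ContDiff

noncomputable section

namespace Run7.h752.LF

open Pool.Agent.Y501.SY Pool.Agent.R772

section

variable {d : ℕ} {X : Type} [TopologicalSpace X] [ChartedSpace (E d) X]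
  [IsManifold (𝓡 d) ∞ X]

/-- the coordinates near a point, as a globally defined smooth map -/
theorem exists_coord [T2Space X] (z : X) : ∃ F : X → E d, ContMDiff (𝓡 d) 𝓘(ℝ, E d) ∞ F ∧
    F =ᶠ[𝓝 z] chartAt (E d) z := by
  obtain ⟨b⟩ : Nonempty (SmoothBumpFunction (𝓡 d) z) := inferInstance
  refine ⟨fun x => b x • chartAt (E d) z x, b.contMDiff_smul (contMDiffOn_chart (I := 𝓡 d)), ?_⟩
  filter_upwards [b.eventuallyEq_one] with x hx
  rw [hx]
  exact one_smul ℝ (chartAt (E d) z x)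

/-- every covector is the differential of a smooth function -/
theorem exists_fun [T2Space X] (z : X) (l : TangentSpace (𝓡 d) z →L[ℝ] ℝ) :
    ∃ f : X → ℝ, SmoothFun (d := d) f ∧ ∀ v, dd (d := d) f z v = l v := by
  obtain ⟨F, hF, hFc⟩ := exists_coord (d := d) z
  have hz : z ∈ (chartAt (E d) z).source := mem_chart_source (E d) z
  have hcd : (chartAt (E d) z).MDifferentiable (𝓡 d) (𝓡 d) := mdifferentiable_chart (I := 𝓡 d) z
  let A : TangentSpace (𝓡 d) z ≃L[ℝ] E d := hcd.mfderiv hz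
  let l' : E d →L[ℝ] ℝ := l.comp (A.symm : E d →L[ℝ] TangentSpace (𝓡 d) z)
  refine ⟨fun x => l' (F x), l'.contDiff.contMDiff.comp hF, fun v => ?_⟩
  have hcdz : MDifferentiableAt (𝓡 d) 𝓘(ℝ, E d) (chartAt (E d) z) z :=
    hcd.mdifferentiableAt hz
  have e1 : (fun x => l' (F x)) =ᶠ[𝓝 z] l' ∘ (chartAt (E d) z) := by
    filter_upwards [hFc] with x hx
    change l' (F x) = l' (chartAt (E d) z x)
    rw [hx]
  have e2 : dd (d := d) (fun x => l' (F x)) z v = l' (A v) := by
    unfold dd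
    rw [e1.mfderiv_eq, mfderiv_comp z (l'.contDiff.contMDiff.mdifferentiableAt
        (n := 1) one_ne_zero) hcdz,
      mfderiv_eq_fderiv, ContinuousLinearMap.fderiv]
    rfl
  rw [e2]
  change l (A.symm (A v)) = l v
  rw [A.symm_apply_apply]

/-- a vector field is smooth if the derivatives of smooth functions along it are smooth -/
theorem smooth_section [T2Space X] {Y : (x : X) → TangentSpace (𝓡 d) x}
    (h : ∀ F : X → ℝ, SmoothFun (d := d) F → SmoothFun (d := d) (fun x => dd (d := d) F x (Y x))) :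
    ContMDiff (𝓡 d) (𝓡 d).tangent ∞ (fun x => (⟨x, Y x⟩ : TangentBundle (𝓡 d) X)) := by
  intro x₀
  rw [Bundle.contMDiffAt_totalSpace]
  refine ⟨contMDiffAt_id, ?_⟩
  set c := chartAt (E d) x₀ with hc
  have hz : x₀ ∈ c.source := mem_chart_source (E d) x₀
  have hcd : c.MDifferentiable (𝓡 d) (𝓡 d) := mdifferentiable_chart (I := 𝓡 d) x₀
  obtain ⟨F, hF, hFc⟩ := exists_coord (d := d) x₀
  have hFj : ∀ j : Fin d, SmoothFun (d := d) (fun x => F x j) := fun j =>
    ((EuclideanSpace.proj (𝕜 := ℝ) j : E d →L[ℝ] ℝ).contDiff.contMDiff).comp hF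
  have h1 : ContMDiffAt (𝓡 d) 𝓘(ℝ, E d) ∞ (fun x => ∑ j : Fin d,
      (dd (d := d) (fun x => F x j) x (Y x)) • (EuclideanSpace.single j (1 : ℝ) : E d)) x₀ := by
    refine ContMDiffAt.sum fun j _ => ?_
    exact ((h _ (hFj j)).contMDiffAt).smul contMDiffAt_const
  refine h1.congr_of_eventuallyEq ?_
  filter_upwards [hFc.eventuallyEq_nhds, c.open_source.mem_nhds hz] with x hx hxs
  have e1 : ((trivializationAt (E d) (TangentSpace (𝓡 d)) x₀)
      (⟨x, Y x⟩ : TangentBundle (𝓡 d) X)).2 =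
      (trivializationAt (E d) (TangentSpace (𝓡 d)) x₀).continuousLinearMapAt ℝ x (Y x) := by
    have hb : x ∈ (trivializationAt (E d) (TangentSpace (𝓡 d)) x₀).baseSet := by
      simpa using hxs
    have h8 := congrFun (Bundle.Trivialization.coe_linearMapAt_of_mem (R := ℝ)
      (trivializationAt (E d) (TangentSpace (𝓡 d)) x₀) hb) (Y x)
    exact h8.symm
  have e2 := TangentBundle.continuousLinearMapAt_trivializationAt (𝕜 := ℝ) (I := 𝓡 d)
    (x₀ := x₀) (x := x) hxs
  have e3 : mfderiv (𝓡 d) 𝓘(ℝ, E d) (extChartAt (𝓡 d) x₀) x (Y x) =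
      (mfderiv (𝓡 d) 𝓘(ℝ, E d) c x (Y x) : E d) := rfl
  have e4 : ((trivializationAt (E d) (TangentSpace (𝓡 d)) x₀)
      (⟨x, Y x⟩ : TangentBundle (𝓡 d) X)).2 = (mfderiv (𝓡 d) 𝓘(ℝ, E d) c x (Y x) : E d) := by
    rw [e1, e2]
    exact e3
  refine e4.trans ?_
  ext j
  have hcx : MDifferentiableAt (𝓡 d) 𝓘(ℝ, E d) c x := hcd.mdifferentiableAt hxs
  have e5 : dd (d := d) (fun x => F x j) x (Y x) =
      (show E d from mfderiv (𝓡 d) 𝓘(ℝ, E d) c x (Y x)) j := by
    have e6 : (fun x => F x j) =ᶠ[𝓝 x] (EuclideanSpace.proj (𝕜 := ℝ) j : E d →L[ℝ] ℝ) ∘ c := by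
      filter_upwards [hx] with y hy
      change F y j = c y j
      rw [hy]
    unfold dd
    rw [e6.mfderiv_eq, mfderiv_comp x
      ((EuclideanSpace.proj (𝕜 := ℝ) j : E d →L[ℝ] ℝ).contDiff.contMDiff.mdifferentiableAt
        (n := 1) one_ne_zero) hcx,
      mfderiv_eq_fderiv, ContinuousLinearMap.fderiv]
    rfl
  rw [← e5]
  have e7 : ∀ (f : Fin d → ℝ) (j : Fin d), (∑ i : Fin d,
      f i • (EuclideanSpace.single i (1 : ℝ) : E d)) j = f j := by
    intro f j
    simp [Finset.sum_apply, Pi.single_apply]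
  exact (e7 (fun i => dd (d := d) (fun x => F x i) x (Y x)) j).symm

/-- the flow of a vector field on a closed manifold -/
theorem exists_flow [CompactSpace X] [T2Space X] {Y : (x : X) → TangentSpace (𝓡 d) x}
    (h : ∀ F : X → ℝ, SmoothFun (d := d) F → SmoothFun (d := d) (fun x => dd (d := d) F x (Y x))) :
    ∃ φ : ℝ → X → X, ContMDiff (𝓘(ℝ, ℝ).prod (𝓡 d)) (𝓡 d) ∞ (fun p : ℝ × X => φ p.1 p.2) ∧
      (∀ x, φ 0 x = x) ∧ (∀ s t x, φ (s + t) x = φ s (φ t x)) ∧
      ∀ F : X → ℝ, SmoothFun (d := d) F → ∀ x t,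
        HasDerivAt (fun t => F (φ t x)) (dd (d := d) F (φ t x) (Y (φ t x))) t := by
  have hY := smooth_section h
  have hman : IsManifold (𝓡 d) 1 X := IsManifold.of_le (n := ∞) (by simp)
  choose Fl h0 hFl using Pool.Agent.H826R2.Wein.complete_of_compact (E := E d) (P := X) hY
    (isCompact_univ (X := X)) (fun x hx => absurd (mem_univ x) hx)
  have hsm := Pool.Agent.Helper186.contMDiff_flow (I := 𝓡 d) hY h0 hFl
  refine ⟨fun t x => Fl x t, ?_, h0, fun s t x => ?_, fun F hF x t => ?_⟩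
  · exact hsm.comp (contMDiff_snd.prodMk contMDiff_fst)
  · rw [add_comm]
    exact Pool.Agent.Helper186.flow_add (I := 𝓡 d) hY h0 hFl x t s
  · exact Pool.Agent.H826R2.Wein.hasDerivAt_along (E := E d) (P := X) (hFl x t) hF

end

end Run7.h752.LF
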