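import Pool.Agent.Run7.h752.LF.FlowOp
import Pool.Agent.Run7.h752.LF.Sec

/-!
The vector fields dual to `db ∧ σ ^ m`, normalised by `da ∧ db ∧ σ ^ m`, and their flows.
-/

set_option autoImplicit false

open Set Filter Topology MeasureTheory
open scoped Manifold ContDiff

noncomputable section

namespace Run7.h752.LF

open Pool.Agent.Y501.SY Pool.Agent.R772 Run7.h752.SC

section wdg

variable {V : Type} [NormedAddCommGroup V] [NormedSpace ℝ V] {n : ℕ}

/-- evaluation of two-forms -/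
def evL (v : Fin 2 → V) : (V [⋀^Fin 2]→L[ℝ] ℝ) →L[ℝ] ℝ :=
  LinearMap.mkContinuous
    { toFun := fun f => f v
      map_add' := fun _ _ => rfl
      map_smul' := fun _ _ => rfl } (∏ i, ‖v i‖)
    (fun f => by rw [mul_comm]; exact f.le_opNorm v)

theorem contDiff_wedge {N : Type} [NormedAddCommGroup N] [NormedSpace ℝ N]
    {s : N → Fin n → V [⋀^Fin 2]→L[ℝ] ℝ} (e : Fin n × Fin 2 → V) {S : Set N}
    (hs : ∀ i, ContDiffOn ℝ ∞ (fun t => s t i) S) :
    ContDiffOn ℝ ∞ (fun t => Pool.Agent.R772.wedge (s t) e) S := by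
  unfold Pool.Agent.R772.wedge
  refine ContDiffOn.sum fun π _ => ContDiffOn.mul contDiffOn_const ?_
  refine contDiffOn_prod fun i _ => ?_
  exact (evL ![e (π (i, 0)), e (π (i, 1))]).contDiff.comp_contDiffOn (hs i)

end wdg

section

variable {d m : ℕ} {X : Type} [TopologicalSpace X] [ChartedSpace (E d) X]

/-- the field dual to `db ∧ σ ^ m`, normalised by `da ∧ db ∧ σ ^ m` and cut off by `χ` -/
def op (vol : Top d m X) (σ : Form d X 2) (χ a b : X → ℝ) (F : X → ℝ) (x : X) : ℝ :=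
  χ x * (bf vol σ F b x / bf vol σ a b x)

/-- it is given by a vector field -/
theorem op_vec (hd : d = 2 * (m + 1)) {vol : Top d m X} (hvol : IsVol vol) (σ : Form d X 2)
    (χ a b : X → ℝ) (x : X) : ∃ v : TangentSpace (𝓡 d) x, ∀ F : X → ℝ,
      dd (d := d) F x v = op vol σ χ a b F x := by
  obtain ⟨e, he⟩ := hvol.frame x
  have hfd := fin_tangent (d := d) x
  obtain ⟨v, hv⟩ := exists_vec (V := E d) (fun l => χ x * (br (V := E d) (σ x) e l
      (dd (d := d) b x) / br (V := E d) (σ x) e (dd (d := d) a x) (dd (d := d) b x)))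
    (fun l l' => by rw [br_add]; ring) (fun r l => by rw [br_smul]; ring)
  refine ⟨v, fun F => ?_⟩
  refine (hv (dd (d := d) F x)).trans ?_
  unfold op
  rw [bf_of hd hvol σ x e he, bf_of hd hvol σ x e he, div_div_div_cancel_right₀ he.ne']

variable [IsManifold (𝓡 d) ∞ X]

theorem dfdg_smooth {f g : X → ℝ} (hf : SmoothFun (d := d) f) (hg : SmoothFun (d := d) g) :
    IsSmooth (dfdg (d := d) f g) :=
  ((Pair.gen f g hf hg).props Pool.Agent.Y484.SY.t_GEN).2.1

theorem ratio_smooth (hd : d = 2 * (m + 1)) {vol : Top d m X} (hvol : IsVol vol)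
    {σ : Form d X 2} (hσ : IsSmooth σ) {f b a b' : X → ℝ} (hf : SmoothFun (d := d) f)
    (hb : SmoothFun (d := d) b) (ha : SmoothFun (d := d) a) (hb' : SmoothFun (d := d) b')
    {x₀ : X} (hne : bf vol σ a b' x₀ ≠ 0) :
    ContMDiffAt (𝓡 d) 𝓘(ℝ, ℝ) ∞ (fun x => bf vol σ f b x / bf vol σ a b' x) x₀ := by
  obtain ⟨e, he⟩ := exists_frame hvol x₀
  set c := chartAt (E d) x₀ with hc
  have hx : x₀ ∈ c.source := mem_chart_source (E d) x₀
  have hp0 : c x₀ ∈ c.target := c.map_source hx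
  let N : (X → ℝ) → (X → ℝ) → E d → ℝ := fun f b p =>
    Pool.Agent.R772.wedge (Fin.cons (pb c.symm (dfdg (d := d) f b) p)
      (fun _ : Fin m => pb c.symm σ p)) e
  have hsm : ContMDiffOn (𝓡 d) (𝓡 d) ∞ c.symm c.target := contMDiffOn_chart_symm (I := 𝓡 d)
  have hN : ∀ f b : X → ℝ, SmoothFun (d := d) f → SmoothFun (d := d) b →
      ContDiffOn ℝ ∞ (N f b) c.target := by
    intro f b hf hb
    refine contDiff_wedge (s := fun p : E d => (Fin.cons (pb c.symm (dfdg (d := d) f b) p)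
      (fun _ : Fin m => pb c.symm σ p) : Fin (m + 1) → (E d) [⋀^Fin 2]→L[ℝ] ℝ)) e ?_
    intro i
    refine Fin.cases ?_ (fun i => ?_) i
    · simp only [Fin.cons_zero]
      exact dfdg_smooth hf hb c.target c.symm c.open_target hsm
    · simp only [Fin.cons_succ]
      exact hσ c.target c.symm c.open_target hsm
  have hrel : ∀ f b : X → ℝ, ∀ p : E d, N f b p = bf vol σ f b (c.symm p) *
      vol (c.symm p) (fun k => mfderiv (𝓡 d) (𝓡 d) c.symm p (e k)) := by
    intro f b p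
    change Pool.Agent.R772.wedge (Fin.cons (pb c.symm (dfdg (d := d) f b) p)
      (fun _ : Fin m => pb c.symm σ p)) e = _
    rw [wedge_pb_cons]
    exact md_spec hd hvol σ (dfdg (d := d) f b) (c.symm p) _
  have hne' : N a b' (c x₀) ≠ 0 := by
    rw [hrel]
    exact mul_ne_zero (by rw [c.left_inv hx]; exact hne) he.self_of_nhds.2.ne'
  have h1 : ContDiffAt ℝ ∞ (fun p => N f b p / N a b' p) (c x₀) :=
    ((hN f b hf hb).contDiffAt (c.open_target.mem_nhds hp0)).div
      ((hN a b' ha hb').contDiffAt (c.open_target.mem_nhds hp0)) hne'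
  have h2 : ContMDiffAt (𝓡 d) 𝓘(ℝ, E d) ∞ c x₀ :=
    (contMDiffOn_chart (I := 𝓡 d)).contMDiffAt (c.open_source.mem_nhds hx)
  have h3 : ContMDiffAt (𝓡 d) 𝓘(ℝ, ℝ) ∞ (fun x => N f b (c x) / N a b' (c x)) x₀ :=
    ContMDiffAt.comp (g := fun p => N f b p / N a b' p) x₀ h1.contMDiffAt h2
  refine h3.congr_of_eventuallyEq ?_
  have h4 : ∀ᶠ x in 𝓝 x₀, c x ∈ c.target ∧ 0 < vol (c.symm (c x))
      (fun k => mfderiv (𝓡 d) (𝓡 d) c.symm (c x) (e k)) := by
    exact (c.continuousAt hx).eventually he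
  filter_upwards [h4, c.open_source.mem_nhds hx] with x hx1 hx2
  rw [hrel, hrel, mul_div_mul_right _ _ hx1.2.ne', c.left_inv hx2]

theorem op_smooth (hd : d = 2 * (m + 1)) {vol : Top d m X} (hvol : IsVol vol)
    {σ : Form d X 2} (hσ : IsSmooth σ) {χ a b : X → ℝ} (hχ : SmoothFun (d := d) χ)
    (ha : SmoothFun (d := d) a) (hb : SmoothFun (d := d) b)
    (hne : ∀ x ∈ tsupport χ, bf vol σ a b x ≠ 0) {F : X → ℝ} (hF : SmoothFun (d := d) F) :
    SmoothFun (d := d) (op vol σ χ a b F) := by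
  intro x₀
  by_cases hx : x₀ ∈ tsupport χ
  · exact (hχ x₀).mul (ratio_smooth hd hvol hσ hF hb ha hb (hne x₀ hx))
  · have h1 : op vol σ χ a b F =ᶠ[𝓝 x₀] fun _ => 0 := by
      filter_upwards [(isClosed_tsupport χ).isOpen_compl.mem_nhds hx] with y hy
      unfold op
      rw [image_eq_zero_of_notMem_tsupport hy, zero_mul]
    exact contMDiffAt_const.congr_of_eventuallyEq h1

/-- **the flow** -/
theorem op_flow [CompactSpace X] [T2Space X] (hd : d = 2 * (m + 1)) {vol : Top d m X}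
    (hvol : IsVol vol) {σ : Form d X 2} (hσ : IsSmooth σ) {χ a b : X → ℝ}
    (hχ : SmoothFun (d := d) χ) (ha : SmoothFun (d := d) a) (hb : SmoothFun (d := d) b)
    (hne : ∀ x ∈ tsupport χ, bf vol σ a b x ≠ 0) :
    ∃ φ : ℝ → X → X, FlowOp (d := d) (op vol σ χ a b) φ := by
  choose Y hY using op_vec hd hvol σ χ a b
  obtain ⟨φ, h1, h2, h3, h4⟩ := exists_flow (d := d) (X := X) (Y := Y) (fun F hF => by
    have : (fun x => dd (d := d) F x (Y x)) = op vol σ χ a b F := by
      funext x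
      exact hY x F
    rw [this]
    exact op_smooth hd hvol hσ hχ ha hb hne hF)
  refine ⟨φ, h1, h2, h3, fun F hF => op_smooth hd hvol hσ hχ ha hb hne hF, fun F hF x t => ?_⟩
  have := h4 F hF x t
  rwa [hY] at this

end

end Run7.h752.LF
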