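import Pool.Agent.Run7.h752.LF.Leaf

/-!
Closed currents whose support has locally finite area: the support is a surface.
-/

set_option autoImplicit false

open Set Filter Topology MeasureTheory
open scoped Manifold ContDiff

noncomputable section

namespace Run7.h752.LF

open Pool.Agent.Y501.SY Pool.Agent.R772 Run7.h752.SC

section

variable {d m : ℕ} {X : Type} [TopologicalSpace X] [ChartedSpace (E d) X]

/-- a function whose derivative along a flow line is constant -/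
theorem flow_affine {W : (X → ℝ) → X → ℝ} {φ : ℝ → X → X} (h : FlowOp (d := d) W φ) {F : X → ℝ}
    (hF : SmoothFun (d := d) F) {c : ℝ} {x : X} {t : ℝ}
    (hW : ∀ r ∈ uIcc 0 t, W F (φ r x) = c) : F (φ t x) = F x + c * t := by
  have h1 := intervalIntegral.integral_eq_sub_of_hasDerivAt (a := 0) (b := t)
    (f := fun r => F (φ r x)) (f' := fun _ => c) (fun r hr => by
      have h2 := h.deriv F hF x r
      rwa [hW r hr] at h2) intervalIntegrable_const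
  rw [intervalIntegral.integral_const, h.zero] at h1
  simp only [sub_zero, smul_eq_mul] at h1
  linarith

theorem FlowOp.back {W : (X → ℝ) → X → ℝ} {φ : ℝ → X → X} (h : FlowOp (d := d) W φ) (t : ℝ)
    (x : X) : φ (-t) (φ t x) = x := by
  rw [← h.add, neg_add_cancel, h.zero]

/-- two flows, spanning the kernel near `z` -/
structure Pack [MeasurableSpace X] (vol : Top d m X) (σ : Form d X 2) (z : X) (a b : X → ℝ)
    (N : Set X) (W₁ W₂ : (X → ℝ) → X → ℝ) (φ₁ φ₂ : ℝ → X → X) : Prop where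
  sa : SmoothFun (d := d) a
  sb : SmoothFun (d := d) b
  isOpen : IsOpen N
  mem : z ∈ N
  f₁ : FlowOp (d := d) W₁ φ₁
  f₂ : FlowOp (d := d) W₂ φ₂
  w₁a : ∀ x ∈ N, W₁ a x = 1
  w₁b : ∀ x ∈ N, W₁ b x = 0
  w₂a : ∀ x ∈ N, W₂ a x = 0
  w₂b : ∀ x ∈ N, W₂ b x = 1
  inv₁ : ∀ μ : Measure X, IsCurr vol σ μ → ∀ x ∈ N, x ∈ supp μ → ∀ t, φ₁ t x ∈ supp μ
  inv₂ : ∀ μ : Measure X, IsCurr vol σ μ → ∀ x ∈ N, x ∈ supp μ → ∀ t, φ₂ t x ∈ supp μ
  disc : ∀ μ : Measure X, IsCurr vol σ μ → ∀ x ∈ N, x ∈ supp μ → ∀ p : ℝ × ℝ,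
    φ₁ p.1 x ∈ N → (∀ r ∈ uIcc 0 p.2, φ₂ r (φ₁ p.1 x) ∈ N) →
      (∀ v : TangentSpace 𝓘(ℝ, ℝ × ℝ) p, mfderiv 𝓘(ℝ, ℝ × ℝ) (𝓡 d)
        (fun p : ℝ × ℝ => φ₂ p.2 (φ₁ p.1 x)) p v = 0 → v = 0) ∧
      ∀ (v : TangentSpace 𝓘(ℝ, ℝ × ℝ) p) (w : TangentSpace (𝓡 d) (φ₂ p.2 (φ₁ p.1 x))),
        σ (φ₂ p.2 (φ₁ p.1 x)) ![mfderiv 𝓘(ℝ, ℝ × ℝ) (𝓡 d)
          (fun p : ℝ × ℝ => φ₂ p.2 (φ₁ p.1 x)) p v, w] = 0
  wpos : ∀ x ∈ N, 0 < bf vol σ a b x
  wcont : Continuous (bf vol σ a b)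
  div₁ : ∀ μ : Measure X, IsCurr vol σ μ → ∀ F : X → ℝ, SmoothFun (d := d) F → tsupport F ⊆ N →
    ∫ x, W₁ F x * bf vol σ a b x ∂μ = 0
  div₂ : ∀ μ : Measure X, IsCurr vol σ μ → ∀ F : X → ℝ, SmoothFun (d := d) F → tsupport F ⊆ N →
    ∫ x, W₂ F x * bf vol σ a b x ∂μ = 0

variable [IsManifold (𝓡 d) ∞ X] [CompactSpace X] [T2Space X] [MeasurableSpace X] [BorelSpace X]

theorem exists_pack (hd : d = 2 * (m + 1)) {vol : Top d m X} (hvol : IsVol vol)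
    {σ : Form d X 2} (hσ : IsSmooth σ) (hnn : ∀ x, NonnegTop vol σ x) {z : X}
    (hr : ∃ (τ : (TangentSpace (𝓡 d) z) [⋀^Fin 2]→L[ℝ] ℝ)
      (e : Fin (m + 1) × Fin 2 → TangentSpace (𝓡 d) z),
      Pool.Agent.R772.wedge (Fin.cons τ (fun _ : Fin m => σ z)) e ≠ 0) :
    ∃ (a b : X → ℝ) (N : Set X) (W₁ W₂ : (X → ℝ) → X → ℝ) (φ₁ φ₂ : ℝ → X → X),
      Pack vol σ z a b N W₁ W₂ φ₁ φ₂ := by
  have hsub : ∀ μ : Measure X, IsCurr vol σ μ → supp μ ⊆ {x | ¬ PosTop vol σ x} := by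
    intro μ hμ x hx hcon
    exact hx _ (isOpen_posTop hd hvol hσ) hcon hμ.car
  obtain ⟨a, b, ha, hb, hab⟩ := exists_ab hd hvol z hr
  have hcab := bf_cont hd hvol hσ ha hb
  have hU : IsOpen {x | 0 < bf vol σ a b x} := isOpen_lt continuous_const hcab
  obtain ⟨χ, -, hχt⟩ := (SmoothBumpFunction.nhds_basis_tsupport (I := 𝓡 d) z).mem_iff.1
    (hU.mem_nhds hab)
  have hχ : SmoothFun (d := d) (fun x => χ x) := χ.contMDiff
  obtain ⟨N, hNχ, hN, hzN⟩ := mem_nhds_iff.1 χ.eventuallyEq_one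
  have hχN : ∀ x ∈ N, χ x = 1 := fun x hx => hNχ hx
  have hNt : ∀ x ∈ N, x ∈ tsupport χ := fun x hx => subset_tsupport _ (by
    rw [Function.mem_support, hχN x hx]; exact one_ne_zero)
  have hne : ∀ x ∈ tsupport (fun x => χ x), bf vol σ a b x ≠ 0 := fun x hx =>
    (show 0 < bf vol σ a b x from hχt hx).ne'
  have hne' : ∀ x ∈ tsupport (fun x => χ x), bf vol σ b a x ≠ 0 := fun x hx h0 => by
    rw [bf_swap hd hvol] at h0
    exact hne x hx (neg_eq_zero.1 h0)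
  have hs1 : ∀ x ∈ tsupport (fun x => χ x), |bf vol σ a b x| = 1 * bf vol σ a b x :=
    fun x hx => by
      rw [one_mul]
      exact abs_of_pos (hχt hx)
  have hs2 : ∀ x ∈ tsupport (fun x => χ x), |bf vol σ b a x| = (-1) * bf vol σ b a x :=
    fun x hx => by
      have h1 : 0 < bf vol σ a b x := hχt hx
      rw [bf_swap hd hvol σ b a, abs_neg, abs_of_pos h1]
      ring
  obtain ⟨φ₁, h₁⟩ := op_flow hd hvol hσ hχ ha hb hne
  obtain ⟨φ₂, h₂⟩ := op_flow hd hvol hσ hχ hb ha hne'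
  have f1 : ∀ x ∈ N, op vol σ χ a b a x = 1 := fun x hx => by
    unfold op
    rw [hχN _ hx, div_self (hne _ (hNt x hx)), one_mul]
  have f2 : ∀ x ∈ N, op vol σ χ b a a x = 0 := fun x hx => by
    unfold op
    rw [bf_self hd hvol, zero_div, mul_zero]
  have f3 : ∀ x ∈ N, op vol σ χ a b b x = 0 := fun x hx => by
    unfold op
    rw [bf_self hd hvol, zero_div, mul_zero]
  have f4 : ∀ x ∈ N, op vol σ χ b a b x = 1 := fun x hx => by
    unfold op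
    rw [hχN _ hx, div_self (hne' _ (hNt x hx)), one_mul]
  have i1 : ∀ μ : Measure X, IsCurr vol σ μ → ∀ x ∈ N, x ∈ supp μ → ∀ t, φ₁ t x ∈ supp μ :=
    fun μ hμ x hxN hx t => inv_op hd hvol hσ hμ hχ ha hb hne (by simp) hs1 h₁ hx
      (hne _ (hNt x hxN)) t
  have i2 : ∀ μ : Measure X, IsCurr vol σ μ → ∀ x ∈ N, x ∈ supp μ → ∀ t, φ₂ t x ∈ supp μ :=
    fun μ hμ x hxN hx t => inv_op hd hvol hσ hμ hχ hb ha hne' (by simp) hs2 h₂ hx
      (hne' _ (hNt x hxN)) t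
  have hdd : ∀ F : X → ℝ, ∀ x, x ∉ tsupport F → dd (d := d) F x = 0 := fun F x hx =>
    dd_zero_of_nhds (by
      filter_upwards [(isClosed_tsupport F).isOpen_compl.mem_nhds hx] with y hy
      exact image_eq_zero_of_notMem_tsupport hy)
  have d1 : ∀ μ : Measure X, IsCurr vol σ μ → ∀ F : X → ℝ, SmoothFun (d := d) F →
      tsupport F ⊆ N → ∫ x, op vol σ χ a b F x * bf vol σ a b x ∂μ = 0 := by
    intro μ hμ F hF hFN
    rw [← bf_int hμ hF hb]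
    refine integral_congr_ae (Eventually.of_forall fun x => ?_)
    change χ x * (bf vol σ F b x / bf vol σ a b x) * bf vol σ a b x = bf vol σ F b x
    by_cases hx : x ∈ tsupport F
    · have := hne x (hNt x (hFN hx))
      rw [hχN x (hFN hx)]
      field_simp
    · rw [bf_zero hd hvol σ F b x (hdd F x hx)]
      ring
  have d2 : ∀ μ : Measure X, IsCurr vol σ μ → ∀ F : X → ℝ, SmoothFun (d := d) F →
      tsupport F ⊆ N → ∫ x, op vol σ χ b a F x * bf vol σ a b x ∂μ = 0 := by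
    intro μ hμ F hF hFN
    rw [← neg_zero, ← bf_int hμ hF ha, ← integral_neg]
    refine integral_congr_ae (Eventually.of_forall fun x => ?_)
    change χ x * (bf vol σ F a x / bf vol σ b a x) * bf vol σ a b x = - bf vol σ F a x
    by_cases hx : x ∈ tsupport F
    · have := hne x (hNt x (hFN hx))
      rw [hχN x (hFN hx), bf_swap hd hvol σ b a]
      field_simp
    · rw [bf_zero hd hvol σ F a x (hdd F x hx)]
      ring
  refine ⟨a, b, N, _, _, φ₁, φ₂, ha, hb, hN, hzN, h₁, h₂, f1, f3, f2, f4, i1, i2, ?_,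
    fun x hx => hχt (hNt x hx), hcab, d1, d2⟩
  intro μ hμ x hxN hx p hp1 hp2
  have hg1 : ContMDiff 𝓘(ℝ, ℝ × ℝ) (𝓡 d) ∞ (fun p : ℝ × ℝ => φ₁ p.1 x) :=
    h₁.cmp (contDiff_fst : ContDiff ℝ ∞ (fun p : ℝ × ℝ => p.1)) contMDiff_const
  have hg : ContMDiff 𝓘(ℝ, ℝ × ℝ) (𝓡 d) ∞ (fun p : ℝ × ℝ => φ₂ p.2 (φ₁ p.1 x)) :=
    h₂.cmp (contDiff_snd : ContDiff ℝ ∞ (fun p : ℝ × ℝ => p.2)) hg1
  have hq : φ₁ p.1 x ∈ supp μ := i1 μ hμ x hxN hx p.1
  have hqr : ∀ r, φ₂ r (φ₁ p.1 x) ∈ supp μ := i2 μ hμ _ hp1 hq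
  have hgN : φ₂ p.2 (φ₁ p.1 x) ∈ N := hp2 _ right_mem_uIcc
  have hD1 : ∀ G : X → ℝ, SmoothFun (d := d) G →
      HasDerivAt (fun s => G (φ₂ p.2 (φ₁ s x))) (op vol σ χ a b G (φ₂ p.2 (φ₁ p.1 x))) p.1 := by
    intro G hG
    have e1 := h₁.deriv _ (h₂.smooth_t p.2 hG) x p.1
    rw [transport h₁ h₂ (q := φ₁ p.1 x) (t := p.2) (fun r hr G hG =>
      commute hd hvol hσ hnn hμ (hsub μ hμ) hχ ha hb hne hN hχN (hp2 r hr) (hqr r) hG) hG] at e1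
    exact e1
  have hD2 : ∀ G : X → ℝ, SmoothFun (d := d) G →
      HasDerivAt (fun t => G (φ₂ t (φ₁ p.1 x))) (op vol σ χ b a G (φ₂ p.2 (φ₁ p.1 x))) p.2 :=
    fun G hG => h₂.deriv G hG _ p.2
  have hmf : ∀ (G : X → ℝ), SmoothFun (d := d) G → ∀ v : TangentSpace 𝓘(ℝ, ℝ × ℝ) p,
      dd (d := d) G (φ₂ p.2 (φ₁ p.1 x)) (mfderiv 𝓘(ℝ, ℝ × ℝ) (𝓡 d)
        (fun p : ℝ × ℝ => φ₂ p.2 (φ₁ p.1 x)) p v) =
      (show ℝ × ℝ from v).1 * op vol σ χ a b G (φ₂ p.2 (φ₁ p.1 x)) +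
        (show ℝ × ℝ from v).2 * op vol σ χ b a G (φ₂ p.2 (φ₁ p.1 x)) := fun G hG v =>
    dd_comp hG hg p (hD1 G hG) (hD2 G hG) v
  refine ⟨fun v hv => ?_, fun v w => ?_⟩
  · have e1 := hmf a ha v
    have e2 := hmf b hb v
    rw [f1 _ hgN, f2 _ hgN, mul_one, mul_zero, add_zero, hv, map_zero] at e1
    rw [f3 _ hgN, f4 _ hgN, mul_one, mul_zero, zero_add, hv, map_zero] at e2
    exact Prod.ext e1.symm e2.symm
  · obtain ⟨l, hl⟩ : ∃ l : TangentSpace (𝓡 d) (φ₂ p.2 (φ₁ p.1 x)) →L[ℝ] ℝ,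
      ∀ v, l v = σ (φ₂ p.2 (φ₁ p.1 x)) ![v, w] := exists_left (V := E d) _ w
    obtain ⟨G, hG, hGl⟩ := exists_fun (d := d) (φ₂ p.2 (φ₁ p.1 x)) l
    have e1 := hmf G hG v
    have e2 : ∀ c : X → ℝ, bf vol σ G c (φ₂ p.2 (φ₁ p.1 x)) = 0 := fun c =>
      bf_ker hd hvol (hnn _) (hsub μ hμ (hqr p.2)) fun u hu => by
        rw [hGl, hl]
        exact hu w
    have e3 : op vol σ χ a b G (φ₂ p.2 (φ₁ p.1 x)) = 0 := by
      unfold op
      rw [e2, zero_div, mul_zero]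
    have e4 : op vol σ χ b a G (φ₂ p.2 (φ₁ p.1 x)) = 0 := by
      unfold op
      rw [e2, zero_div, mul_zero]
    rw [e3, e4, mul_zero, mul_zero, add_zero, hGl, hl] at e1
    exact e1

end

end Run7.h752.LF
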