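import Pool.Agent.Run7.h752.LF.Const2

/-!
Uniqueness of the closed current on a connected surface tangent to the kernel.
-/

set_option autoImplicit false

open Set Filter Topology MeasureTheory
open scoped Manifold ContDiff NNReal ENNReal

noncomputable section

namespace Run7.h752.LF

open Pool.Agent.Y501.SY Pool.Agent.R772 Run7.h752.SC

section

variable {d m : ℕ} {X : Type} [TopologicalSpace X] [ChartedSpace (E d) X]
  [IsManifold (𝓡 d) ∞ X] [CompactSpace X] [T2Space X] [MeasurableSpace X] [BorelSpace X]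

omit [IsManifold (𝓡 d) ∞ X] in
theorem supp_nonempty {vol : Top d m X} {σ : Form d X 2} {μ : Measure X}
    (hμ : IsCurr vol σ μ) : (supp μ).Nonempty := by
  have hmetr : TopologicalSpace.MetrizableSpace X := Manifold.metrizableSpace (𝓡 d) X
  have hsec : SecondCountableTopology X := by
    let _ := TopologicalSpace.metrizableSpaceMetric X
    infer_instance
  by_contra hcon
  rw [not_nonempty_iff_eq_empty] at hcon
  have h1 := supp_compl μ
  rw [hcon, compl_empty] at h1
  exact hμ.ne (Measure.measure_univ_eq_zero.1 h1)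

/-- **uniqueness** -/
theorem curr_eq (hd : d = 2 * (m + 1)) {vol : Top d m X} (hvol : IsVol vol)
    {σ : Form d X 2} (hσ : IsSmooth σ) (hnn : ∀ x, NonnegTop vol σ x) {μ ν : Measure X}
    (hμ : IsCurr vol σ μ) (hν : IsCurr vol σ ν) (hsub : supp ν ⊆ supp μ)
    (hconn : IsPreconnected (supp μ))
    (hr : ∀ z ∈ supp μ, ∃ (τ : (TangentSpace (𝓡 d) z) [⋀^Fin 2]→L[ℝ] ℝ)
      (e : Fin (m + 1) × Fin 2 → TangentSpace (𝓡 d) z),
      Pool.Agent.R772.wedge (Fin.cons τ (fun _ : Fin m => σ z)) e ≠ 0)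
    (hfin : ∀ z ∈ supp μ, FinAt d (supp μ) z) :
    ∃ r : ℝ≥0, ν = r • μ := by
  have hmetr : TopologicalSpace.MetrizableSpace X := Manifold.metrizableSpace (𝓡 d) X
  have hsec : SecondCountableTopology X := by
    let _ := TopologicalSpace.metrizableSpaceMetric X
    infer_instance
  have hfμ := hμ.fin
  have hC : IsCompact (supp μ) := (isClosed_supp μ).isCompact
  have hloc : ∀ z : supp μ, ∃ (O : Set X) (r : ℝ≥0), IsOpen O ∧ (z : X) ∈ O ∧
      ∀ A : Set X, MeasurableSet A → A ⊆ O → ν A = r * μ A := by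
    intro z
    obtain ⟨a, b, N, W₁, W₂, φ₁, φ₂, P⟩ := exists_pack hd hvol hσ hnn (hr z z.2)
    exact P.compare hμ hν hsub z.2 (hfin z z.2)
  choose O r hO hzO hA using hloc
  have hlc : IsLocallyConstant r := by
    refine (IsLocallyConstant.iff_exists_open r).2 fun x => ?_
    refine ⟨Subtype.val ⁻¹' O x, (hO x).preimage continuous_subtype_val, hzO x, fun y hy => ?_⟩
    have hop : IsOpen (O x ∩ O y) := (hO x).inter (hO y)
    have h1 := hA x (O x ∩ O y) hop.measurableSet inter_subset_left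
    have h2 := hA y (O x ∩ O y) hop.measurableSet inter_subset_right
    have h3 : μ (O x ∩ O y) ≠ 0 := fun h0 => y.2 _ hop ⟨hy, hzO y⟩ h0
    have h4 : μ (O x ∩ O y) ≠ ⊤ := measure_ne_top μ _
    rw [h1] at h2
    exact (ENNReal.coe_injective ((ENNReal.mul_left_inj h3 h4).1 h2)).symm
  have hps : PreconnectedSpace (supp μ) := isPreconnected_iff_preconnectedSpace.1 hconn
  obtain ⟨z₀, hz₀⟩ := supp_nonempty hμ
  have hconst : ∀ z : supp μ, r z = r ⟨z₀, hz₀⟩ := fun z =>
    hlc.apply_eq_of_preconnectedSpace _ _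
  refine ⟨r ⟨z₀, hz₀⟩, ?_⟩
  obtain ⟨V, hV, hCV, hVA⟩ : ∃ V : Set X, IsOpen V ∧ supp μ ⊆ V ∧
      ∀ A : Set X, MeasurableSet A → A ⊆ V → ν A = r ⟨z₀, hz₀⟩ * μ A := by
    refine hC.induction_on (p := fun s => ∃ V : Set X, IsOpen V ∧ s ⊆ V ∧
      ∀ A : Set X, MeasurableSet A → A ⊆ V → ν A = r ⟨z₀, hz₀⟩ * μ A) ?_ ?_ ?_ ?_
    · exact ⟨∅, isOpen_empty, subset_rfl, fun A _ hA => by
        rw [subset_empty_iff.1 hA, measure_empty, measure_empty, mul_zero]⟩
    · rintro s t hst ⟨V, h1, h2, h3⟩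
      exact ⟨V, h1, hst.trans h2, h3⟩
    · rintro s t ⟨V, h1, h2, h3⟩ ⟨V', h1', h2', h3'⟩
      refine ⟨V ∪ V', h1.union h1', union_subset_union h2 h2', fun A hA hAV => ?_⟩
      have hsub' : A \ V ⊆ V' := fun x hx => (hAV hx.1).resolve_left hx.2
      rw [← measure_inter_add_sdiff A h1.measurableSet (μ := ν),
        ← measure_inter_add_sdiff A h1.measurableSet (μ := μ), mul_add,
        h3 _ (hA.inter h1.measurableSet) inter_subset_right,
        h3' _ (hA.diff h1.measurableSet) hsub']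
    · intro z hz
      refine ⟨O ⟨z, hz⟩, mem_nhdsWithin_of_mem_nhds ((hO _).mem_nhds (hzO ⟨z, hz⟩)), O ⟨z, hz⟩,
        hO _, subset_rfl, fun A hA' hAO => ?_⟩
      rw [hA ⟨z, hz⟩ A hA' hAO, hconst]
  refine Measure.ext fun A hA' => ?_
  have e1 : ∀ κ : Measure X, κ (supp μ)ᶜ = 0 → κ (A \ V) = 0 := fun κ hκ =>
    measure_mono_null (fun x hx hx' => hx.2 (hCV hx')) hκ
  have hν0 : ν (supp μ)ᶜ = 0 := measure_mono_null (fun x hx hx' => hx (hsub hx')) (supp_compl ν)
  have e2 : ν A = ν (A ∩ V) := by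
    rw [← measure_inter_add_sdiff A hV.measurableSet, e1 ν hν0, add_zero]
  have e3 : μ A = μ (A ∩ V) := by
    rw [← measure_inter_add_sdiff A hV.measurableSet, e1 μ (supp_compl μ), add_zero]
  rw [e2, hVA _ (hA'.inter hV.measurableSet) inter_subset_right, ← e3]
  rfl

end

end Run7.h752.LF
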